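import Pool.Agent.Lib.MP_1a0a6e_lc.Cnt

/-!
# MP_1a0a6e_lc: every real of a cone is shared among infinitely many reals according to an access structure, the joins of the
unqualified sets of members lying in one fibre
-/

set_option autoImplicit false

open MeasureTheory Set Topology
open scoped symmDiff ENNReal

namespace Pool.Agent.Lib.MP_1a0a6e_lc

/-- the sum of the masks of row `r` -/
def sg (F : ℕ → Finset ℕ) (x : Gp) (r : ℕ) : ZMod 2 := ∑ l ∈ F r, x (Nat.pair l r)

/-- the corrected cells of the columns in `S`, if masked -/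
def dh (F : ℕ → Finset ℕ) (m : ℕ → ℕ) (S : ℕ → Bool) (c : ℕ) : Prop :=
  c.unpair.1 = m c.unpair.2 ∧ ∃ l ∈ F c.unpair.2, S l = false

instance (F : ℕ → Finset ℕ) (m : ℕ → ℕ) (S : ℕ → Bool) : DecidablePred (dh F m S) := fun c =>
  inferInstanceAs (Decidable (c.unpair.1 = m c.unpair.2 ∧ ∃ l ∈ F c.unpair.2, S l = false))

/-- the part of `x` in the compressed join -/
noncomputable def Lg (F : ℕ → Finset ℕ) (m : ℕ → ℕ) (S : ℕ → Bool) (x : Gp) : Gp :=
  fun k => if dh F m S (nt S k) then sg F x (nt S k).unpair.2 else x (nt S k)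

/-- the part of `z` in the compressed join -/
noncomputable def Mg (F : ℕ → Finset ℕ) (m : ℕ → ℕ) (S : ℕ → Bool) (z : Gp) : Gp :=
  fun k => if dh F m S (nt S k) then z (nt S k).unpair.2.unpair.2 else 0

/-- the family -/
def Yg (F : ℕ → Finset ℕ) (m : ℕ → ℕ) (x z : Gp) (i : ℕ) : Gp :=
  fun r => if i = m r then z r.unpair.2 + sg F x r else x (Nat.pair i r)

theorem sg_cont (F : ℕ → Finset ℕ) (r : ℕ) : Continuous fun x : Gp => sg F x r := by
  unfold sg
  exact continuous_finsetSum _ fun l _ => continuous_apply _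

theorem Lg_cont (F : ℕ → Finset ℕ) (m : ℕ → ℕ) (S : ℕ → Bool) : Continuous (Lg F m S) := by
  refine continuous_pi fun k => ?_
  unfold Lg
  by_cases h : dh F m S (nt S k)
  · simp only [h, if_true]
    exact sg_cont F _
  · simp only [h, if_false]
    exact continuous_apply _

theorem Mg_cont (F : ℕ → Finset ℕ) (m : ℕ → ℕ) (S : ℕ → Bool) : Continuous (Mg F m S) := by
  refine continuous_pi fun k => ?_
  unfold Mg
  by_cases h : dh F m S (nt S k)
  · simp only [h, if_true]
    exact continuous_apply _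
  · simp only [h, if_false]
    exact continuous_const

theorem Lg_add (F : ℕ → Finset ℕ) (m : ℕ → ℕ) (S : ℕ → Bool) (x y : Gp) :
    Lg F m S (x + y) = Lg F m S x + Lg F m S y := by
  funext k
  show (if dh F m S (nt S k) then sg F (x + y) (nt S k).unpair.2 else (x + y) (nt S k)) =
    (if dh F m S (nt S k) then sg F x (nt S k).unpair.2 else x (nt S k)) +
      (if dh F m S (nt S k) then sg F y (nt S k).unpair.2 else y (nt S k))
  by_cases h : dh F m S (nt S k)
  · rw [if_pos h, if_pos h, if_pos h]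
    unfold sg
    rw [← Finset.sum_add_distrib]
    rfl
  · rw [if_neg h, if_neg h, if_neg h]
    rfl

/-- `Lg` as a homomorphism -/
noncomputable def LgH (F : ℕ → Finset ℕ) (m : ℕ → ℕ) (S : ℕ → Bool) : Gp →+ Gp where
  toFun := Lg F m S
  map_zero' := by
    have h := Lg_add F m S 0 0
    rw [add_zero, gp_add_self] at h
    exact h
  map_add' := Lg_add F m S

open Classical in
theorem Lg_surj (F : ℕ → Finset ℕ) (m : ℕ → ℕ) (S : ℕ → Bool) (i : ℕ) (h0 : S i = true) :
    Function.Surjective (Lg F m S) := by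
  intro v
  let a : ℕ → ℕ → ZMod 2 := fun i n => if S i = true then v (ct S (Nat.pair i n)) else 0
  let h : ℕ → ℕ := fun r => if hh : ∃ l ∈ F r, S l = false then hh.choose else 0
  have hh1 : ∀ r, (∃ l ∈ F r, S l = false) → h r ∈ F r ∧ S (h r) = false := by
    intro r hr
    have e : h r = hr.choose := dif_pos hr
    rw [e]
    exact hr.choose_spec
  let x : Gp := fun c => if (∃ l ∈ F c.unpair.2, S l = false) ∧ c.unpair.1 = h c.unpair.2 then
    a (m c.unpair.2) c.unpair.2 + ∑ l ∈ (F c.unpair.2).erase (h c.unpair.2), a l c.unpair.2 else a c.unpair.1 c.unpair.2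
  have hx : ∀ i r, x (Nat.pair i r) = if (∃ l ∈ F r, S l = false) ∧ i = h r then
      a (m r) r + ∑ l ∈ (F r).erase (h r), a l r else a i r := by
    intro i r
    show (if (∃ l ∈ F (Nat.pair i r).unpair.2, S l = false) ∧ (Nat.pair i r).unpair.1 = h (Nat.pair i r).unpair.2 then
      a (m (Nat.pair i r).unpair.2) (Nat.pair i r).unpair.2 +
        ∑ l ∈ (F (Nat.pair i r).unpair.2).erase (h (Nat.pair i r).unpair.2), a l (Nat.pair i r).unpair.2
      else a (Nat.pair i r).unpair.1 (Nat.pair i r).unpair.2) = _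
    simp only [Nat.unpair_pair]
  have hsg : ∀ r, (∃ l ∈ F r, S l = false) → sg F x r = a (m r) r := by
    intro r hr
    unfold sg
    rw [← Finset.add_sum_erase (F r) (fun l => x (Nat.pair l r)) (hh1 r hr).1]
    have h1 : ∑ l ∈ (F r).erase (h r), x (Nat.pair l r) = ∑ l ∈ (F r).erase (h r), a l r :=
      Finset.sum_congr rfl fun l hl => by
        rw [hx, if_neg]
        exact fun h => (Finset.mem_erase.1 hl).1 h.2
    rw [h1, hx, if_pos ⟨hr, rfl⟩, add_assoc, CharTwo.add_self_eq_zero, add_zero]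
  refine ⟨x, funext fun k => ?_⟩
  have hk : S (nt S k).unpair.1 = true := nt_mem h0 k
  have hv : a (nt S k).unpair.1 (nt S k).unpair.2 = v k := by
    show (if S (nt S k).unpair.1 = true then v (ct S (Nat.pair (nt S k).unpair.1 (nt S k).unpair.2)) else 0) = v k
    rw [if_pos hk, Nat.pair_unpair, ct_nt h0]
  show (if dh F m S (nt S k) then sg F x (nt S k).unpair.2 else x (nt S k)) = v k
  by_cases hd : dh F m S (nt S k)
  · rw [if_pos hd, hsg _ hd.2, ← hv, hd.1]
  · rw [if_neg hd, ← hv]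
    refine if_neg fun h2 => ?_
    rw [h2.2, (hh1 _ h2.1).2] at hk
    exact Bool.false_ne_true hk

theorem Lg_mp (F : ℕ → Finset ℕ) (m : ℕ → ℕ) (S : ℕ → Bool) (i : ℕ) (h0 : S i = true) :
    MeasurePreserving (Lg F m S) mu mu :=
  AddMonoidHom.measurePreserving (f := LgH F m S) (Lg_cont F m S) (Lg_surj F m S i h0) rfl

theorem comp_evg (F : ℕ → Finset ℕ) (m : ℕ → ℕ) (S : ℕ → Bool) (i : ℕ) (h0 : S i = true)
    (hs : ∃ R, ∀ r ≥ R, S (m r) = true → ∃ l ∈ F r, S l = false) (x z : Gp) :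
    Ev (dec (Lg F m S x + Mg F m S z)) fun k => Ji S (fun i => dec (Yg F m x z i)) (nt S k) := by
  obtain ⟨R, hR⟩ := hs
  refine ⟨∑ r ∈ Finset.range R, (Nat.pair (m r) r + 1), fun k hk => ?_⟩
  have hm : S (nt S k).unpair.1 = true := nt_mem h0 k
  have hle := le_nt h0 k
  show decide ((if dh F m S (nt S k) then sg F x (nt S k).unpair.2 else x (nt S k)) +
      (if dh F m S (nt S k) then z (nt S k).unpair.2.unpair.2 else 0) = 1) =
    if S (nt S k).unpair.1 = true then
      decide ((if (nt S k).unpair.1 = m (nt S k).unpair.2 then z (nt S k).unpair.2.unpair.2 + sg F x (nt S k).unpair.2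
        else x (Nat.pair (nt S k).unpair.1 (nt S k).unpair.2)) = 1) else false
  rw [if_pos hm, Nat.pair_unpair]
  by_cases h : (nt S k).unpair.1 = m (nt S k).unpair.2
  · have h2 : R ≤ (nt S k).unpair.2 := by
      by_contra hcon
      have h3 : Nat.pair (m (nt S k).unpair.2) (nt S k).unpair.2 + 1 ≤ ∑ r ∈ Finset.range R, (Nat.pair (m r) r + 1) :=
        Finset.single_le_sum (f := fun r => Nat.pair (m r) r + 1) (fun _ _ => Nat.zero_le _)
          (Finset.mem_range.2 (not_le.1 hcon))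
      rw [← h, Nat.pair_unpair] at h3
      omega
    have h3 : dh F m S (nt S k) := ⟨h, hR _ h2 (by rw [← h]; exact hm)⟩
    rw [if_pos h3, if_pos h3, if_pos h, add_comm]
  · have h3 : ¬ dh F m S (nt S k) := fun h4 => h h4.1
    rw [if_neg h3, if_neg h3, if_neg h, add_zero]

/-! ### computability of the family, relative to some real -/

theorem fam_le (F : ℕ → Finset ℕ) (m : ℕ → ℕ) :
    ∃ t : ℕ → Bool, ∀ x z, Rd t z → Rd x z → Rd (Ji al fun i => dec (Yg F m (en x) (en z) i)) z := by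
  obtain ⟨t, ht⟩ := cont_red fun w =>
    Ji al fun i => dec (Yg F m (en fun n => w (2 * n)) (en fun n => w (2 * n + 1)) i)
  refine ⟨t, fun x z htz hxz => ?_⟩
  have hl : (fun n => jn x z (2 * n)) = x := funext fun n => by
    unfold jn
    rw [if_pos (by omega)]
    congr 1
    omega
  have hr : (fun n => jn x z (2 * n + 1)) = z := funext fun n => by
    unfold jn
    rw [if_neg (by omega)]
    congr 1
    omega
  have hcx : Continuous fun w : ℕ → Bool => (fun n => w (2 * n) : ℕ → Bool) :=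
    continuous_pi fun n => continuous_apply _
  have hcz : Continuous fun w : ℕ → Bool => (fun n => w (2 * n + 1) : ℕ → Bool) :=
    continuous_pi fun n => continuous_apply _
  have hd : Continuous fun a : ZMod 2 => decide (a = 1) := continuous_of_discreteTopology
  have hcont : ∀ c : ℕ, Continuous fun w : ℕ → Bool =>
      Ji al (fun i => dec (Yg F m (en fun n => w (2 * n)) (en fun n => w (2 * n + 1)) i)) c := by
    intro c
    show Continuous fun w : ℕ → Bool => if al c.unpair.1 = true then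
      decide ((if c.unpair.1 = m c.unpair.2 then (en fun n => w (2 * n + 1)) c.unpair.2.unpair.2 +
        sg F (en fun n => w (2 * n)) c.unpair.2 else (en fun n => w (2 * n)) (Nat.pair c.unpair.1 c.unpair.2)) = 1)
      else false
    have h1 : al c.unpair.1 = true := rfl
    simp only [h1, if_true]
    by_cases h : c.unpair.1 = m c.unpair.2
    · simp only [h, if_true]
      exact hd.comp (((continuous_apply _).comp (en_cont.comp hcz)).add ((sg_cont F _).comp (en_cont.comp hcx)))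
    · simp only [h, if_false]
      have h2 : Continuous fun w : ℕ → Bool => (en fun n => w (2 * n)) (Nat.pair c.unpair.1 c.unpair.2) :=
        (continuous_apply (Nat.pair c.unpair.1 c.unpair.2)).comp (en_cont.comp hcx)
      exact hd.comp h2
  have h1 := ht (jn x z) (htz.trans (jn_r x z)) fun c => by
    obtain ⟨N, hN⟩ := cy_nhds (jn x z) _ ((hcont c).continuousAt.preimage_mem_nhds
      ((isOpen_discrete {Ji al (fun i => dec (Yg F m (en fun n => jn x z (2 * n)) (en fun n => jn x z (2 * n + 1)) i)) c}).mem_nhds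
        rfl))
    exact ⟨N, fun x' hx' => hN x' hx'⟩
  simp only [hl, hr] at h1
  exact h1.trans (jn_rd hxz (Rd.refl z))

theorem ji_sub {S y : ℕ → Bool} (X : ℕ → ℕ → Bool) (hS : Rd S y) (hJ : Rd (Ji al X) y) : Rd (Ji S X) y := by
  have a0 : Cp y fun m => (S m.unpair.1).toNat := Cp.comp hS (Cp.of_prim p1)
  have a2 : Primrec fun q : ℕ => q.unpair.1 * q.unpair.2 := Primrec.nat_mul.comp p1 p2
  have a3 := (Cp.of_prim (x := y) a2).comp (a0.pair hJ)
  simp only [Nat.unpair_pair] at a3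
  unfold Rd
  have e : (fun m => (Ji S X m).toNat) = fun m => (S m.unpair.1).toNat * (Ji al X m).toNat := by
    funext m
    have h2 : Ji al X m = X m.unpair.1 m.unpair.2 := if_pos rfl
    rw [h2]
    by_cases h : S m.unpair.1 = true
    · have h1 : Ji S X m = X m.unpair.1 m.unpair.2 := if_pos h
      rw [h1, h]
      exact (one_mul _).symm
    · have h1 : Ji S X m = false := if_neg h
      rw [h1, Bool.eq_false_iff.2 h]
      exact (zero_mul _).symm
  rw [e]
  exact a3

/-! ### recovering `z` -/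

theorem sum_cp (w : ℕ → Bool) (a : ℕ) (T : Finset ℕ) : Cp w fun b => ∑ l ∈ T, (w (Nat.pair l (Nat.pair a b))).toNat := by
  induction T using Finset.induction_on with
  | empty =>
    simp only [Finset.sum_empty]
    exact Cp.of_prim (Primrec.const 0)
  | insert l T hl ih =>
    simp only [Finset.sum_insert hl]
    have a1 : Cp w fun b => (w (Nat.pair l (Nat.pair a b))).toNat :=
      (Cp.self w).comp (Cp.of_prim (Primrec₂.natPair.comp (Primrec.const l)
        (Primrec₂.natPair.comp (Primrec.const a) Primrec.id)))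
    have a2 := (Cp.of_prim (x := w) (Primrec.nat_add.comp p1 p2)).comp (a1.pair ih)
    simp only [Nat.unpair_pair] at a2
    exact a2

theorem sum_dec (w : ℕ → Bool) (T : Finset ℕ) (u : ℕ → ℕ) :
    (decide (∑ l ∈ T, en w (u l) = 1)).toNat = (∑ l ∈ T, (w (u l)).toNat) % 2 := by
  have h1 : ∑ l ∈ T, en w (u l) = (((∑ l ∈ T, (w (u l)).toNat) % 2 : ℕ) : ZMod 2) := by
    rw [ZMod.natCast_mod, Nat.cast_sum]
    refine Finset.sum_congr rfl fun l _ => ?_
    show (if w (u l) then (1 : ZMod 2) else 0) = _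
    cases w (u l) <;> simp
  rw [h1]
  exact tz2 _ (Nat.mod_lt _ Nat.zero_lt_two)

/-- a finite sum of columns of the join gives `z` -/
theorem rec_fin (F : ℕ → Finset ℕ) (m : ℕ → ℕ) (S : ℕ → Bool) (a : ℕ) (T : Finset ℕ) (hT : ∀ l ∈ T, S l = true)
    (hd : ∀ b, m (Nat.pair a b) ∈ T ∧ F (Nat.pair a b) = T.erase (m (Nat.pair a b))) (x z : ℕ → Bool) :
    Rd z (Ji S fun i => dec (Yg F m (en x) (en z) i)) := by
  set w := Ji S fun i => dec (Yg F m (en x) (en z) i) with hw
  have a1 := (Cp.of_prim (x := w) (Primrec.nat_mod.comp Primrec.id (Primrec.const 2))).comp (sum_cp w a T)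
  simp only [id] at a1
  unfold Rd
  have e : (fun b => (z b).toNat) = fun b => (∑ l ∈ T, (w (Nat.pair l (Nat.pair a b))).toNat) % 2 := by
    funext b
    rw [← sum_dec w T fun l => Nat.pair l (Nat.pair a b)]
    have h1 : ∀ l ∈ T, en w (Nat.pair l (Nat.pair a b)) = Yg F m (en x) (en z) l (Nat.pair a b) := by
      intro l hl
      have h2 : w (Nat.pair l (Nat.pair a b)) = dec (Yg F m (en x) (en z) l) (Nat.pair a b) := by
        show (if S (Nat.pair l (Nat.pair a b)).unpair.1 = true then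
          dec (Yg F m (en x) (en z) (Nat.pair l (Nat.pair a b)).unpair.1) (Nat.pair l (Nat.pair a b)).unpair.2
          else false) = _
        rw [Nat.unpair_pair]
        exact if_pos (hT l hl)
      show (if w (Nat.pair l (Nat.pair a b)) then (1 : ZMod 2) else 0) = _
      rw [h2]
      exact congrFun (en_dec (Yg F m (en x) (en z) l)) (Nat.pair a b)
    have h3 : ∑ l ∈ T, en w (Nat.pair l (Nat.pair a b)) = en z b := by
      rw [Finset.sum_congr rfl h1, ← Finset.add_sum_erase T _ (hd b).1, ← (hd b).2]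
      have h4 : ∑ l ∈ F (Nat.pair a b), Yg F m (en x) (en z) l (Nat.pair a b) = sg F (en x) (Nat.pair a b) :=
        Finset.sum_congr rfl fun l hl => if_neg fun h => by
          rw [(hd b).2, h] at hl
          exact (Finset.mem_erase.1 hl).1 rfl
      have h5 : Yg F m (en x) (en z) (m (Nat.pair a b)) (Nat.pair a b) = en z b + sg F (en x) (Nat.pair a b) := by
        show (if m (Nat.pair a b) = m (Nat.pair a b) then en z (Nat.pair a b).unpair.2 + sg F (en x) (Nat.pair a b) else _) = _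
        rw [if_pos rfl, Nat.unpair_pair]
      rw [h4, h5, add_assoc, CharTwo.add_self_eq_zero, add_zero]
    rw [h3]
    show (z b).toNat = (decide ((if z b then (1 : ZMod 2) else 0) = 1)).toNat
    cases z b
    · rfl
    · rfl
  rw [e]
  exact a1

/-- the sum of the first columns of the full join gives `z` -/
theorem rec_all (F : ℕ → Finset ℕ) (m : ℕ → ℕ) (a : ℕ)
    (hd : ∀ b, m (Nat.pair a b) = Nat.pair a b ∧ F (Nat.pair a b) = Finset.range (Nat.pair a b)) (x z : ℕ → Bool) :
    Rd z (Ji al fun i => dec (Yg F m (en x) (en z) i)) := by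
  set w := Ji al fun i => dec (Yg F m (en x) (en z) i) with hw
  have a0 : Cp w fun b => pr w (Nat.pair a b) (Nat.pair a b + 1) := by
    have a1 := (pr_cp w).comp (Cp.of_prim (Primrec₂.natPair.comp
      (Primrec₂.natPair.comp (Primrec.const a) (Primrec.id (α := ℕ)))
      (Primrec.succ.comp (Primrec₂.natPair.comp (Primrec.const a) Primrec.id))))
    simpa only [Nat.unpair_pair, id] using a1
  unfold Rd
  have e : (fun b => (z b).toNat) = fun b => pr w (Nat.pair a b) (Nat.pair a b + 1) := by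
    funext b
    rw [← dec_sum]
    have h1 : ∀ l, en w (Nat.pair l (Nat.pair a b)) = Yg F m (en x) (en z) l (Nat.pair a b) := by
      intro l
      have h2 : w (Nat.pair l (Nat.pair a b)) = dec (Yg F m (en x) (en z) l) (Nat.pair a b) := by
        show (if al (Nat.pair l (Nat.pair a b)).unpair.1 = true then
          dec (Yg F m (en x) (en z) (Nat.pair l (Nat.pair a b)).unpair.1) (Nat.pair l (Nat.pair a b)).unpair.2
          else false) = _
        rw [Nat.unpair_pair]
        exact if_pos rfl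
      show (if w (Nat.pair l (Nat.pair a b)) then (1 : ZMod 2) else 0) = _
      rw [h2]
      exact congrFun (en_dec (Yg F m (en x) (en z) l)) (Nat.pair a b)
    have h3 : ∑ l ∈ Finset.range (Nat.pair a b + 1), en w (Nat.pair l (Nat.pair a b)) = en z b := by
      rw [Finset.sum_range_succ, h1, Finset.sum_congr rfl fun l _ => h1 l]
      have h4 : ∑ l ∈ Finset.range (Nat.pair a b), Yg F m (en x) (en z) l (Nat.pair a b) = sg F (en x) (Nat.pair a b) := by
        unfold sg
        rw [(hd b).2]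
        exact Finset.sum_congr rfl fun l hl => if_neg fun h => by
          rw [(hd b).1] at h
          exact (ne_of_lt (Finset.mem_range.1 hl)) h
      have h5 : Yg F m (en x) (en z) (Nat.pair a b) (Nat.pair a b) = en z b + sg F (en x) (Nat.pair a b) := by
        show (if Nat.pair a b = m (Nat.pair a b) then en z (Nat.pair a b).unpair.2 + sg F (en x) (Nat.pair a b) else _) = _
        rw [if_pos (hd b).1.symm, Nat.unpair_pair]
      rw [h4, h5, add_comm (en z b), ← add_assoc, CharTwo.add_self_eq_zero, zero_add]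
    rw [h3]
    show (z b).toNat = (decide ((if z b then (1 : ZMod 2) else 0) = 1)).toNat
    cases z b
    · rfl
    · rfl
  rw [e]
  exact a0

/-! ### the theorem -/

open Classical in
/-- the column of the corrected cell of row `r` -/
noncomputable def mQ (Q : ℕ → Finset ℕ) (r : ℕ) : ℕ := if h : (Q r.unpair.1).Nonempty then (Q r.unpair.1).max' h else r

open Classical in
/-- the columns of the masks of row `r` -/
noncomputable def fQ (Q : ℕ → Finset ℕ) (r : ℕ) : Finset ℕ :=
  if (Q r.unpair.1).Nonempty then (Q r.unpair.1).erase (mQ Q r) else Finset.range r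

theorem q_pos (Q : ℕ → Finset ℕ) (a b : ℕ) (h : (Q a).Nonempty) :
    mQ Q (Nat.pair a b) ∈ Q a ∧ fQ Q (Nat.pair a b) = (Q a).erase (mQ Q (Nat.pair a b)) := by
  have h' : (Q (Nat.pair a b).unpair.1).Nonempty := by rw [Nat.unpair_pair]; exact h
  have e1 : mQ Q (Nat.pair a b) = (Q (Nat.pair a b).unpair.1).max' h' := dif_pos h'
  have e2 : fQ Q (Nat.pair a b) = (Q (Nat.pair a b).unpair.1).erase (mQ Q (Nat.pair a b)) := if_pos h'
  have e3 : (Nat.pair a b).unpair.1 = a := by rw [Nat.unpair_pair]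
  refine ⟨?_, ?_⟩
  · have h1 := Finset.max'_mem (Q (Nat.pair a b).unpair.1) h'
    rw [← e1] at h1
    rw [e3] at h1
    exact h1
  · rw [e3] at e2
    exact e2

theorem q_neg (Q : ℕ → Finset ℕ) (a b : ℕ) (h : ¬ (Q a).Nonempty) :
    mQ Q (Nat.pair a b) = Nat.pair a b ∧ fQ Q (Nat.pair a b) = Finset.range (Nat.pair a b) := by
  have h' : ¬ (Q (Nat.pair a b).unpair.1).Nonempty := by rw [Nat.unpair_pair]; exact h
  exact ⟨dif_neg h', if_neg h'⟩

/-- no nonempty set of the list is contained in `S` -/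
def Unq (Q : ℕ → Finset ℕ) (S : ℕ → Bool) : Prop := ∀ a, (Q a).Nonempty → ∃ i ∈ Q a, S i = false

theorem q_safe (Q : ℕ → Finset ℕ) (S : ℕ → Bool) (j : ℕ) (hj : S j = false) (hS : Unq Q S) :
    ∃ R, ∀ r ≥ R, S (mQ Q r) = true → ∃ l ∈ fQ Q r, S l = false := by
  refine ⟨j + 1, fun r hr hm => ?_⟩
  obtain ⟨a, b, rfl⟩ : ∃ a b, r = Nat.pair a b := ⟨_, _, (Nat.pair_unpair r).symm⟩
  by_cases h : (Q a).Nonempty
  · obtain ⟨i, hi, hi2⟩ := hS a h
    refine ⟨i, ?_, hi2⟩
    rw [(q_pos Q a b h).2]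
    refine Finset.mem_erase.2 ⟨fun h2 => ?_, hi⟩
    rw [← h2, hi2] at hm
    exact Bool.false_ne_true hm
  · refine ⟨j, ?_, hj⟩
    rw [(q_neg Q a b h).2]
    exact Finset.mem_range.2 hr

/-- the family, above `z0` -/
noncomputable def Fam (Q : ℕ → Finset ℕ) (z0 x z : ℕ → Bool) (i : ℕ) : ℕ → Bool :=
  jn z0 (dec (Yg (fQ Q) (mQ Q) (en x) (en z) i))

/-- `S` is qualified: it is everything or contains a nonempty set of the list -/
def Qf (Q : ℕ → Finset ℕ) (S : ℕ → Bool) : Prop :=
  (∀ i, S i = true) ∨ ∃ a, (Q a).Nonempty ∧ ∀ i ∈ Q a, S i = true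

theorem fam_qual (Q : ℕ → Finset ℕ) (z0 : ℕ → Bool) : ∃ t : ℕ → Bool, ∀ x z, Rd t z → Rd z0 z → Rd x z →
    ∀ S, Rd S z0 → Qf Q S → Rd (Ji S (Fam Q z0 x z)) z ∧ Rd z (Ji S (Fam Q z0 x z)) := by
  obtain ⟨t, ht⟩ := fam_le (fQ Q) (mQ Q)
  refine ⟨t, fun x z htz hz0 hxz S hS hq => ⟨?_, ?_⟩⟩
  · exact ji_le _ (hS.trans hz0) hz0 (ji_sub _ (hS.trans hz0) (ht x z htz hxz))
  · refine Rd.trans ?_ (ji_X S z0 fun i => dec (Yg (fQ Q) (mQ Q) (en x) (en z) i))
    by_cases hn : ∃ a, (Q a).Nonempty ∧ ∀ i ∈ Q a, S i = true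
    · obtain ⟨a, ha, haS⟩ := hn
      exact rec_fin (fQ Q) (mQ Q) S a (Q a) haS (fun b => q_pos Q a b ha) x z
    · rcases hq with hq | hq
      · have e : S = al := funext hq
        rw [e]
        by_cases h0 : (Q 0).Nonempty
        · exact absurd ⟨0, h0, fun i _ => hq i⟩ hn
        · exact rec_all (fQ Q) (mQ Q) 0 (fun b => q_neg Q 0 b h0) x z
      · exact absurd hq hn

theorem main_acs (f : (ℕ → Bool) → ℕ → Bool) (hf : Measurable f) (z0 : ℕ → Bool)
    (hom : ∀ x y, Rd z0 x → Rd x y → Rd y x → Ev (f x) (f y)) :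
    ∃ c : ℕ → Bool, ∀ Q : ℕ → Finset ℕ, ∃ k : ℕ → Bool, Rd z0 k ∧ ∀ z, Rd k z → ∃ X : ℕ → ℕ → Bool, (∀ i, Rd z0 (X i)) ∧
      (∀ S : ℕ → Bool, Rd S z0 → (∃ i, S i = true) → ¬ Qf Q S → Ev (f (Ji S X)) c) ∧
      (∀ S : ℕ → Bool, Rd S z0 → Qf Q S → Rd (Ji S X) z ∧ Rd z (Ji S X)) := by
  have hj : Measurable fun w : ℕ → Bool => jn z0 w := by
    refine measurable_pi_lambda _ fun n => ?_
    unfold jn
    by_cases h : n % 2 = 0
    · simp only [h, if_true]
      exact measurable_const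
    · simp only [h, if_false]
      exact measurable_pi_apply _
  have hmon : ∀ x y, Rd x y → Rd (jn z0 x) (jn z0 y) := fun x y h => jn_rd (jn_l z0 y) (h.trans (jn_r z0 y))
  obtain ⟨c, hc⟩ := main_inf (fun w => f (jn z0 w)) (hf.comp hj)
    (fun x y h1 h2 => hom _ _ (jn_l z0 x) (hmon x y h1) (hmon y x h2))
  refine ⟨c, fun Q => ?_⟩
  obtain ⟨t1, ht1⟩ := fam_qual Q z0
  have h1 : {S : ℕ → Bool | Rd S z0 ∧ (∃ i, S i = true) ∧ ¬ Qf Q S}.Countable :=
    (rd_countable z0).mono fun S hS => hS.1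
  by_cases h2 : {S : ℕ → Bool | Rd S z0 ∧ (∃ i, S i = true) ∧ ¬ Qf Q S}.Nonempty
  swap
  · refine ⟨jn t1 z0, jn_r _ _, fun z hz => ⟨Fam Q z0 z z, fun i => jn_l z0 _, fun S hS1 hS2 hS3 => ?_, ?_⟩⟩
    · exact absurd ⟨S, hS1, hS2, hS3⟩ h2
    · exact ht1 z z ((jn_l t1 z0).trans hz) ((jn_r t1 z0).trans hz) (Rd.refl z)
  obtain ⟨S, hS⟩ := h1.exists_eq_range h2
  have hS' : ∀ a, Rd (S a) z0 ∧ (∃ i, S a i = true) ∧ ¬ Qf Q (S a) := fun a => by
    have h3 : S a ∈ {S : ℕ → Bool | Rd S z0 ∧ (∃ i, S i = true) ∧ ¬ Qf Q S} := by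
      rw [hS]
      exact ⟨a, rfl⟩
    exact h3
  have hS1 : ∀ a, Rd (S a) z0 := fun a => (hS' a).1
  choose i hi using fun a => (hS' a).2.1
  have hfalse : ∀ a, ∃ j, S a j = false := fun a => by
    by_contra hcon
    push Not at hcon
    exact (hS' a).2.2 (Or.inl fun i => Bool.eq_true_of_not_eq_false (hcon i))
  choose j hj' using hfalse
  have hU : ∀ a, Unq Q (S a) := fun a b hb => by
    by_contra hcon
    push Not at hcon
    exact (hS' a).2.2 (Or.inr ⟨b, hb, fun i hi => Bool.eq_true_of_not_eq_false (hcon i hi)⟩)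
  obtain ⟨t, ht⟩ := hc (fun a => Lg (fQ Q) (mQ Q) (S a)) (fun a => Mg (fQ Q) (mQ Q) (S a))
    (fun a => Lg_mp _ _ (S a) (i a) (hi a)) (fun a => Lg_cont _ _ _) (fun a => Mg_cont _ _ _)
  refine ⟨jn (jn t t1) z0, jn_r _ _, fun z hz => ?_⟩
  have hz0 : Rd z0 z := (jn_r _ z0).trans hz
  obtain ⟨x, hxz, hx⟩ := ht z (((jn_l t t1).trans (jn_l _ z0)).trans hz)
  refine ⟨Fam Q z0 x z, fun i => jn_l z0 _, fun T hT1 hT2 hT3 => ?_,
    ht1 x z (((jn_r t t1).trans (jn_l _ z0)).trans hz) hz0 hxz⟩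
  have h3 : T ∈ {S : ℕ → Bool | Rd S z0 ∧ (∃ i, S i = true) ∧ ¬ Qf Q S} := ⟨hT1, hT2, hT3⟩
  rw [hS] at h3
  obtain ⟨a, rfl⟩ := h3
  have h4 := hx a
  have h5 := comp_evg (fQ Q) (mQ Q) (S a) (i a) (hi a) (q_safe Q (S a) (j a) (hj' a) (hU a)) (en x) (en z)
  set X0 : ℕ → ℕ → Bool := fun i => dec (Yg (fQ Q) (mQ Q) (en x) (en z) i) with hX0
  have h6 := le_cmp X0 ((hS1 a).trans (jn_l z0 (dec (Lg (fQ Q) (mQ Q) (S a) (en x) + Mg (fQ Q) (mQ Q) (S a) (en z)))))
    ((ev_rd h5.symm).trans (jn_r _ _))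
  have h7 := ji_le X0 ((hS1 a).trans (jn_l z0 (dec (Lg (fQ Q) (mQ Q) (S a) (en x) + Mg (fQ Q) (mQ Q) (S a) (en z)))))
    (jn_l _ _) h6
  have h8 := ji_z0 (hi a) z0 X0
  have h9 := jn_rd h8 ((ev_rd h5).trans (cmp_le (hi a) ((hS1 a).trans h8) (ji_X (S a) z0 X0)))
  exact (hom _ _ h8 h7 h9).trans h4

end Pool.Agent.Lib.MP_1a0a6e_lc
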