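import Pool.Agent.Lib.MP_1a0a6e_lc.Main

/-!
# MP_1a0a6e_lc: pointwise limits of continuous maps which are generically constant above one base
-/

set_option autoImplicit false

open Topology

namespace Pool.Agent.Lib.MP_1a0a6e_lc

theorem Cy.symm {k : ℕ} {y w : ℕ → Bool} (h : Cy k y w) : Cy k w y := fun i hi => (h i hi).symm

theorem Cy.trans {k : ℕ} {y w v : ℕ → Bool} (h : Cy k y w) (h' : Cy k w v) : Cy k y v := fun i hi =>
  (h' i hi).trans (h i hi)

theorem Cy.mono {k l : ℕ} {y w : ℕ → Bool} (hkl : k ≤ l) (h : Cy l y w) : Cy k y w := fun i hi =>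
  h i (lt_of_lt_of_le hi hkl)

open Classical in
/-- the least witness -/
noncomputable def fd (P : ℕ → Prop) : ℕ := if h : ∃ e, P e then Nat.find h else 0

theorem fd_spec {P : ℕ → Prop} (h : ∃ e, P e) : P (fd P) := by
  classical
  have e0 : fd P = Nat.find h := by unfold fd; rw [dif_pos h]
  rw [e0]
  exact Nat.find_spec h

theorem fd_congr {P Q : ℕ → Prop} (h : ∃ e, P e) (hPQ : ∀ e ≤ fd P, (P e ↔ Q e)) : fd Q = fd P := by
  classical
  have e0 : fd P = Nat.find h := by unfold fd; rw [dif_pos h]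
  have h' : ∃ e, Q e := ⟨fd P, (hPQ _ le_rfl).1 (fd_spec h)⟩
  have e1 : fd Q = Nat.find h' := by unfold fd; rw [dif_pos h']
  rw [e1, Nat.find_eq_iff]
  refine ⟨(hPQ _ le_rfl).1 (fd_spec h), fun e he he' => ?_⟩
  rw [e0] at he
  exact Nat.find_min h he ((hPQ e (by rw [e0]; exact he.le)).2 he')

/-- the test of the search at stage `i`: `e` codes `t`, `k'`, `c'`, `K` -/
def Pt (F : ℕ → (ℕ → Bool) → ℕ → Bool) (N : ℕ) (w : ℕ → Bool) (i : ℕ) (a : ℕ → Bool) (k : ℕ) (g : ℕ → Bool) (e : ℕ) :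
    Prop :=
  i ≤ e.unpair.1.unpair.1 ∧ k ≤ e.unpair.1.unpair.2 ∧ Cy k g (tb e.unpair.2.unpair.1) ∧
    (N ≤ i.unpair.1 → 2 * i.unpair.1 < i → ∀ x' y', Cy e.unpair.2.unpair.2 w x' →
      Cy e.unpair.1.unpair.2 (tb e.unpair.2.unpair.1) y' →
        F e.unpair.1.unpair.1 (jn x' y') i.unpair.1 = a (2 * i.unpair.1))

theorem pt_congr {F : ℕ → (ℕ → Bool) → ℕ → Bool} {N : ℕ} {w w' a a' g g' : ℕ → Bool} {i k e : ℕ}
    (hw : Cy e.unpair.2.unpair.2 w w') (ha : Cy i a a') (hg : Cy k g g') :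
    Pt F N w i a k g e → Pt F N w' i a' k g' e := by
  rintro ⟨h1, h2, h3, h4⟩
  refine ⟨h1, h2, hg.symm.trans h3, fun h5 h6 x' y' hx hy => ?_⟩
  rw [ha _ h6]
  exact h4 h5 h6 x' y' (hw.trans hx) hy

theorem pt_iff {F : ℕ → (ℕ → Bool) → ℕ → Bool} {N : ℕ} {w w' a a' g g' : ℕ → Bool} {i k e : ℕ}
    (hw : Cy e.unpair.2.unpair.2 w w') (ha : Cy i a a') (hg : Cy k g g') :
    Pt F N w i a k g e ↔ Pt F N w' i a' k g' e :=
  ⟨pt_congr hw ha hg, pt_congr hw.symm ha.symm hg.symm⟩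

/-- the string of length `K + 1` with the first `K` bits of `c` and then `b` -/
def app (K c : ℕ) (b : Bool) : ℕ := Nat.ofBits fun j : Fin (K + 1) => if (j : ℕ) < K then c.testBit j else b

theorem app_lt {K c : ℕ} {b : Bool} {j : ℕ} (h : j < K) : tb (app K c b) j = tb c j := by
  unfold tb app
  rw [Nat.testBit_ofBits_lt _ _ (Nat.lt_succ_of_lt h)]
  exact if_pos h

theorem app_eq {K c : ℕ} {b : Bool} : tb (app K c b) K = b := by
  unfold tb app
  rw [Nat.testBit_ofBits_lt _ _ (Nat.lt_succ_self K)]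
  exact if_neg (lt_irrefl K)

/-- the witness at a stage of the coding -/
noncomputable def we (F : ℕ → (ℕ → Bool) → ℕ → Bool) (N : ℕ) (w a : ℕ → Bool) (i : ℕ) (s : ℕ × ℕ) : ℕ :=
  fd (Pt F N w i a s.1 (tb s.2))

/-- the coding -/
noncomputable def En (F : ℕ → (ℕ → Bool) → ℕ → Bool) (N k0 c0 : ℕ) (w a : ℕ → Bool) : ℕ → ℕ × ℕ
  | 0 => (k0, c0)
  | i + 1 => ((we F N w a i (En F N k0 c0 w a i)).unpair.1.unpair.2 + 1,
      app (we F N w a i (En F N k0 c0 w a i)).unpair.1.unpair.2 (we F N w a i (En F N k0 c0 w a i)).unpair.2.unpair.1 (a i))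

/-- the witness at a stage of the decoding -/
noncomputable def wd (F : ℕ → (ℕ → Bool) → ℕ → Bool) (N : ℕ) (w G : ℕ → Bool) (i : ℕ) (s : ℕ × (ℕ → Bool)) : ℕ :=
  fd (Pt F N w i s.2 s.1 G)

/-- the decoding -/
noncomputable def Dc (F : ℕ → (ℕ → Bool) → ℕ → Bool) (N k0 : ℕ) (w G : ℕ → Bool) : ℕ → ℕ × (ℕ → Bool)
  | 0 => (k0, fun _ => false)
  | i + 1 => ((wd F N w G i (Dc F N k0 w G i)).unpair.1.unpair.2 + 1,
      fun j => if j = i then G (wd F N w G i (Dc F N k0 w G i)).unpair.1.unpair.2 else (Dc F N k0 w G i).2 j)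

theorem sum_bd (u : ℕ → ℕ) (m : ℕ) : ∃ B, ∀ e ≤ m, u e ≤ B :=
  ⟨∑ e ∈ Finset.range (m + 1), u e, fun e he =>
    Finset.single_le_sum (f := u) (fun _ _ => Nat.zero_le _) (Finset.mem_range.2 (Nat.lt_succ_of_le he))⟩

theorem bc_core (F : ℕ → (ℕ → Bool) → ℕ → Bool) (N k0 c0 : ℕ) :
    ∃ t : ℕ → Bool, ∀ w a : ℕ → Bool,
      (∀ i k g, k0 ≤ k → Cy k0 (tb c0) g → ∃ e, Pt F N w i a k g e) →
      Rd t w → ∃ G : ℕ → Bool, Rd G (jn w a) ∧ Rd a (jn w G) ∧
        ∀ i, N ≤ i.unpair.1 → 2 * i.unpair.1 < i → ∃ s ≥ i, F s (jn w G) i.unpair.1 = a (2 * i.unpair.1) := by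
  obtain ⟨t1, ht1⟩ := cont_red fun x n => tb (En F N k0 c0 (fun m => x (2 * m)) (fun m => x (2 * m + 1)) (n + 1)).2 n
  obtain ⟨t2, ht2⟩ := cont_red fun x n => (Dc F N k0 (fun m => x (2 * m)) (fun m => x (2 * m + 1)) (n + 1)).2 n
  refine ⟨jn t1 t2, fun w a hex hw => ?_⟩
  have hl : ∀ x y : ℕ → Bool, (fun m => jn x y (2 * m)) = x := fun x y => funext fun m => by
    unfold jn
    rw [if_pos (by omega)]
    congr 1
    omega
  have hr : ∀ x y : ℕ → Bool, (fun m => jn x y (2 * m + 1)) = y := fun x y => funext fun m => by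
    unfold jn
    rw [if_neg (by omega)]
    congr 1
    omega
  set s : ℕ → ℕ × ℕ := fun i => En F N k0 c0 w a i with hs
  set e : ℕ → ℕ := fun i => we F N w a i (s i) with he
  have hs1 : ∀ i, (s (i + 1)).1 = (e i).unpair.1.unpair.2 + 1 := fun i => rfl
  have hs2 : ∀ i, (s (i + 1)).2 = app (e i).unpair.1.unpair.2 (e i).unpair.2.unpair.1 (a i) := fun i => rfl
  have hinv : ∀ i, k0 ≤ (s i).1 ∧ Cy k0 (tb c0) (tb (s i).2) := by
    intro i
    induction i with
    | zero => exact ⟨le_rfl, Cy.refl _ _⟩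
    | succ i ih =>
      have h1 : Pt F N w i a (s i).1 (tb (s i).2) (e i) := fd_spec (hex i _ _ ih.1 ih.2)
      rw [hs1, hs2]
      refine ⟨ih.1.trans (h1.2.1.trans (Nat.le_succ _)), fun j hj => ?_⟩
      rw [app_lt (lt_of_lt_of_le hj (ih.1.trans h1.2.1)), h1.2.2.1 j (lt_of_lt_of_le hj ih.1), ih.2 j hj]
  have hP : ∀ i, Pt F N w i a (s i).1 (tb (s i).2) (e i) := fun i => fd_spec (hex i _ _ (hinv i).1 (hinv i).2)
  have hmono : ∀ i, (s i).1 < (s (i + 1)).1 ∧ Cy (s i).1 (tb (s i).2) (tb (s (i + 1)).2) := by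
    intro i
    rw [hs1, hs2]
    refine ⟨Nat.lt_succ_of_le (hP i).2.1, fun j hj => ?_⟩
    rw [app_lt (lt_of_lt_of_le hj (hP i).2.1), (hP i).2.2.1 j hj]
  have hge : ∀ i, i ≤ (s i).1 := by
    intro i
    induction i with
    | zero => exact Nat.zero_le _
    | succ i ih => exact lt_of_le_of_lt ih (hmono i).1
  have hmono2 : ∀ i j, i ≤ j → (s i).1 ≤ (s j).1 ∧ Cy (s i).1 (tb (s i).2) (tb (s j).2) := by
    intro i j hij
    induction j, hij using Nat.le_induction with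
    | base => exact ⟨le_rfl, Cy.refl _ _⟩
    | succ j _ ih =>
      refine ⟨ih.1.trans (hmono j).1.le, fun l hl => ?_⟩
      rw [(hmono j).2 l (lt_of_lt_of_le hl ih.1), ih.2 l hl]
  set G : ℕ → Bool := fun n => tb (s (n + 1)).2 n with hG
  have hGcy : ∀ i, Cy (s i).1 (tb (s i).2) G := by
    intro i l hl
    show tb (s (l + 1)).2 l = tb (s i).2 l
    rcases le_total i (l + 1) with h | h
    · exact (hmono2 i (l + 1) h).2 l hl
    · exact ((hmono2 (l + 1) i h).2 l (hge (l + 1))).symm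
  have hGe : ∀ i, Cy (e i).unpair.1.unpair.2 (tb (e i).unpair.2.unpair.1) G := by
    intro i j hj
    have h1 := hGcy (i + 1) j (by rw [hs1]; exact Nat.lt_succ_of_lt hj)
    rw [h1, hs2, app_lt hj]
  have hGa : ∀ i, G (e i).unpair.1.unpair.2 = a i := by
    intro i
    have h1 := hGcy (i + 1) (e i).unpair.1.unpair.2 (by rw [hs1]; exact Nat.lt_succ_self _)
    rw [h1, hs2, app_eq]
  -- the coding is continuous
  have hloc : ∀ i, ∃ M, ∀ w' a', Cy M w w' → Cy M a a' → En F N k0 c0 w' a' i = s i := by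
    intro i
    induction i with
    | zero => exact ⟨0, fun _ _ _ _ => rfl⟩
    | succ i ih =>
      obtain ⟨M, hM⟩ := ih
      obtain ⟨B, hB⟩ := sum_bd (fun e => e.unpair.2.unpair.2) (e i)
      refine ⟨max (max M B) (i + 1), fun w' a' hw' ha' => ?_⟩
      have h1 := hM w' a' (hw'.mono (le_trans (le_max_left _ _) (le_max_left _ _)))
        (ha'.mono (le_trans (le_max_left _ _) (le_max_left _ _)))
      have h2 : we F N w' a' i (s i) = e i := fd_congr (hex i _ _ (hinv i).1 (hinv i).2) fun e' he' =>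
        pt_iff (hw'.mono (le_trans (hB e' he') (le_trans (le_max_right _ _) (le_max_left _ _))))
          (ha'.mono (le_trans (Nat.le_succ i) (le_max_right _ _))) (Cy.refl _ _)
      show ((we F N w' a' i (En F N k0 c0 w' a' i)).unpair.1.unpair.2 + 1,
        app (we F N w' a' i (En F N k0 c0 w' a' i)).unpair.1.unpair.2
          (we F N w' a' i (En F N k0 c0 w' a' i)).unpair.2.unpair.1 (a' i)) = _
      rw [h1, h2, ha' i (lt_of_lt_of_le (Nat.lt_succ_self i) (le_max_right _ _))]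
      rfl
  -- the decoding gives back `a`
  have hdec : ∀ i, (Dc F N k0 w G i).1 = (s i).1 ∧ Cy i a (Dc F N k0 w G i).2 := by
    intro i
    induction i with
    | zero => exact ⟨rfl, fun j hj => absurd hj (by omega)⟩
    | succ i ih =>
      have h2 : wd F N w G i (Dc F N k0 w G i) = e i := by
        unfold wd
        rw [ih.1]
        exact fd_congr (hex i _ _ (hinv i).1 (hinv i).2) fun e' _ => pt_iff (Cy.refl _ _) ih.2 (hGcy i)
      refine ⟨?_, fun j hj => ?_⟩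
      · show (wd F N w G i (Dc F N k0 w G i)).unpair.1.unpair.2 + 1 = _
        rw [h2]
        rfl
      · show (if j = i then G (wd F N w G i (Dc F N k0 w G i)).unpair.1.unpair.2 else (Dc F N k0 w G i).2 j) = a j
        rw [h2]
        by_cases hji : j = i
        · rw [if_pos hji, hGa, hji]
        · rw [if_neg hji]
          exact ih.2 j (by omega)
  have hexd : ∀ i, ∃ e', Pt F N w i (Dc F N k0 w G i).2 (Dc F N k0 w G i).1 G e' := fun i => by
    rw [(hdec i).1]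
    exact ⟨e i, pt_congr (Cy.refl _ _) (hdec i).2 (hGcy i) (hP i)⟩
  have hlocd : ∀ i, ∃ M, ∀ w' G', Cy M w w' → Cy M G G' → Dc F N k0 w' G' i = Dc F N k0 w G i := by
    intro i
    induction i with
    | zero => exact ⟨0, fun _ _ _ _ => rfl⟩
    | succ i ih =>
      obtain ⟨M, hM⟩ := ih
      obtain ⟨B, hB⟩ := sum_bd (fun e => e.unpair.2.unpair.2) (wd F N w G i (Dc F N k0 w G i))
      refine ⟨max (max M B) (max (Dc F N k0 w G i).1 ((wd F N w G i (Dc F N k0 w G i)).unpair.1.unpair.2 + 1)),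
        fun w' G' hw' hG' => ?_⟩
      have h1 := hM w' G' (hw'.mono (le_trans (le_max_left _ _) (le_max_left _ _)))
        (hG'.mono (le_trans (le_max_left _ _) (le_max_left _ _)))
      have h2 : wd F N w' G' i (Dc F N k0 w G i) = wd F N w G i (Dc F N k0 w G i) := fd_congr (hexd i) fun e' he' =>
        pt_iff (hw'.mono (le_trans (hB e' he') (le_trans (le_max_right _ _) (le_max_left _ _))))
          (Cy.refl _ _) (hG'.mono (le_trans (le_max_left _ _) (le_max_right _ _)))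
      show ((wd F N w' G' i (Dc F N k0 w' G' i)).unpair.1.unpair.2 + 1,
        fun j => if j = i then G' (wd F N w' G' i (Dc F N k0 w' G' i)).unpair.1.unpair.2 else (Dc F N k0 w' G' i).2 j) = _
      rw [h1, h2, hG' _ (lt_of_lt_of_le (Nat.lt_succ_self _) (le_trans (le_max_right _ _) (le_max_right _ _)))]
      rfl
  refine ⟨G, ?_, ?_, fun i hi1 hi2 => ⟨_, (hP i).1, (hP i).2.2.2 hi1 hi2 w G (Cy.refl _ _) (hGe i)⟩⟩
  · have h := ht1 (jn w a) (((jn_l t1 t2).trans hw).trans (jn_l w a)) fun n => by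
      obtain ⟨M, hM⟩ := hloc (n + 1)
      refine ⟨2 * M + 1, fun x' hx' => ?_⟩
      simp only [hl, hr]
      rw [hM (fun m => x' (2 * m)) (fun m => x' (2 * m + 1)) (fun j hj => ?_) (fun j hj => ?_)]
      · show x' (2 * j) = w j
        rw [hx' _ (by omega)]
        exact congrFun (hl w a) j
      · show x' (2 * j + 1) = a j
        rw [hx' _ (by omega)]
        exact congrFun (hr w a) j
    simp only [hl, hr] at h
    exact h
  · have h := ht2 (jn w G) (((jn_r t1 t2).trans hw).trans (jn_l w G)) fun n => by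
      obtain ⟨M, hM⟩ := hlocd (n + 1)
      refine ⟨2 * M + 1, fun x' hx' => ?_⟩
      simp only [hl, hr]
      rw [hM (fun m => x' (2 * m)) (fun m => x' (2 * m + 1)) (fun j hj => ?_) (fun j hj => ?_)]
      · show x' (2 * j) = w j
        rw [hx' _ (by omega)]
        exact congrFun (hl w G) j
      · show x' (2 * j + 1) = G j
        rw [hx' _ (by omega)]
        exact congrFun (hr w G) j
    simp only [hl, hr] at h
    have h3 : (fun n => (Dc F N k0 w G (n + 1)).2 n) = a := funext fun n => (hdec (n + 1)).2 n (Nat.lt_succ_self n)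
    rw [h3] at h
    exact h

theorem cy_open (k : ℕ) (g : ℕ → Bool) : IsOpen {x : ℕ → Bool | Cy k g x} := by
  have e : {x : ℕ → Bool | Cy k g x} = ⋂ i ∈ Finset.range k, (fun x : ℕ → Bool => x i) ⁻¹' {g i} := by
    ext x
    simp only [Set.mem_ofPred_eq, Set.mem_iInter, Finset.mem_range, Set.mem_preimage, Set.mem_singleton_iff]
    exact Iff.rfl
  rw [e]
  exact isOpen_biInter_finset fun i _ => (isOpen_discrete _).preimage (continuous_apply i)

theorem bc_main (F : ℕ → (ℕ → Bool) → ℕ → Bool) (hF : ∀ s n, Continuous fun x => F s x n)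
    (f : (ℕ → Bool) → ℕ → Bool) (z0 : ℕ → Bool) (hlim : ∀ x, Rd z0 x → ∀ n, ∃ s0, ∀ s ≥ s0, F s x n = f x n)
    (hf : Hm z0 f) :
    ∃ k : ℕ → Bool, ∀ w c : ℕ → Bool, Rd k w →
      ¬ IsMeagre {g : ℕ → Bool | ∃ N, ∀ n ≥ N, f (jn w g) n = c n} →
      ∀ y, Rd w y → Rd c y → ∃ N, ∀ n ≥ N, f y n = c n := by
  choose t ht using fun p : ℕ => bc_core F p.unpair.1 p.unpair.2.unpair.1 p.unpair.2.unpair.2
  refine ⟨jn (fun m => t m.unpair.1 m.unpair.2) z0, fun w c hkw hm y hwy hcy => ?_⟩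
  have hz0 : Rd z0 w := (jn_r _ _).trans hkw
  have htw : ∀ p, Rd (t p) w := fun p => by
    refine Rd.trans ?_ ((jn_l (fun m => t m.unpair.1 m.unpair.2) z0).trans hkw)
    exact Rd.of_comp (fun n => Nat.pair p n) (Primrec₂.natPair.comp (Primrec.const p) Primrec.id) fun n => by
      simp only [Nat.unpair_pair]
  -- one of the sets is somewhere dense
  obtain ⟨N, hN⟩ : ∃ N, ¬ IsNowhereDense {g : ℕ → Bool | ∀ n ≥ N, f (jn w g) n = c n} := by
    by_contra hcon
    push Not at hcon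
    refine hm ?_
    have e : {g : ℕ → Bool | ∃ N, ∀ n ≥ N, f (jn w g) n = c n} =
        ⋃ N, {g : ℕ → Bool | ∀ n ≥ N, f (jn w g) n = c n} := by
      ext g
      simp only [Set.mem_ofPred_eq, Set.mem_iUnion]
    rw [e]
    exact isMeagre_iUnion fun N => (hcon N).isMeagre
  set A : Set (ℕ → Bool) := {g : ℕ → Bool | ∀ n ≥ N, f (jn w g) n = c n} with hA
  have h1 : (interior (closure A)).Nonempty := by
    rw [Set.nonempty_iff_ne_empty]
    exact hN
  obtain ⟨g0, hg0⟩ := h1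
  obtain ⟨k0, hk0⟩ := cy_nhds g0 _ (isOpen_interior.mem_nhds hg0)
  obtain ⟨c0, hc0⟩ := exists_tb k0 g0
  have hd : ∀ k g, Cy k0 (tb c0) g → ∃ G ∈ A, Cy k g G := by
    intro k g hg
    have h2 : g ∈ closure A := interior_subset (hk0 g (hc0.symm.trans hg))
    obtain ⟨G, hG1, hG2⟩ := mem_closure_iff.1 h2 _ (cy_open k g) (Cy.refl k g)
    exact ⟨G, hG2, hG1⟩
  have hex : ∀ i k g, k0 ≤ k → Cy k0 (tb c0) g → ∃ e, Pt F N w i (jn c y) k g e := by
    intro i k g _ hg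
    by_cases hNi : N ≤ i.unpair.1
    · obtain ⟨G, hGA, hG⟩ := hd k g hg
      obtain ⟨s0, hs0⟩ := hlim (jn w G) (hz0.trans (jn_l w G)) i.unpair.1
      have h3 : F (max i s0) (jn w G) i.unpair.1 = c i.unpair.1 := (hs0 _ (le_max_right _ _)).trans (hGA _ hNi)
      have h4 : {x | F (max i s0) x i.unpair.1 = c i.unpair.1} ∈ 𝓝 (jn w G) := by
        refine IsOpen.mem_nhds ?_ h3
        exact (isOpen_discrete {c i.unpair.1}).preimage (hF (max i s0) i.unpair.1)
      obtain ⟨K, hK⟩ := cy_nhds _ _ h4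
      obtain ⟨c', hc'⟩ := exists_tb (max K k) G
      refine ⟨Nat.pair (Nat.pair (max i s0) (max K k)) (Nat.pair c' K), ?_⟩
      unfold Pt
      simp only [Nat.unpair_pair]
      refine ⟨le_max_left _ _, le_max_right _ _, hG.trans (hc'.symm.mono (le_max_right _ _)), fun _ _ x' y' hx hy => ?_⟩
      have h5 := hK _ (cy_jn hx ((hc'.symm.trans hy).mono (le_max_left _ _)))
      have h6 : jn c y (2 * i.unpair.1) = c i.unpair.1 := by
        unfold jn
        rw [if_pos (by omega)]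
        congr 1
        omega
      rw [h6]
      exact h5
    · obtain ⟨c', hc'⟩ := exists_tb k g
      refine ⟨Nat.pair (Nat.pair i k) (Nat.pair c' 0), ?_⟩
      unfold Pt
      simp only [Nat.unpair_pair]
      exact ⟨le_rfl, le_rfl, hc'.symm, fun h5 => absurd h5 hNi⟩
  have hpp : (Nat.pair N (Nat.pair k0 c0)).unpair.1 = N ∧ (Nat.pair N (Nat.pair k0 c0)).unpair.2.unpair.1 = k0 ∧
      (Nat.pair N (Nat.pair k0 c0)).unpair.2.unpair.2 = c0 := by simp only [Nat.unpair_pair, and_self]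
  have h7 := ht (Nat.pair N (Nat.pair k0 c0)) w (jn c y)
  rw [hpp.1, hpp.2.1, hpp.2.2] at h7
  obtain ⟨G, hG1, hG2, hG3⟩ := h7 hex (htw _)
  have hGy : Rd (jn w G) y := jn_rd hwy (hG1.trans (jn_rd hwy (jn_rd hcy (Rd.refl y))))
  have hyG : Rd y (jn w G) := (jn_r c y).trans hG2
  obtain ⟨M, hM⟩ := hf (jn w G) y (hz0.trans (jn_l w G)) hGy hyG
  refine ⟨max N M, fun n hn => ?_⟩
  rw [← hM n (le_trans (le_max_right _ _) hn)]
  obtain ⟨s0, hs0⟩ := hlim (jn w G) (hz0.trans (jn_l w G)) n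
  obtain ⟨s, hs, hFs⟩ := hG3 (Nat.pair n (s0 + 2 * n + 1)) (by rw [Nat.unpair_pair]; exact le_trans (le_max_left _ _) hn) (by
    have := Nat.right_le_pair n (s0 + 2 * n + 1)
    rw [Nat.unpair_pair]
    show 2 * n < _
    omega)
  rw [Nat.unpair_pair] at hFs
  have h8 := Nat.right_le_pair n (s0 + 2 * n + 1)
  have h9 := hs0 s (by omega)
  rw [← h9]
  refine Eq.trans hFs ?_
  show jn c y (2 * n) = c n
  unfold jn
  rw [if_pos (by omega)]
  congr 1
  omega

theorem bc_sel (F : ℕ → (ℕ → Bool) → ℕ → Bool) (hF : ∀ s n, Continuous fun x => F s x n)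
    (f : (ℕ → Bool) → ℕ → Bool) (z0 : ℕ → Bool) (q : (ℕ → Bool) → ℕ → Bool)
    (hq : ∀ u, Rd z0 u → Rd (q u) u ∧ Rd u (q u))
    (hlim : ∀ x, Rd z0 x → ∀ n, ∃ s0, ∀ s ≥ s0, F s x n = f (q x) n) (hf : Hm z0 f) :
    ∃ k : ℕ → Bool, ∀ w c : ℕ → Bool, Rd k w →
      ¬ IsMeagre {g : ℕ → Bool | ∃ N, ∀ n ≥ N, f (jn w g) n = c n} →
      ∀ y, Rd w y → Rd c y → ∃ N, ∀ n ≥ N, f y n = c n := by
  have h1 : Hm z0 fun u => f (q u) := fun x y h0 hxy hyx =>
    hf _ _ (h0.trans (hq x h0).2) (((hq x h0).1.trans hxy).trans (hq y (h0.trans hxy)).2)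
      (((hq y (h0.trans hxy)).1.trans hyx).trans (hq x h0).2)
  have h2 : ∀ x, Rd z0 x → ∃ N, ∀ n ≥ N, f x n = f (q x) n := fun x h0 => hf x (q x) h0 (hq x h0).2 (hq x h0).1
  obtain ⟨k, hk⟩ := bc_main F hF (fun u => f (q u)) z0 hlim h1
  refine ⟨jn k z0, fun w c hkw hm y hwy hcy => ?_⟩
  have hz0 : Rd z0 w := (jn_r _ _).trans hkw
  obtain ⟨N1, hN1⟩ := hk w c ((jn_l _ _).trans hkw) (fun hm' => hm (hm'.mono fun g hg => by
    obtain ⟨N, hN⟩ := hg
    obtain ⟨M, hM⟩ := h2 (jn w g) (hz0.trans (jn_l w g))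
    exact ⟨max N M, fun n hn => by
      rw [← hM n (le_trans (le_max_right _ _) hn)]
      exact hN n (le_trans (le_max_left _ _) hn)⟩)) y hwy hcy
  obtain ⟨N2, hN2⟩ := h2 y (hz0.trans hwy)
  exact ⟨max N1 N2, fun n hn => by
    rw [hN2 n (le_trans (le_max_right _ _) hn)]
    exact hN1 n (le_trans (le_max_left _ _) hn)⟩

end Pool.Agent.Lib.MP_1a0a6e_lc
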