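import Pool.Agent.Lib.MP_1a0a6e_lc.Inf2

/-!
# MP_1a0a6e_lc: there are countably many reals below a given one, and the main theorem for all of them at once
-/

set_option autoImplicit false

open MeasureTheory Set Topology
open scoped symmDiff ENNReal

namespace Pool.Agent.Lib.MP_1a0a6e_lc

/-- codes of functions computable from one oracle -/
inductive Cd : Type
  | z : Cd
  | s : Cd
  | l : Cd
  | r : Cd
  | o : Cd
  | pr (a b : Cd) : Cd
  | cm (a b : Cd) : Cd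
  | rc (a b : Cd) : Cd
  | rf (a : Cd) : Cd
  deriving Countable

/-- their meaning -/
def Cd.ev (O : ℕ →. ℕ) : Cd → ℕ →. ℕ
  | .z => fun _ => 0
  | .s => Nat.succ
  | .l => fun n => (Nat.unpair n).1
  | .r => fun n => (Nat.unpair n).2
  | .o => O
  | .pr a b => fun n => (Nat.pair <$> a.ev O n <*> b.ev O n)
  | .cm a b => fun n => b.ev O n >>= a.ev O
  | .rc a b => fun p =>
    let (c, n) := Nat.unpair p
    n.rec (a.ev O c) fun y IH => do
      let i ← IH
      b.ev O (Nat.pair c (Nat.pair y i))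
  | .rf a => fun c => Nat.rfind fun n => (fun m => m = 0) <$> a.ev O (Nat.pair c n)

theorem Cd.surj (O : ℕ →. ℕ) (g : ℕ →. ℕ) (h : Nat.RecursiveIn {O} g) : ∃ c : Cd, c.ev O = g := by
  induction h with
  | zero => exact ⟨.z, rfl⟩
  | succ => exact ⟨.s, rfl⟩
  | left => exact ⟨.l, rfl⟩
  | right => exact ⟨.r, rfl⟩
  | oracle g hg => exact ⟨.o, (Set.mem_singleton_iff.1 hg).symm⟩
  | pair _ _ ih1 ih2 =>
    obtain ⟨a, rfl⟩ := ih1
    obtain ⟨b, rfl⟩ := ih2
    exact ⟨.pr a b, rfl⟩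
  | comp _ _ ih1 ih2 =>
    obtain ⟨a, rfl⟩ := ih1
    obtain ⟨b, rfl⟩ := ih2
    exact ⟨.cm a b, rfl⟩
  | prec _ _ ih1 ih2 =>
    obtain ⟨a, rfl⟩ := ih1
    obtain ⟨b, rfl⟩ := ih2
    exact ⟨.rc a b, rfl⟩
  | rfind _ ih1 =>
    obtain ⟨a, rfl⟩ := ih1
    exact ⟨.rf a, rfl⟩

theorem rd_countable (z0 : ℕ → Bool) : {S : ℕ → Bool | Rd S z0}.Countable := by
  have h1 : (Set.range fun c : Cd => c.ev (orc z0)).Countable := Set.countable_range _
  have hinj : Function.Injective fun S : ℕ → Bool => orc S := by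
    intro S T h
    funext n
    have h2 : (Part.some (S n).toNat : Part ℕ) = Part.some (T n).toNat := congrFun h n
    have h3 := Part.some_injective h2
    revert h3
    cases S n <;> cases T n <;> simp
  refine (h1.preimage hinj).mono fun S hS => ?_
  exact Cd.surj (orc z0) (orc S) hS

theorem main_all (f : (ℕ → Bool) → ℕ → Bool) (hf : Measurable f) (z0 : ℕ → Bool)
    (hom : ∀ x y, Rd z0 x → Rd x y → Rd y x → Ev (f x) (f y)) :
    ∃ k c : ℕ → Bool, ∀ z, Rd k z → ∃ X : ℕ → ℕ → Bool, (∀ i, Rd z0 (X i)) ∧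
      (∀ S : ℕ → Bool, Rd S z0 → (∃ i, S i = true) → (∃ i, S i = false) → Ev (f (Ji S X)) c) ∧
        Rd (Ji al X) z ∧ Rd z (Ji al X) := by
  obtain ⟨c, hc⟩ := main_inf_rel f hf z0 hom
  have h1 : {S : ℕ → Bool | Rd S z0 ∧ (∃ i, S i = true) ∧ ∃ i, S i = false}.Countable :=
    (rd_countable z0).mono fun S hS => hS.1
  have h2 : {S : ℕ → Bool | Rd S z0 ∧ (∃ i, S i = true) ∧ ∃ i, S i = false}.Nonempty := by
    refine ⟨fun n => decide (n = 0), ?_, ⟨0, rfl⟩, ⟨1, rfl⟩⟩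
    have h3 : Primrec fun n : ℕ => if n = 0 then 1 else 0 :=
      Primrec.ite (Primrec.eq.comp Primrec.id (Primrec.const 0)) (Primrec.const 1) (Primrec.const 0)
    have h4 := Cp.of_prim (x := z0) h3
    unfold Rd
    have e : (fun n : ℕ => (decide (n = 0)).toNat) = fun n : ℕ => if n = 0 then 1 else 0 := by
      funext n
      by_cases h : n = 0
      · rw [if_pos h, decide_eq_true h]
        rfl
      · rw [if_neg h, decide_eq_false h]
        rfl
    rw [e]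
    exact h4
  obtain ⟨S, hS⟩ := h1.exists_eq_range h2
  obtain ⟨k, hk⟩ := hc S fun j => by
    have h3 : S j ∈ {S : ℕ → Bool | Rd S z0 ∧ (∃ i, S i = true) ∧ ∃ i, S i = false} := by
      rw [hS]
      exact ⟨j, rfl⟩
    exact h3
  refine ⟨k, c, fun z hz => ?_⟩
  obtain ⟨X, hX1, hX2, hX3, hX4⟩ := hk z hz
  refine ⟨X, hX1, fun T hT1 hT2 hT3 => ?_, hX3, hX4⟩
  have h3 : T ∈ {S : ℕ → Bool | Rd S z0 ∧ (∃ i, S i = true) ∧ ∃ i, S i = false} := ⟨hT1, hT2, hT3⟩
  rw [hS] at h3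
  obtain ⟨j, rfl⟩ := h3
  exact hX2 j

end Pool.Agent.Lib.MP_1a0a6e_lc
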