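import Mathlib

/-!
# MP_1a0a6e_lc: Turing reducibility of reals, joins, and the main lemma: every function is computable at its points of continuity

`cont_red`: for every `Y : 2^ℕ → 2^ℕ` there is a real `t` such that `Y x ≤_T x` for all `x ≥_T t` at which `Y` is continuous.
-/

set_option autoImplicit false

namespace Pool.Agent.Lib.MP_1a0a6e_lc

/-- the oracle of a real -/
abbrev orc (x : ℕ → Bool) : ℕ →. ℕ := fun n => Part.some (x n).toNat

/-- `g` is computable from `x` -/
def Cp (x : ℕ → Bool) (g : ℕ → ℕ) : Prop := Nat.RecursiveIn {orc x} (fun n => Part.some (g n))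

/-- `y` is Turing reducible to `x` -/
def Rd (y x : ℕ → Bool) : Prop := Cp x (fun n => (y n).toNat)

theorem red_iff (x y : ℕ → Bool) : TuringReducible (orc y) (orc x) ↔ Rd y x := RecursiveIn.iff_nat

theorem Cp.comp {x : ℕ → Bool} {f g : ℕ → ℕ} (hf : Cp x f) (hg : Cp x g) : Cp x (fun n => f (g n)) := by
  refine Nat.RecursiveIn.of_eq (Nat.RecursiveIn.comp hf hg) fun n => ?_
  show (Part.some (g n)).bind (fun m => Part.some (f m)) = _
  rw [Part.bind_some]

theorem Cp.pair {x : ℕ → Bool} {f g : ℕ → ℕ} (hf : Cp x f) (hg : Cp x g) : Cp x (fun n => Nat.pair (f n) (g n)) := by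
  refine Nat.RecursiveIn.of_eq (Nat.RecursiveIn.pair hf hg) fun n => ?_
  simp [Seq.seq]

theorem Cp.of_prim {x : ℕ → Bool} {f : ℕ → ℕ} (hf : Primrec f) : Cp x f :=
  (Primrec.nat_iff.1 hf).recursiveIn

theorem Cp.self (x : ℕ → Bool) : Cp x (fun n => (x n).toNat) :=
  Nat.RecursiveIn.oracle _ rfl

private theorem rec_some (a0 : ℕ) (H : ℕ → ℕ → ℕ) (n : ℕ) :
    (Nat.rec (Part.some a0) (fun y IH => IH.bind fun i => Part.some (H y i)) n : Part ℕ) =
      Part.some (Nat.rec a0 (fun y i => H y i) n) := by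
  induction n with
  | zero => rfl
  | succ n ih =>
    show (Nat.rec (Part.some a0) (fun y IH => IH.bind fun i => Part.some (H y i)) n : Part ℕ).bind _ = _
    rw [ih, Part.bind_some]

theorem Cp.prec {x : ℕ → Bool} {f h : ℕ → ℕ} (hf : Cp x f) (hh : Cp x h) :
    Cp x (fun p => Nat.rec (f p.unpair.1) (fun y i => h (Nat.pair p.unpair.1 (Nat.pair y i))) p.unpair.2) :=
  Nat.RecursiveIn.of_eq (Nat.RecursiveIn.prec hf hh) fun p =>
    rec_some (f p.unpair.1) (fun y i => h (Nat.pair p.unpair.1 (Nat.pair y i))) p.unpair.2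

theorem Cp.rfind {x : ℕ → Bool} {g s : ℕ → ℕ} (hg : Cp x g) (h1 : ∀ a, g (Nat.pair a (s a)) = 0)
    (h2 : ∀ a, ∀ m < s a, g (Nat.pair a m) ≠ 0) : Cp x s := by
  refine Nat.RecursiveIn.of_eq_tot (Nat.RecursiveIn.rfind hg) fun a => ?_
  refine Nat.mem_rfind.2 ⟨?_, ?_⟩
  · simp [h1 a]
  · intro m hm
    simp [h2 a m hm]

/-! ### reducibility of reals -/

theorem Cp.trans {x y : ℕ → Bool} {g : ℕ → ℕ} (hg : Cp y g) (hy : Rd y x) : Cp x g :=
  Nat.RecursiveIn.subst hg fun g hg => by
    rw [Set.mem_singleton_iff] at hg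
    subst hg
    exact hy

theorem Rd.refl (x : ℕ → Bool) : Rd x x := Cp.self x

theorem Rd.trans {x y z : ℕ → Bool} (h1 : Rd x y) (h2 : Rd y z) : Rd x z := Cp.trans h1 h2

theorem Rd.of_comp {x y : ℕ → Bool} (u : ℕ → ℕ) (hu : Primrec u) (h : ∀ n, y n = x (u n)) : Rd y x := by
  have h1 : Cp x (fun n => (x (u n)).toNat) := (Cp.self x).comp (Cp.of_prim hu)
  unfold Rd
  rw [show (fun n => (y n).toNat) = fun n => (x (u n)).toNat from funext fun n => by rw [h n]]
  exact h1

/-- the join of two reals -/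
def jn (x y : ℕ → Bool) : ℕ → Bool := fun n => if n % 2 = 0 then x (n / 2) else y (n / 2)

theorem jn_l (x y : ℕ → Bool) : Rd x (jn x y) := by
  refine Rd.of_comp (fun n => 2 * n) (Primrec.nat_mul.comp (Primrec.const 2) Primrec.id) fun n => ?_
  unfold jn
  rw [if_pos (by omega)]
  congr 1
  omega

theorem jn_r (x y : ℕ → Bool) : Rd y (jn x y) := by
  refine Rd.of_comp (fun n => 2 * n + 1)
    (Primrec.succ.comp (Primrec.nat_mul.comp (Primrec.const 2) Primrec.id)) fun n => ?_
  unfold jn
  rw [if_neg (by omega)]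
  congr 1
  omega

theorem jn_rd {x y z : ℕ → Bool} (hx : Rd x z) (hy : Rd y z) : Rd (jn x y) z := by
  have h2 : Primrec fun n : ℕ => n / 2 := Primrec.nat_div.comp Primrec.id (Primrec.const 2)
  have h3 : Cp z (fun n => Nat.pair n (Nat.pair ((x (n / 2)).toNat) ((y (n / 2)).toNat))) :=
    (Cp.of_prim Primrec.id).pair ((Cp.comp hx (Cp.of_prim h2)).pair (Cp.comp hy (Cp.of_prim h2)))
  have h4 : Primrec fun q : ℕ => if q.unpair.1 % 2 = 0 then q.unpair.2.unpair.1 else q.unpair.2.unpair.2 := by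
    refine Primrec.ite ?_ ?_ ?_
    · exact Primrec.eq.comp (Primrec.nat_mod.comp (Primrec.fst.comp Primrec.unpair) (Primrec.const 2)) (Primrec.const 0)
    · exact Primrec.fst.comp (Primrec.unpair.comp (Primrec.snd.comp Primrec.unpair))
    · exact Primrec.snd.comp (Primrec.unpair.comp (Primrec.snd.comp Primrec.unpair))
  have h5 := (Cp.of_prim (x := z) h4).comp h3
  unfold Rd
  have e : (fun n => (jn x y n).toNat) = fun n =>
      (if (Nat.pair n (Nat.pair ((x (n / 2)).toNat) ((y (n / 2)).toNat))).unpair.1 % 2 = 0 then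
        (Nat.pair n (Nat.pair ((x (n / 2)).toNat) ((y (n / 2)).toNat))).unpair.2.unpair.1 else
        (Nat.pair n (Nat.pair ((x (n / 2)).toNat) ((y (n / 2)).toNat))).unpair.2.unpair.2) := by
    funext n
    unfold jn
    simp only [Nat.unpair_pair]
    split_ifs <;> rfl
  rw [e]
  exact h5

/-- one bit in front of a real -/
def cn (b : Bool) (x : ℕ → Bool) : ℕ → Bool := fun n => if n = 0 then b else x (n - 1)

theorem cn_l (b : Bool) (x : ℕ → Bool) : Rd x (cn b x) := by
  refine Rd.of_comp (fun n => n + 1) Primrec.succ fun n => ?_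
  unfold cn
  rw [if_neg (by omega)]
  rfl

theorem cn_r (b : Bool) (x : ℕ → Bool) : Rd (cn b x) x := by
  have h2 : Primrec fun n : ℕ => n - 1 := Primrec.nat_sub.comp Primrec.id (Primrec.const 1)
  have h3 : Cp x (fun n => Nat.pair n ((x (n - 1)).toNat)) :=
    (Cp.of_prim Primrec.id).pair ((Cp.self x).comp (Cp.of_prim h2))
  have h4 : Primrec fun q : ℕ => if q.unpair.1 = 0 then b.toNat else q.unpair.2 := by
    refine Primrec.ite ?_ ?_ ?_
    · exact Primrec.eq.comp (Primrec.fst.comp Primrec.unpair) (Primrec.const 0)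
    · exact Primrec.const _
    · exact Primrec.snd.comp Primrec.unpair
  have h5 := (Cp.of_prim (x := x) h4).comp h3
  unfold Rd
  have e : (fun n => (cn b x n).toNat) = fun n =>
      (if (Nat.pair n ((x (n - 1)).toNat)).unpair.1 = 0 then b.toNat else (Nat.pair n ((x (n - 1)).toNat)).unpair.2) := by
    funext n
    unfold cn
    simp only [Nat.unpair_pair]
    split_ifs <;> rfl
  rw [e]
  exact h5

/-- the first `k` bits of `y` followed by `x` -/
def pre (k : ℕ) (y x : ℕ → Bool) : ℕ → Bool := fun n => if n < k then y n else x (n - k)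

theorem pre_succ (k : ℕ) (y x : ℕ → Bool) : pre (k + 1) y x = pre k y (cn (y k) x) := by
  funext n
  unfold pre cn
  by_cases h1 : n < k
  · rw [if_pos (by omega), if_pos h1]
  · rw [if_neg h1]
    by_cases h2 : n = k
    · subst h2
      rw [if_pos (by omega), if_pos (by omega)]
    · rw [if_neg (by omega), if_neg (by omega)]
      exact congrArg x (by omega)

theorem pre_rd (k : ℕ) (y x : ℕ → Bool) : Rd (pre k y x) x ∧ Rd x (pre k y x) := by
  induction k generalizing x with
  | zero =>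
    have h : pre 0 y x = x := by
      funext n
      unfold pre
      rw [if_neg (by omega)]
      rfl
    rw [h]
    exact ⟨Rd.refl x, Rd.refl x⟩
  | succ k ih =>
    rw [pre_succ]
    exact ⟨(ih _).1.trans (cn_r _ _), (cn_l _ _).trans (ih _).2⟩

/-! ### codes of initial segments -/

/-- the code of the first `N` bits of `x` -/
def enc (x : ℕ → Bool) (N : ℕ) : ℕ := Nat.rec 1 (fun n e => 2 * e + (x n).toNat) N

theorem enc_succ (x : ℕ → Bool) (N : ℕ) : enc x (N + 1) = 2 * enc x N + (x N).toNat := rfl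

theorem enc_bound (x : ℕ → Bool) (N : ℕ) : 2 ^ N ≤ enc x N ∧ enc x N < 2 ^ (N + 1) := by
  induction N with
  | zero => exact ⟨by simp [enc], by simp [enc]⟩
  | succ N ih =>
    rw [enc_succ]
    have h : (x N).toNat ≤ 1 := Bool.toNat_le _
    have e1 : 2 ^ (N + 1) = 2 * 2 ^ N := by rw [pow_succ, mul_comm]
    have e2 : 2 ^ (N + 1 + 1) = 2 * 2 ^ (N + 1) := by rw [pow_succ, mul_comm]
    omega

theorem enc_inj {x x' : ℕ → Bool} {N N' : ℕ} (h : enc x N = enc x' N') : N = N' ∧ ∀ i < N, x i = x' i := by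
  have h1 : N = N' := by
    have a := enc_bound x N
    have b := enc_bound x' N'
    rw [h] at a
    have c1 : 2 ^ N < 2 ^ (N' + 1) := lt_of_le_of_lt a.1 b.2
    have c2 : 2 ^ N' < 2 ^ (N + 1) := lt_of_le_of_lt b.1 a.2
    have d1 := (Nat.pow_lt_pow_iff_right (by norm_num : 1 < 2)).1 c1
    have d2 := (Nat.pow_lt_pow_iff_right (by norm_num : 1 < 2)).1 c2
    omega
  subst h1
  refine ⟨rfl, ?_⟩
  induction N with
  | zero => intro i hi; omega
  | succ N ih =>
    rw [enc_succ, enc_succ] at h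
    have e1 : (x N).toNat ≤ 1 := Bool.toNat_le _
    have e2 : (x' N).toNat ≤ 1 := Bool.toNat_le _
    have e3 : enc x N = enc x' N := by omega
    have e4 : (x N).toNat = (x' N).toNat := by omega
    intro i hi
    rcases Nat.lt_succ_iff_lt_or_eq.1 hi with h5 | h5
    · exact ih e3 i h5
    · subst h5
      revert e4
      cases x i <;> cases x' i <;> simp

theorem enc_cp (x : ℕ → Bool) : Cp x (enc x) := by
  have h1 : Cp x (fun q => 2 * q.unpair.2.unpair.2 + (x q.unpair.2.unpair.1).toNat) := by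
    have a1 : Primrec fun q : ℕ => q.unpair.2.unpair.1 :=
      Primrec.fst.comp (Primrec.unpair.comp (Primrec.snd.comp Primrec.unpair))
    have a2 : Primrec fun q : ℕ => q.unpair.2.unpair.2 :=
      Primrec.snd.comp (Primrec.unpair.comp (Primrec.snd.comp Primrec.unpair))
    have a3 := (Cp.of_prim (x := x) a2).pair ((Cp.self x).comp (Cp.of_prim a1))
    have a4 : Primrec fun q : ℕ => 2 * q.unpair.1 + q.unpair.2 :=
      Primrec.nat_add.comp (Primrec.nat_mul.comp (Primrec.const 2) (Primrec.fst.comp Primrec.unpair))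
        (Primrec.snd.comp Primrec.unpair)
    have a5 := (Cp.of_prim (x := x) a4).comp a3
    simpa only [Nat.unpair_pair] using a5
  have h2 := Cp.prec (Cp.of_prim (x := x) (Primrec.const 1)) h1
  have h3 : Primrec fun N : ℕ => Nat.pair 0 N := Primrec₂.natPair.comp (Primrec.const 0) Primrec.id
  have h4 := h2.comp (Cp.of_prim h3)
  show Cp x (fun N => Nat.rec 1 (fun n e => 2 * e + (x n).toNat) N)
  simpa only [Nat.unpair_pair] using h4

open Classical in
/-- every function is computable at its points of continuity -/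
theorem cont_red (Y : (ℕ → Bool) → ℕ → Bool) : ∃ t : ℕ → Bool, ∀ x : ℕ → Bool, Rd t x →
    (∀ n, ∃ N, ∀ x' : ℕ → Bool, (∀ i < N, x' i = x i) → Y x' n = Y x n) → Rd (Y x) x := by
  let D : ℕ → ℕ → Prop := fun n c => ∃ b, ∀ (x' : ℕ → Bool) (N : ℕ), enc x' N = c → Y x' n = b
  let v : ℕ → ℕ → Bool := fun n c => if h : D n c then h.choose else false
  let t : ℕ → Bool := jn (fun p => decide (D p.unpair.1 p.unpair.2)) (fun p => v p.unpair.1 p.unpair.2)
  refine ⟨t, fun x ht hx => ?_⟩
  have hd : Cp x (fun p => (decide (D p.unpair.1 p.unpair.2)).toNat) := (jn_l _ _).trans ht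
  have hv : Cp x (fun p => (v p.unpair.1 p.unpair.2).toNat) := (jn_r _ _).trans ht
  have hval : ∀ n N, D n (enc x N) → v n (enc x N) = Y x n := by
    intro n N h
    have e : v n (enc x N) = h.choose := dif_pos h
    rw [e]
    exact (h.choose_spec x N rfl).symm
  have hex : ∀ n, ∃ N, D n (enc x N) := by
    intro n
    obtain ⟨N, hN⟩ := hx n
    refine ⟨N, Y x n, fun x' N' h => ?_⟩
    obtain ⟨h1, h2⟩ := enc_inj h
    subst h1
    exact hN x' h2
  let s : ℕ → ℕ := fun n => Nat.find (hex n)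
  have hs1 : ∀ n, D n (enc x (s n)) := fun n => Nat.find_spec (hex n)
  have hs2 : ∀ n, ∀ m < s n, ¬ D n (enc x m) := fun n m hm => Nat.find_min (hex n) hm
  have hpe : Cp x (fun q => Nat.pair q.unpair.1 (enc x q.unpair.2)) :=
    (Cp.of_prim (Primrec.fst.comp Primrec.unpair)).pair ((enc_cp x).comp (Cp.of_prim (Primrec.snd.comp Primrec.unpair)))
  have hg : Cp x (fun q => 1 - (decide (D q.unpair.1 (enc x q.unpair.2))).toNat) := by
    have a1 := hd.comp hpe
    have a2 : Primrec fun k : ℕ => 1 - k := Primrec.nat_sub.comp (Primrec.const 1) Primrec.id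
    have a3 := (Cp.of_prim (x := x) a2).comp a1
    simpa only [Nat.unpair_pair] using a3
  have hsc : Cp x s := by
    refine Cp.rfind hg (fun a => ?_) fun a m hm => ?_
    · simp only [Nat.unpair_pair]
      rw [decide_eq_true (hs1 a)]
      rfl
    · simp only [Nat.unpair_pair]
      rw [decide_eq_false (hs2 a m hm)]
      simp
  have h6 : Cp x (fun n => Nat.pair n (enc x (s n))) := (Cp.of_prim Primrec.id).pair ((enc_cp x).comp hsc)
  have h7 := hv.comp h6
  simp only [Nat.unpair_pair] at h7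
  unfold Rd
  rw [show (fun n => (Y x n).toNat) = fun n => (v n (enc x (s n))).toNat from
    funext fun n => by rw [hval n _ (hs1 n)]]
  exact h7

end Pool.Agent.Lib.MP_1a0a6e_lc
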