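import Pool.Agent.Lib.MP_1a0a6e_lc.Har

/-!
# MP_1a0a6e_lc: strong ergodicity of four involutions of `(ZMod 2)^ℕ`

`tw P φ w n = w n + w (φ n)` for `n` in `P`, `w n` otherwise. If `μ(A ∆ T⁻¹A) ≤ d` for the four involutions with `P` the even numbers, `φ n = 2n+1`, `2n+3`, and `P` the odd numbers, `φ n = 2n+2`, `2n`, then `μ(A)(1-μ(A)) ≤ 24 d`.
-/

set_option autoImplicit false

open MeasureTheory Set Topology
open scoped symmDiff ENNReal

namespace Pool.Agent.Lib.MP_1a0a6e_lc

/-- the involution -/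
def tw (P : ℕ → Prop) [DecidablePred P] (φ : ℕ → ℕ) (w : Gp) : Gp := fun n => if P n then w n + w (φ n) else w n

/-- admissible data -/
structure Adm (P : ℕ → Prop) (φ : ℕ → ℕ) : Prop where
  off : ∀ n, P n → ¬ P (φ n)
  lt : ∀ n, P n → n < φ n
  mono : StrictMono φ

variable {P : ℕ → Prop} [DecidablePred P] {φ : ℕ → ℕ}

theorem tw_tw (h : Adm P φ) (w : Gp) : tw P φ (tw P φ w) = w := by
  funext n
  unfold tw
  by_cases hn : P n
  · rw [if_pos hn, if_pos hn, if_neg (h.off n hn), add_assoc, CharTwo.add_self_eq_zero, add_zero]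
  · rw [if_neg hn, if_neg hn]

/-- the involution as a homomorphism -/
def twH (P : ℕ → Prop) [DecidablePred P] (φ : ℕ → ℕ) : Gp →+ Gp where
  toFun := tw P φ
  map_zero' := by
    funext n
    unfold tw
    simp
  map_add' x y := by
    funext n
    simp only [tw, Pi.add_apply]
    split_ifs
    · ring
    · rfl

theorem tw_cont : Continuous (tw P φ) := by
  refine continuous_pi fun n => ?_
  unfold tw
  by_cases hn : P n
  · simp only [hn, if_true]
    have h : Continuous (fun p : ZMod 2 × ZMod 2 => p.1 + p.2) := continuous_of_discreteTopology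
    have h2 : Continuous fun w : Gp => (w n, w (φ n)) := (continuous_apply n).prodMk (continuous_apply (φ n))
    exact h.comp h2
  · simp only [hn, if_false]
    exact continuous_apply n

theorem tw_mp (h : Adm P φ) : MeasurePreserving (tw P φ) mu mu :=
  AddMonoidHom.measurePreserving (f := twH P φ) tw_cont (fun w => ⟨tw P φ w, tw_tw h w⟩) rfl

/-- the dual involution -/
def ts (P : ℕ → Prop) [DecidablePred P] (φ : ℕ → ℕ) (S : Finset ℕ) : Finset ℕ := S ∆ ((S.filter P).image φ)

theorem ts_ts (h : Adm P φ) (S : Finset ℕ) : ts P φ (ts P φ S) = S := by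
  have h1 : (ts P φ S).filter P = S.filter P := by
    ext i
    unfold ts
    simp only [Finset.mem_filter, Finset.mem_symmDiff, Finset.mem_image]
    constructor
    · rintro ⟨h1 | h1, h2⟩
      · exact ⟨h1.1, h2⟩
      · obtain ⟨⟨j, hj, rfl⟩, -⟩ := h1
        exact absurd h2 (h.off j hj.2)
    · rintro ⟨h1, h2⟩
      refine ⟨Or.inl ⟨h1, ?_⟩, h2⟩
      rintro ⟨j, hj, rfl⟩
      exact h.off j hj.2 h2
  have h2 : ts P φ (ts P φ S) = (ts P φ S) ∆ (((ts P φ S).filter P).image φ) := rfl
  rw [h2, h1]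
  unfold ts
  rw [symmDiff_symmDiff_cancel_right]

theorem ch_tw (h : Adm P φ) (S : Finset ℕ) (w : Gp) : ch S (tw P φ w) = ch (ts P φ S) w := by
  unfold ts
  rw [← ch_mul]
  unfold ch
  rw [Finset.prod_image fun a _ b _ hab => h.mono.injective hab, Finset.prod_filter, ← Finset.prod_mul_distrib]
  refine Finset.prod_congr rfl fun i _ => ?_
  unfold tw
  split_ifs
  · exact sgn2_add _ _
  · rw [mul_one]

theorem ts_sup (h : Adm P φ) (S : Finset ℕ) (hS : S.Nonempty) (hP : P (S.sup id)) :
    (ts P φ S).Nonempty ∧ (ts P φ S).sup id = φ (S.sup id) := by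
  have hm : S.sup id ∈ S := by
    obtain ⟨i, hi, hi2⟩ := Finset.exists_mem_eq_sup S hS id
    rw [hi2]
    exact hi
  have h1 : φ (S.sup id) ∈ ts P φ S := by
    unfold ts
    rw [Finset.mem_symmDiff]
    refine Or.inr ⟨Finset.mem_image.2 ⟨_, Finset.mem_filter.2 ⟨hm, hP⟩, rfl⟩, fun h2 => ?_⟩
    have h3 : φ (S.sup id) ≤ S.sup id := Finset.le_sup (f := id) h2
    have h4 := h.lt _ hP
    omega
  refine ⟨⟨_, h1⟩, le_antisymm (Finset.sup_le fun i hi => ?_) (Finset.le_sup (f := id) h1)⟩
  unfold ts at hi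
  rw [Finset.mem_symmDiff] at hi
  rcases hi with hi | hi
  · exact le_trans (Finset.le_sup (f := id) hi.1) (h.lt _ hP).le
  · obtain ⟨j, hj, rfl⟩ := Finset.mem_image.1 hi.1
    exact h.mono.monotone (Finset.le_sup (f := id) (Finset.mem_filter.1 hj).1)

theorem cf_tw (h : Adm P φ) (A : Set Gp) (hA : MeasurableSet A) (S : Finset ℕ) :
    cf (tw P φ ⁻¹' A) S = cf A (ts P φ S) := by
  unfold cf
  have h1 : ∀ w, ch S w = ch (ts P φ S) (tw P φ w) := fun w => by
    rw [← ch_tw h, tw_tw h]
  simp only [h1]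
  conv_rhs => rw [← (tw_mp h).map_eq]
  rw [setIntegral_map hA (ch_cont _).aestronglyMeasurable (tw_mp h).measurable.aemeasurable]

theorem cf_empty_set (S : Finset ℕ) : cf ∅ S = 0 := by
  unfold cf
  simp

theorem cf_empty (A : Set Gp) : cf A ∅ = mu.real A := by
  unfold cf
  simp [ch_empty]

theorem cf_sum (A : Set Gp) (hA : MeasurableSet A) : HasSum (fun S => cf A S ^ 2) (mu.real A) := by
  have h := parseval A ∅ hA MeasurableSet.empty
  simp only [cf_empty_set, sub_zero] at h
  rwa [← bot_eq_empty, symmDiff_bot] at h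

open Classical in
/-- the mass of the coefficients with `max S` in `C` -/
noncomputable def Ms (A : Set Gp) (C : ℕ → Prop) : ℝ := ∑' S : Finset ℕ, if S.Nonempty ∧ C (S.sup id) then cf A S ^ 2 else 0

open Classical in
theorem ms_summable (A : Set Gp) (hA : MeasurableSet A) (C : ℕ → Prop) :
    Summable fun S : Finset ℕ => if S.Nonempty ∧ C (S.sup id) then cf A S ^ 2 else 0 := by
  refine Summable.of_nonneg_of_le (fun S => ?_) (fun S => ?_) (cf_sum A hA).summable
  · split_ifs
    · positivity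
    · exact le_rfl
  · split_ifs
    · exact le_rfl
    · positivity

theorem ms_add_le (A : Set Gp) (hA : MeasurableSet A) (C1 C2 C : ℕ → Prop) (h1 : ∀ n, C1 n → C n) (h2 : ∀ n, C2 n → C n)
    (h12 : ∀ n, C1 n → ¬ C2 n) : Ms A C1 + Ms A C2 ≤ Ms A C := by
  classical
  unfold Ms
  rw [← (ms_summable A hA C1).tsum_add (ms_summable A hA C2)]
  refine Summable.tsum_le_tsum (fun S => ?_) ((ms_summable A hA C1).add (ms_summable A hA C2)) (ms_summable A hA C)
  have hn : 0 ≤ cf A S ^ 2 := by positivity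
  by_cases hS : S.Nonempty
  · by_cases a1 : C1 (S.sup id)
    · have a2 := h12 _ a1
      have a3 := h1 _ a1
      simp [hS, a1, a2, a3]
    · by_cases a2 : C2 (S.sup id)
      · have a3 := h2 _ a2
        simp [hS, a1, a2, a3]
      · simp only [hS, a1, a2, and_false, if_false, add_zero, true_and]
        split_ifs
        · exact hn
        · exact le_rfl
  · simp [hS]

theorem ms_total (A : Set Gp) (hA : MeasurableSet A) :
    mu.real A * (1 - mu.real A) = Ms A (fun n => n % 2 = 0) + Ms A (fun n => n % 2 = 1) := by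
  classical
  have h1 := (cf_sum A hA).summable.tsum_eq_add_tsum_ite ∅
  rw [(cf_sum A hA).tsum_eq, cf_empty] at h1
  have h2 : (∑' S : Finset ℕ, if S = ∅ then (0 : ℝ) else cf A S ^ 2) = Ms A (fun n => n % 2 = 0) + Ms A (fun n => n % 2 = 1) := by
    unfold Ms
    rw [← (ms_summable A hA fun n => n % 2 = 0).tsum_add (ms_summable A hA fun n => n % 2 = 1)]
    refine tsum_congr fun S => ?_
    by_cases hS : S = ∅
    · simp [hS]
    · have hS' : S.Nonempty := Finset.nonempty_iff_ne_empty.2 hS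
      rcases Nat.mod_two_eq_zero_or_one (S.sup id) with h3 | h3
      · simp [hS, hS', h3]
      · simp [hS, hS', h3]
  linarith

theorem ms_ineq (h : Adm P φ) (A : Set Gp) (hA : MeasurableSet A) (d : ℝ) (hd : mu.real (A ∆ (tw P φ ⁻¹' A)) ≤ d)
    (C : ℕ → Prop) (hC : ∀ n, P n → C (φ n)) : Ms A P ≤ 3 / 2 * Ms A C + 3 * d := by
  classical
  have hp := parseval A (tw P φ ⁻¹' A) hA ((tw_mp h).measurable hA)
  simp only [cf_tw h A hA] at hp
  have hinj : Function.Injective (ts P φ) := fun a b hab => by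
    rw [← ts_ts h a, ← ts_ts h b, hab]
  have hs1 : Summable fun S : Finset ℕ => cf A (ts P φ S) ^ 2 := (cf_sum A hA).summable.comp_injective hinj
  have hs2 : Summable fun S : Finset ℕ => if S.Nonempty ∧ P (S.sup id) then cf A (ts P φ S) ^ 2 else 0 := by
    refine Summable.of_nonneg_of_le (fun S => ?_) (fun S => ?_) hs1
    · split_ifs
      · positivity
      · exact le_rfl
    · split_ifs
      · exact le_rfl
      · positivity
  have h1 : ∑' S : Finset ℕ, (if S.Nonempty ∧ P (S.sup id) then cf A (ts P φ S) ^ 2 else 0) ≤ Ms A C := by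
    unfold Ms
    refine Summable.tsum_le_tsum_of_inj (ts P φ) hinj (fun S _ => ?_) (fun S => ?_) hs2 (ms_summable A hA C)
    · split_ifs
      · positivity
      · exact le_rfl
    · by_cases hS : S.Nonempty ∧ P (S.sup id)
      · obtain ⟨h2, h3⟩ := ts_sup h S hS.1 hS.2
        rw [if_pos hS, if_pos ⟨h2, by rw [h3]; exact hC _ hS.2⟩]
      · rw [if_neg hS]
        split_ifs
        · positivity
        · exact le_rfl
  have h2 : Ms A P ≤ 3 / 2 * ∑' S : Finset ℕ, (if S.Nonempty ∧ P (S.sup id) then cf A (ts P φ S) ^ 2 else 0) +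
      3 * ∑' S : Finset ℕ, (cf A S - cf A (ts P φ S)) ^ 2 := by
    rw [← tsum_mul_left, ← tsum_mul_left, ← (hs2.mul_left _).tsum_add (hp.summable.mul_left _)]
    unfold Ms
    refine Summable.tsum_le_tsum (fun S => ?_) (ms_summable A hA P) ((hs2.mul_left _).add (hp.summable.mul_left _))
    split_ifs
    · nlinarith [sq_nonneg (cf A (ts P φ S) - 2 * (cf A S - cf A (ts P φ S)))]
    · nlinarith [sq_nonneg (cf A S - cf A (ts P φ S))]
  rw [hp.tsum_eq] at h2
  linarith

theorem adm1 : Adm (fun n => n % 2 = 0) (fun n => 2 * n + 1) :=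
  ⟨fun n hn => by omega, fun n hn => by omega, fun a b hab => by show 2 * a + 1 < 2 * b + 1; omega⟩

theorem adm3 : Adm (fun n => n % 2 = 0) (fun n => 2 * n + 3) :=
  ⟨fun n hn => by omega, fun n hn => by omega, fun a b hab => by show 2 * a + 3 < 2 * b + 3; omega⟩

theorem adm0 : Adm (fun n => n % 2 = 1) (fun n => 2 * n + 2) :=
  ⟨fun n hn => by omega, fun n hn => by omega, fun a b hab => by show 2 * a + 2 < 2 * b + 2; omega⟩

theorem adm2 : Adm (fun n => n % 2 = 1) (fun n => 2 * n) :=
  ⟨fun n hn => by omega, fun n hn => by omega, fun a b hab => by show 2 * a < 2 * b; omega⟩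

/-- strong ergodicity of the four involutions -/
theorem strong_erg (A : Set Gp) (hA : MeasurableSet A) (d : ℝ)
    (h1 : mu.real (A ∆ (tw (fun n => n % 2 = 0) (fun n => 2 * n + 1) ⁻¹' A)) ≤ d)
    (h3 : mu.real (A ∆ (tw (fun n => n % 2 = 0) (fun n => 2 * n + 3) ⁻¹' A)) ≤ d)
    (h0 : mu.real (A ∆ (tw (fun n => n % 2 = 1) (fun n => 2 * n + 2) ⁻¹' A)) ≤ d)
    (h2 : mu.real (A ∆ (tw (fun n => n % 2 = 1) (fun n => 2 * n) ⁻¹' A)) ≤ d) :
    mu.real A * (1 - mu.real A) ≤ 24 * d := by
  have e1 := ms_ineq adm1 A hA d h1 (fun n => n % 4 = 1) (fun n hn => by omega)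
  have e3 := ms_ineq adm3 A hA d h3 (fun n => n % 4 = 3) (fun n hn => by omega)
  have e0 := ms_ineq adm0 A hA d h0 (fun n => n % 4 = 0) (fun n hn => by omega)
  have e2 := ms_ineq adm2 A hA d h2 (fun n => n % 4 = 2) (fun n hn => by omega)
  have s1 := ms_add_le A hA (fun n => n % 4 = 1) (fun n => n % 4 = 3) (fun n => n % 2 = 1)
    (fun n hn => by omega) (fun n hn => by omega) (fun n hn => by omega)
  have s2 := ms_add_le A hA (fun n => n % 4 = 0) (fun n => n % 4 = 2) (fun n => n % 2 = 0)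
    (fun n hn => by omega) (fun n hn => by omega) (fun n hn => by omega)
  have t := ms_total A hA
  linarith

end Pool.Agent.Lib.MP_1a0a6e_lc
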