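import Pool.Agent.Lib.MP_1a0a6e_lc.Comp
import Pool.Agent.Lib.MP_1a0a6e_lc.Erg

/-!
# MP_1a0a6e_lc: Borel homomorphisms from Turing equivalence to `E_0` with directed fibres

`const_ae`: a Borel map invariant modulo eventual equality under the four involutions is almost everywhere eventually equal to one sequence. `main_cnt`: if pairs in one fibre have upper bounds in countably many fibres, then one class is attained above every real.
-/

set_option autoImplicit false

open MeasureTheory Set Topology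
open scoped symmDiff ENNReal

namespace Pool.Agent.Lib.MP_1a0a6e_lc

/-- eventually equal -/
def Ev (a b : ℕ → Bool) : Prop := ∃ N : ℕ, ∀ n ≥ N, a n = b n

theorem Ev.symm {a b : ℕ → Bool} (h : Ev a b) : Ev b a := by
  obtain ⟨N, hN⟩ := h
  exact ⟨N, fun n hn => (hN n hn).symm⟩

theorem Ev.trans {a b c : ℕ → Bool} (h1 : Ev a b) (h2 : Ev b c) : Ev a c := by
  obtain ⟨N, hN⟩ := h1
  obtain ⟨M, hM⟩ := h2
  exact ⟨max N M, fun n hn => (hN n (le_trans (le_max_left _ _) hn)).trans (hM n (le_trans (le_max_right _ _) hn))⟩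

/-! ### almost everywhere constancy -/

theorem meas_ne {F G : Gp → ℕ → Bool} (hF : Measurable F) (hG : Measurable G) (m : ℕ) :
    MeasurableSet {w | F w m ≠ G w m} := by
  have h1 : Measurable fun w => F w m := (measurable_pi_apply m).comp hF
  have h2 : Measurable fun w => G w m := (measurable_pi_apply m).comp hG
  exact (measurableSet_eq_fun h1 h2).compl

theorem meas_ex {F G : Gp → ℕ → Bool} (hF : Measurable F) (hG : Measurable G) (p : ℕ → Prop) :
    MeasurableSet {w | ∃ m, p m ∧ F w m ≠ G w m} := by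
  have h : {w | ∃ m, p m ∧ F w m ≠ G w m} = ⋃ m, ⋃ (_ : p m), {w | F w m ≠ G w m} := by
    ext w
    simp only [mem_ofPred_eq, mem_iUnion, exists_prop]
  rw [h]
  exact MeasurableSet.iUnion fun m => MeasurableSet.iUnion fun _ => meas_ne hF hG m

theorem tail_small {F G : Gp → ℕ → Bool} (hF : Measurable F) (hG : Measurable G)
    (h : ∀ w, Ev (F w) (G w)) (ε : ℝ) (hε : 0 < ε) :
    ∃ n0, ∀ n ≥ n0, mu.real {w | ∃ m, n ≤ m ∧ F w m ≠ G w m} ≤ ε := by
  have h1 : Filter.Tendsto (fun n => mu {w | ∃ m, n ≤ m ∧ F w m ≠ G w m}) Filter.atTop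
      (𝓝 (mu (⋂ n : ℕ, {w | ∃ m, n ≤ m ∧ F w m ≠ G w m}))) := by
    refine tendsto_measure_iInter_atTop (fun n => (meas_ex hF hG _).nullMeasurableSet) ?_ ⟨0, measure_ne_top _ _⟩
    intro a b hab w hw
    obtain ⟨m, hm, hw⟩ := hw
    exact ⟨m, hab.trans hm, hw⟩
  have h2 : (⋂ n : ℕ, {w | ∃ m, n ≤ m ∧ F w m ≠ G w m}) = ∅ := by
    ext w
    simp only [mem_iInter, mem_ofPred_eq, mem_empty_iff_false, iff_false, not_forall]
    obtain ⟨N, hN⟩ := h w
    refine ⟨N, ?_⟩
    rintro ⟨m, hm, hw⟩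
    exact hw (hN m hm)
  rw [h2, measure_empty] at h1
  have h3 := (h1.eventually (gt_mem_nhds (ENNReal.ofReal_pos.2 hε)))
  obtain ⟨n0, hn0⟩ := Filter.eventually_atTop.1 h3
  refine ⟨n0, fun n hn => ?_⟩
  exact ENNReal.toReal_le_of_le_ofReal hε.le (hn0 n hn).le

theorem const_ae (F : Gp → ℕ → Bool) (hF : Measurable F)
    (h1 : ∀ w, Ev (F w) (F (tw (fun n => n % 2 = 0) (fun n => 2 * n + 1) w)))
    (h3 : ∀ w, Ev (F w) (F (tw (fun n => n % 2 = 0) (fun n => 2 * n + 3) w)))
    (h0 : ∀ w, Ev (F w) (F (tw (fun n => n % 2 = 1) (fun n => 2 * n + 2) w)))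
    (h2 : ∀ w, Ev (F w) (F (tw (fun n => n % 2 = 1) (fun n => 2 * n) w))) :
    ∃ c : ℕ → Bool, ∀ᵐ w ∂mu, Ev (F w) c := by
  classical
  let c : ℕ → Bool := fun m => decide (1 / 2 ≤ mu.real {w | F w m = true})
  have hc : Measurable fun _ : Gp => c := measurable_const
  have hhalf : ∀ m, mu.real {w | F w m ≠ c m} ≤ 1 / 2 := by
    intro m
    have hm : MeasurableSet {w | F w m = true} :=
      measurableSet_eq_fun ((measurable_pi_apply m).comp hF) measurable_const
    by_cases h : 1 / 2 ≤ mu.real {w | F w m = true}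
    · have e : {w | F w m ≠ c m} = {w | F w m = true}ᶜ := by
        have hcm : c m = true := decide_eq_true h
        ext w
        rw [mem_ofPred_eq, hcm]
        rfl
      rw [e, probReal_compl_eq_one_sub hm]
      linarith
    · have e : {w | F w m ≠ c m} = {w | F w m = true} := by
        have hcm : c m = false := decide_eq_false h
        ext w
        rw [mem_ofPred_eq, hcm, mem_ofPred_eq]
        cases F w m <;> simp
      rw [e]
      exact (not_le.1 h).le
  refine ⟨c, ?_⟩
  -- the asymptotic estimate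
  have key : ∀ ε : ℝ, 0 < ε → ε ≤ 1 / 400 → mu {w | ¬ Ev (F w) c} ≤ ENNReal.ofReal (48 * ε) := by
    intro ε hε hε2
    obtain ⟨n1, hn1⟩ := tail_small hF (hF.comp (tw_mp adm1).measurable) h1 ε hε
    obtain ⟨n3, hn3⟩ := tail_small hF (hF.comp (tw_mp adm3).measurable) h3 ε hε
    obtain ⟨n0, hn0⟩ := tail_small hF (hF.comp (tw_mp adm0).measurable) h0 ε hε
    obtain ⟨n2, hn2⟩ := tail_small hF (hF.comp (tw_mp adm2).measurable) h2 ε hε
    let N := max (max n0 n1) (max n2 n3)
    have hN0 : n0 ≤ N := le_trans (le_max_left _ _) (le_max_left _ _)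
    have hN1 : n1 ≤ N := le_trans (le_max_right _ _) (le_max_left _ _)
    have hN2 : n2 ≤ N := le_trans (le_max_left _ _) (le_max_right _ _)
    have hN3 : n3 ≤ N := le_trans (le_max_right _ _) (le_max_right _ _)
    let Q : ℕ → ℕ → Set Gp := fun n M => {w | ∃ m, (n ≤ m ∧ m < M) ∧ F w m ≠ c m}
    have hQm : ∀ n M, MeasurableSet (Q n M) := fun n M => meas_ex hF hc _
    have hsub : ∀ n M, ∀ T : Gp → Gp, Q n M ∆ (T ⁻¹' (Q n M)) ⊆ {w | ∃ m, n ≤ m ∧ F w m ≠ F (T w) m} := by
      intro n M T w hw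
      rcases hw with ⟨⟨m, hm, hw1⟩, hw2⟩ | ⟨⟨m, hm, hw1⟩, hw2⟩
      · refine ⟨m, hm.1, fun h => hw2 ⟨m, hm, ?_⟩⟩
        rw [← h]
        exact hw1
      · refine ⟨m, hm.1, fun h => hw2 ⟨m, hm, ?_⟩⟩
        rw [h]
        exact hw1
    have hq : ∀ n ≥ N, ∀ M, mu.real (Q n M) * (1 - mu.real (Q n M)) ≤ 24 * ε := by
      intro n hn M
      refine strong_erg (Q n M) (hQm n M) ε ?_ ?_ ?_ ?_
      · exact le_trans (measureReal_mono (hsub n M _)) (hn1 n (hN1.trans hn))
      · exact le_trans (measureReal_mono (hsub n M _)) (hn3 n (hN3.trans hn))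
      · exact le_trans (measureReal_mono (hsub n M _)) (hn0 n (hN0.trans hn))
      · exact le_trans (measureReal_mono (hsub n M _)) (hn2 n (hN2.trans hn))
    have hgap : ∀ n ≥ N, ∀ M, mu.real (Q n M) ≤ 1 / 2 → mu.real (Q n M) ≤ 48 * ε := by
      intro n hn M h
      have h4 := hq n hn M
      have h5 : 0 ≤ mu.real (Q n M) := measureReal_nonneg
      nlinarith
    have hp : ∀ m ≥ N, mu.real {w | F w m ≠ c m} ≤ 48 * ε := by
      intro m hm
      have e : Q m (m + 1) = {w | F w m ≠ c m} := by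
        ext w
        constructor
        · rintro ⟨k, hk, hw⟩
          have hk' : k = m := by omega
          rw [hk'] at hw
          exact hw
        · intro hw
          exact ⟨m, by omega, hw⟩
      rw [← e]
      refine hgap m hm (m + 1) ?_
      rw [e]
      exact hhalf m
    have hind : ∀ M, mu.real (Q N M) ≤ 48 * ε := by
      intro M
      induction M with
      | zero =>
        have e : Q N 0 = ∅ := by
          ext w
          simp only [mem_empty_iff_false, iff_false]
          rintro ⟨m, hm, -⟩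
          omega
        rw [e, measureReal_empty]
        positivity
      | succ M ih =>
        by_cases hM : N ≤ M
        · refine hgap N le_rfl (M + 1) ?_
          have hs : Q N (M + 1) ⊆ Q N M ∪ {w | F w M ≠ c M} := by
            rintro w ⟨m, hm, hw⟩
            by_cases hm2 : m < M
            · exact Or.inl ⟨m, ⟨hm.1, hm2⟩, hw⟩
            · have hm3 : m = M := by omega
              rw [hm3] at hw
              exact Or.inr hw
          have h5 : mu.real (Q N (M + 1)) ≤ mu.real (Q N M) + mu.real {w | F w M ≠ c M} :=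
            le_trans (measureReal_mono hs) (measureReal_union_le _ _)
          have h6 := hp M hM
          linarith
        · have e : Q N (M + 1) = Q N M := by
            ext w
            constructor
            · rintro ⟨m, hm, -⟩
              omega
            · rintro ⟨m, hm, -⟩
              omega
          rw [e]
          exact ih
    have hU : {w | ¬ Ev (F w) c} ⊆ ⋃ M, Q N M := by
      intro w hw
      rw [mem_iUnion]
      by_contra hcon
      push Not at hcon
      refine hw ⟨N, fun m hm => ?_⟩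
      by_contra h
      exact hcon (m + 1) ⟨m, ⟨hm, Nat.lt_succ_self m⟩, h⟩
    have hmono : Monotone (Q N) := by
      rintro a b hab w ⟨m, hm, hw⟩
      exact ⟨m, ⟨hm.1, lt_of_lt_of_le hm.2 hab⟩, hw⟩
    refine le_trans (measure_mono hU) ?_
    rw [hmono.measure_iUnion]
    refine iSup_le fun M => ?_
    rw [← ofReal_measureReal (measure_ne_top _ _)]
    exact ENNReal.ofReal_le_ofReal (hind M)
  rw [ae_iff]
  refine le_antisymm (le_of_forall_gt fun b hb => ?_) bot_le
  by_cases hbt : b = ⊤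
  · rw [hbt]
    exact lt_of_le_of_ne le_top (measure_ne_top _ _)
  · have hb' : 0 < b.toReal := ENNReal.toReal_pos hb.ne' hbt
    have h5 := key (min (b.toReal / 96) (1 / 400)) (lt_min (by positivity) (by norm_num)) (min_le_right _ _)
    refine lt_of_le_of_lt h5 ?_
    rw [ENNReal.ofReal_lt_iff_lt_toReal (by positivity) hbt]
    have h6 := min_le_left (b.toReal / 96) (1 / 400 : ℝ)
    linarith

/-! ### computability -/

theorem rd_xor (x y : ℕ → Bool) (k r : ℕ) (u v : ℕ → ℕ) (hu : Primrec u) (hv : Primrec v)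
    (h : ∀ n, y n = if n % k = r then xor (x (u n)) (x (v n)) else x (u n)) : Rd y x := by
  have h3 : Cp x (fun n => Nat.pair n (Nat.pair ((x (u n)).toNat) ((x (v n)).toNat))) :=
    (Cp.of_prim Primrec.id).pair (((Cp.self x).comp (Cp.of_prim hu)).pair ((Cp.self x).comp (Cp.of_prim hv)))
  have h4 : Primrec fun q : ℕ => if q.unpair.1 % k = r then (q.unpair.2.unpair.1 + q.unpair.2.unpair.2) % 2
      else q.unpair.2.unpair.1 := by
    have a1 : Primrec fun q : ℕ => q.unpair.2.unpair.1 :=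
      Primrec.fst.comp (Primrec.unpair.comp (Primrec.snd.comp Primrec.unpair))
    have a2 : Primrec fun q : ℕ => q.unpair.2.unpair.2 :=
      Primrec.snd.comp (Primrec.unpair.comp (Primrec.snd.comp Primrec.unpair))
    refine Primrec.ite ?_ ?_ a1
    · exact Primrec.eq.comp (Primrec.nat_mod.comp (Primrec.fst.comp Primrec.unpair) (Primrec.const k)) (Primrec.const r)
    · exact Primrec.nat_mod.comp (Primrec.nat_add.comp a1 a2) (Primrec.const 2)
  have h5 := (Cp.of_prim (x := x) h4).comp h3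
  unfold Rd
  have e : (fun n => (y n).toNat) = fun n =>
      (if (Nat.pair n (Nat.pair ((x (u n)).toNat) ((x (v n)).toNat))).unpair.1 % k = r then
        ((Nat.pair n (Nat.pair ((x (u n)).toNat) ((x (v n)).toNat))).unpair.2.unpair.1 +
          (Nat.pair n (Nat.pair ((x (u n)).toNat) ((x (v n)).toNat))).unpair.2.unpair.2) % 2 else
        (Nat.pair n (Nat.pair ((x (u n)).toNat) ((x (v n)).toNat))).unpair.2.unpair.1) := by
    funext n
    rw [h n]
    simp only [Nat.unpair_pair]
    split_ifs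
    · cases x (u n) <;> cases x (v n) <;> rfl
    · rfl
  rw [e]
  exact h5

/-- decoding -/
def dec (w : Gp) : ℕ → Bool := fun n => decide (w n = 1)

theorem dec_meas : Measurable dec := by
  refine measurable_pi_lambda _ fun n => ?_
  have h : Measurable fun a : ZMod 2 => decide (a = 1) := measurable_from_top
  exact h.comp (measurable_pi_apply n)

theorem dec_add (a b : ZMod 2) : decide (a + b = 1) = xor (decide (a = 1)) (decide (b = 1)) := by
  revert a b
  decide

theorem rd_tw {r : ℕ} {φ : ℕ → ℕ} (hφ : Primrec φ) (w : Gp) :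
    Rd (dec (tw (fun n => n % 2 = r) φ w)) (dec w) := by
  refine rd_xor (dec w) _ 2 r id φ Primrec.id hφ fun n => ?_
  unfold dec tw
  by_cases hn : n % 2 = r
  · rw [if_pos hn, if_pos hn]
    exact dec_add _ _
  · rw [if_neg hn, if_neg hn]
    rfl

theorem rd_tw' {r : ℕ} {φ : ℕ → ℕ} (h : Adm (fun n => n % 2 = r) φ) (hφ : Primrec φ) (w : Gp) :
    Rd (dec w) (dec (tw (fun n => n % 2 = r) φ w)) := by
  have h1 := rd_tw (r := r) hφ (tw (fun n => n % 2 = r) φ w)
  rwa [tw_tw h] at h1

theorem ex_pair (p : Gp → Prop) (hc : ∀ᵐ w ∂mu, p w) (w0 : Gp) : ∃ y, p y ∧ p (y + w0) := by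
  have h1 : ∀ᵐ w ∂mu, p (w + w0) :=
    (measurePreserving_add_right mu w0).quasiMeasurePreserving.tendsto_ae.eventually hc
  exact (hc.and h1).exists

theorem rd_sum (z : ℕ → Bool) (y w0 : Gp) (hw0 : w0 = fun n => if z n then 1 else 0) :
    Rd z (jn (dec y) (dec (y + w0))) := by
  have p1 : Primrec fun n : ℕ => 2 * n + 1 := Primrec.succ.comp (Primrec.nat_mul.comp (Primrec.const 2) Primrec.id)
  have p0 : Primrec fun n : ℕ => 2 * n := Primrec.nat_mul.comp (Primrec.const 2) Primrec.id
  refine rd_xor _ z 1 0 (fun n => 2 * n) (fun n => 2 * n + 1) p0 p1 fun n => ?_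
  rw [if_pos (Nat.mod_one n)]
  have e1 : jn (dec y) (dec (y + w0)) (2 * n) = dec y n := by
    unfold jn
    rw [if_pos (by omega)]
    exact congrArg (dec y) (by omega)
  have e2 : jn (dec y) (dec (y + w0)) (2 * n + 1) = dec (y + w0) n := by
    unfold jn
    rw [if_neg (by omega)]
    exact congrArg (dec (y + w0)) (by omega)
  rw [e1, e2]
  have e3 : dec (y + w0) n = xor (dec y n) (dec w0 n) := dec_add _ _
  have e4 : dec w0 n = z n := by
    show decide (w0 n = 1) = z n
    rw [hw0]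
    show decide ((if z n then (1 : ZMod 2) else 0) = 1) = z n
    cases z n <;> decide
  rw [e3, e4]
  cases dec y n <;> cases z n <;> rfl

/-- a Borel homomorphism is almost everywhere eventually equal to one sequence -/
theorem hom_ae (f : (ℕ → Bool) → ℕ → Bool) (hf : Measurable f) (hom : ∀ x y, Rd x y → Rd y x → Ev (f x) (f y)) :
    ∃ c : ℕ → Bool, ∀ᵐ w ∂mu, Ev (f (dec w)) c := by
  have p1 : Primrec fun n : ℕ => 2 * n + 1 := Primrec.succ.comp (Primrec.nat_mul.comp (Primrec.const 2) Primrec.id)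
  have p2 : Primrec fun n : ℕ => 2 * n + 2 := Primrec.succ.comp p1
  have p3 : Primrec fun n : ℕ => 2 * n + 3 := Primrec.succ.comp p2
  have p0 : Primrec fun n : ℕ => 2 * n := Primrec.nat_mul.comp (Primrec.const 2) Primrec.id
  exact const_ae (fun w => f (dec w)) (hf.comp dec_meas)
    (fun w => hom _ _ (rd_tw' adm1 p1 w) (rd_tw p1 w)) (fun w => hom _ _ (rd_tw' adm3 p3 w) (rd_tw p3 w))
    (fun w => hom _ _ (rd_tw' adm0 p2 w) (rd_tw p2 w)) (fun w => hom _ _ (rd_tw' adm2 p0 w) (rd_tw p0 w))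

/-- a Borel homomorphism has one class whose preimage generates all degrees under joins of pairs -/
theorem main_pair (f : (ℕ → Bool) → ℕ → Bool) (hf : Measurable f) (hom : ∀ x y, Rd x y → Rd y x → Ev (f x) (f y)) :
    ∃ c : ℕ → Bool, ∀ z, ∃ x y, Ev (f x) c ∧ Ev (f y) c ∧ Rd z (jn x y) := by
  obtain ⟨c, hc⟩ := hom_ae f hf hom
  refine ⟨c, fun z => ?_⟩
  obtain ⟨y, hy1, hy2⟩ := ex_pair (fun w => Ev (f (dec w)) c) hc fun n => if z n then 1 else 0
  exact ⟨_, _, hy1, hy2, rd_sum z y _ rfl⟩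

/-- one of countably many classes is attained above every real -/
theorem main_cnt (f : (ℕ → Bool) → ℕ → Bool) (hf : Measurable f) (z0 : ℕ → Bool)
    (hom : ∀ x y, Rd z0 x → Rd x y → Rd y x → Ev (f x) (f y))
    (dir : ∀ c : ℕ → Bool, ∃ C : Set (ℕ → Bool), C.Countable ∧ ∀ x y, Rd z0 x → Rd z0 y → Ev (f x) c → Ev (f y) c →
      ∃ z, Rd x z ∧ Rd y z ∧ f z ∈ C) :
    ∃ c : ℕ → Bool, ∀ z, ∃ x, Rd z x ∧ Ev (f x) c := by
  have hj : Measurable fun w : ℕ → Bool => jn z0 w := by
    refine measurable_pi_lambda _ fun n => ?_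
    unfold jn
    by_cases h : n % 2 = 0
    · simp only [h, if_true]
      exact measurable_const
    · simp only [h, if_false]
      exact measurable_pi_apply _
  have hmon : ∀ x y, Rd x y → Rd (jn z0 x) (jn z0 y) := fun x y h => jn_rd (jn_l z0 y) (h.trans (jn_r z0 y))
  obtain ⟨c, hc⟩ := main_pair (fun w => f (jn z0 w)) (hf.comp hj)
    (fun x y h1 h2 => hom _ _ (jn_l z0 x) (hmon x y h1) (hmon y x h2))
  obtain ⟨C, hC, hdir⟩ := dir c
  -- above every real there is a real with image in `C`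
  have key : ∀ z, ∃ u, Rd z u ∧ f u ∈ C := by
    intro z
    obtain ⟨x, y, hx, hy, hz⟩ := hc z
    obtain ⟨u, hu1, hu2, hu3⟩ := hdir _ _ (jn_l z0 x) (jn_l z0 y) hx hy
    exact ⟨u, hz.trans (jn_rd ((jn_r z0 x).trans hu1) ((jn_r z0 y).trans hu2)), hu3⟩
  obtain ⟨u0, -, hu0⟩ := key fun _ => false
  obtain ⟨e, he⟩ := hC.exists_eq_range ⟨_, hu0⟩
  by_contra hcon
  push Not at hcon
  choose W hW using hcon
  obtain ⟨u, hu, huC⟩ := key fun p => W (e p.unpair.1) p.unpair.2
  rw [he] at huC
  obtain ⟨i, hi⟩ := huC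
  have h1 : Rd (W (e i)) fun p => W (e p.unpair.1) p.unpair.2 := by
    refine Rd.of_comp (fun n => Nat.pair i n) (Primrec₂.natPair.comp (Primrec.const i) Primrec.id) fun n => ?_
    show W (e i) n = W (e (Nat.pair i n).unpair.1) (Nat.pair i n).unpair.2
    rw [Nat.unpair_pair]
  refine hW (e i) u (h1.trans hu) ?_
  rw [hi]
  exact ⟨0, fun _ _ => rfl⟩

/-- with convex fibres -/
theorem main_cone (f : (ℕ → Bool) → ℕ → Bool) (c z0 : ℕ → Bool) (hc : ∀ z, ∃ x, Rd z x ∧ Ev (f x) c)
    (conv : ∀ x y z, Rd z0 x → Rd x y → Rd y z → Ev (f x) (f z) → Ev (f y) (f x)) :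
    ∃ z, ∀ x, Rd z x → Ev (f x) c := by
  obtain ⟨y, hy0, hy⟩ := hc z0
  refine ⟨y, fun x hx => ?_⟩
  obtain ⟨z, hz1, hz2⟩ := hc x
  exact (conv y x z hy0 hx hz1 (hy.trans hz2.symm)).trans hy

end Pool.Agent.Lib.MP_1a0a6e_lc
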