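import Mathlib

/-!
# MP_1a0a6e_lc: characters of `(ZMod 2)^ℕ`, Parseval for differences of indicators
-/

set_option autoImplicit false

open MeasureTheory Set Topology
open scoped symmDiff ENNReal

namespace Pool.Agent.Lib.MP_1a0a6e_lc

/-- the compact group `(ZMod 2)^ℕ` -/
abbrev Gp : Type := ℕ → ZMod 2

/-- its Haar probability measure -/
noncomputable def mu : Measure Gp := Measure.addHaarMeasure ⊤

instance : IsProbabilityMeasure mu := ⟨Measure.addHaarMeasure_self (K₀ := ⊤)⟩

instance : mu.IsAddHaarMeasure := by unfold mu; infer_instance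

/-- the sign -/
def sgn2 (a : ZMod 2) : ℝ := if a = 0 then 1 else -1

theorem z2_cases (a : ZMod 2) : a = 0 ∨ a = 1 := by
  revert a
  decide

theorem sgn2_add (a b : ZMod 2) : sgn2 (a + b) = sgn2 a * sgn2 b := by
  have h0 : sgn2 0 = 1 := if_pos rfl
  have h1 : sgn2 1 = -1 := if_neg (by decide)
  have h2 : (1 : ZMod 2) + 1 = 0 := by decide
  rcases z2_cases a with rfl | rfl <;> rcases z2_cases b with rfl | rfl
  · rw [add_zero, h0]; norm_num
  · rw [zero_add, h0, h1]; norm_num
  · rw [add_zero, h0, h1]; norm_num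
  · rw [h2, h0, h1]; norm_num

theorem sgn2_sq (a : ZMod 2) : sgn2 a * sgn2 a = 1 := by
  unfold sgn2
  split_ifs <;> norm_num

/-- the characters -/
def ch (S : Finset ℕ) (w : Gp) : ℝ := ∏ i ∈ S, sgn2 (w i)

theorem ch_mul_self (S : Finset ℕ) (w : Gp) : ch S w * ch S w = 1 := by
  unfold ch
  rw [← Finset.prod_mul_distrib]
  exact Finset.prod_eq_one fun i _ => sgn2_sq _

theorem ch_mul (S T : Finset ℕ) (w : Gp) : ch S w * ch T w = ch (S ∆ T) w := by
  have h1 : ch (S ∆ T) w * ch (S ∩ T) w = ch (S ∪ T) w := by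
    unfold ch
    rw [← Finset.prod_union]
    · congr 1
      ext i
      simp only [Finset.mem_union, Finset.mem_symmDiff, Finset.mem_inter]
      tauto
    · rw [Finset.disjoint_left]
      intro i hi hi2
      simp only [Finset.mem_symmDiff, Finset.mem_inter] at hi hi2
      tauto
  have h2 : ch (S ∪ T) w * ch (S ∩ T) w = ch S w * ch T w := by
    unfold ch
    exact Finset.prod_union_inter
  rw [← h2, ← h1, mul_assoc, ch_mul_self, mul_one]

theorem ch_empty (w : Gp) : ch ∅ w = 1 := Finset.prod_empty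

theorem ch_cont (S : Finset ℕ) : Continuous (ch S) := by
  have h : Continuous sgn2 := continuous_of_discreteTopology
  exact continuous_finsetProd _ fun i _ => h.comp (continuous_apply i)

/-- the characters as continuous maps -/
def chC (S : Finset ℕ) : C(Gp, ℝ) := ⟨ch S, ch_cont S⟩

theorem ch_int (S : Finset ℕ) (hS : S.Nonempty) : ∫ w, ch S w ∂mu = 0 := by
  obtain ⟨i, hi⟩ := hS
  have h1 : ∀ w : Gp, ch S (w + Pi.single i 1) = - ch S w := by
    intro w
    unfold ch
    rw [← Finset.mul_prod_erase _ _ hi, ← Finset.mul_prod_erase S (fun j => sgn2 (w j)) hi]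
    have h2 : ∏ j ∈ S.erase i, sgn2 ((w + Pi.single i 1 : Gp) j) = ∏ j ∈ S.erase i, sgn2 (w j) := by
      refine Finset.prod_congr rfl fun j hj => ?_
      rw [Pi.add_apply, Pi.single_eq_of_ne (Finset.ne_of_mem_erase hj), add_zero]
    rw [h2, Pi.add_apply, Pi.single_eq_same, sgn2_add]
    have h3 : sgn2 1 = -1 := by
      unfold sgn2
      rw [if_neg (by decide)]
    rw [h3]
    ring
  have h2 : ∫ w, ch S (w + Pi.single i 1) ∂mu = ∫ w, ch S w ∂mu := integral_add_right_eq_self _ _
  simp only [h1, integral_neg] at h2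
  linarith

theorem ch_orth (S T : Finset ℕ) : ∫ w, ch S w * ch T w ∂mu = if S = T then 1 else 0 := by
  simp only [ch_mul]
  split_ifs with h
  · subst h
    rw [symmDiff_self]
    simp [ch_empty]
  · refine ch_int _ (Finset.nonempty_iff_ne_empty.2 fun h1 => h ?_)
    exact symmDiff_eq_bot.1 h1

/-- the characters in `L^2` -/
noncomputable def eL (S : Finset ℕ) : Lp ℝ 2 mu := ContinuousMap.toLp (E := ℝ) 2 mu ℝ (chC S)

theorem eL_coe (S : Finset ℕ) : eL S =ᵐ[mu] ch S := ContinuousMap.coeFn_toLp (p := 2) mu (𝕜 := ℝ) (chC S)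

theorem eL_orth : Orthonormal ℝ eL := by
  classical
  rw [orthonormal_iff_ite]
  intro S T
  rw [L2.inner_def]
  have h : ∫ w, inner ℝ (eL S w) (eL T w) ∂mu = ∫ w, ch S w * ch T w ∂mu := by
    refine integral_congr_ae ?_
    filter_upwards [eL_coe S, eL_coe T] with w h1 h2
    rw [h1, h2, RCLike.inner_apply, conj_trivial, mul_comm]
  rw [h, ch_orth]

/-- the algebra spanned by the characters -/
noncomputable def chA : Subalgebra ℝ C(Gp, ℝ) := Algebra.adjoin ℝ (range chC)

theorem chA_coe : Subalgebra.toSubmodule chA = Submodule.span ℝ (range chC) := by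
  apply Algebra.adjoin_eq_span_of_subset
  refine Subset.trans ?_ Submodule.subset_span
  intro x hx
  refine Submonoid.closure_induction (fun _ => id) ⟨∅, ?_⟩ ?_ hx
  · ext1 w
    exact ch_empty w
  · rintro - - - - ⟨S, rfl⟩ ⟨T, rfl⟩
    refine ⟨S ∆ T, ?_⟩
    ext1 w
    exact (ch_mul S T w).symm

theorem chA_sep : chA.SeparatesPoints := by
  intro x y hxy
  obtain ⟨i, hi⟩ := Function.ne_iff.1 hxy
  refine ⟨_, ⟨chC {i}, Algebra.subset_adjoin ⟨{i}, rfl⟩, rfl⟩, ?_⟩
  show ch {i} x ≠ ch {i} y
  unfold ch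
  rw [Finset.prod_singleton, Finset.prod_singleton]
  have h0 : sgn2 0 = 1 := if_pos rfl
  have h1 : sgn2 1 = -1 := if_neg (by decide)
  rcases z2_cases (x i) with hx | hx <;> rcases z2_cases (y i) with hy | hy <;> rw [hx, hy]
  · exact absurd (hx.trans hy.symm) hi
  · rw [h0, h1]; norm_num
  · rw [h0, h1]; norm_num
  · exact absurd (hx.trans hy.symm) hi

theorem span_eL : (Submodule.span ℝ (range eL)).topologicalClosure = ⊤ := by
  have h1 : (Submodule.span ℝ (range chC)).topologicalClosure = ⊤ := by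
    rw [← chA_coe]
    exact congr_arg Subalgebra.toSubmodule
      (ContinuousMap.subalgebra_topologicalClosure_eq_top_of_separatesPoints chA chA_sep)
  have h2 := (ContinuousMap.toLp_denseRange ℝ mu ℝ (p := 2) (by norm_num)).topologicalClosure_map_submodule h1
  rw [Submodule.map_span, ← range_comp] at h2
  exact h2

/-- the basis -/
noncomputable def bas : HilbertBasis (Finset ℕ) ℝ (Lp ℝ 2 mu) := HilbertBasis.mk eL_orth span_eL.ge

theorem bas_coe (S : Finset ℕ) : bas S = eL S := by
  unfold bas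
  rw [HilbertBasis.coe_mk]

/-- the coefficients of a set -/
noncomputable def cf (A : Set Gp) (S : Finset ℕ) : ℝ := ∫ w in A, ch S w ∂mu

theorem parseval (A B : Set Gp) (hA : MeasurableSet A) (hB : MeasurableSet B) :
    HasSum (fun S => (cf A S - cf B S) ^ 2) (mu.real (A ∆ B)) := by
  have hmA : MemLp (A.indicator fun _ => (1 : ℝ)) 2 mu := memLp_indicator_const 2 hA 1 (Or.inr (measure_ne_top _ _))
  have hmB : MemLp (B.indicator fun _ => (1 : ℝ)) 2 mu := memLp_indicator_const 2 hB 1 (Or.inr (measure_ne_top _ _))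
  set x : Lp ℝ 2 mu := (hmA.sub hmB).toLp _ with hx
  have hxc : x =ᵐ[mu] fun w => A.indicator (fun _ => (1 : ℝ)) w - B.indicator (fun _ => (1 : ℝ)) w :=
    (hmA.sub hmB).coeFn_toLp
  have hin : ∀ S, inner ℝ (eL S) x = cf A S - cf B S := by
    intro S
    rw [L2.inner_def]
    have h1 : ∫ w, inner ℝ (eL S w) (x w) ∂mu =
        ∫ w, (A.indicator (ch S) w - B.indicator (ch S) w) ∂mu := by
      refine integral_congr_ae ?_
      filter_upwards [eL_coe S, hxc] with w h1 h2
      rw [h1, h2, RCLike.inner_apply, conj_trivial]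
      by_cases hwA : w ∈ A <;> by_cases hwB : w ∈ B <;> simp [hwA, hwB]
    have hi : Integrable (ch S) mu := (ch_cont S).integrable_of_hasCompactSupport (HasCompactSupport.of_compactSpace _)
    rw [h1, integral_sub (hi.indicator hA) (hi.indicator hB), integral_indicator hA, integral_indicator hB]
    rfl
  have hxx : inner ℝ x x = mu.real (A ∆ B) := by
    rw [L2.inner_def]
    have h1 : ∫ w, inner ℝ (x w) (x w) ∂mu = ∫ w, (A ∆ B).indicator (fun _ => (1 : ℝ)) w ∂mu := by
      refine integral_congr_ae ?_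
      filter_upwards [hxc] with w h2
      rw [h2, RCLike.inner_apply, conj_trivial]
      by_cases hwA : w ∈ A <;> by_cases hwB : w ∈ B <;> simp [hwA, hwB, mem_symmDiff]
    rw [h1, integral_indicator (hA.symmDiff hB)]
    simp
  have h := bas.hasSum_inner_mul_inner x x
  rw [hxx] at h
  have e : (fun S => inner ℝ x (bas S) * inner ℝ (bas S) x) = fun S => (cf A S - cf B S) ^ 2 := by
    funext S
    rw [real_inner_comm (bas S) x, bas_coe, hin]
    ring
  rw [e] at h
  exact h

end Pool.Agent.Lib.MP_1a0a6e_lc
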