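import Pool.Agent.Lib.MP_1a0a6e_lc.Spx

/-!
# MP_1a0a6e_lc: computable choice with countably many constraints

`sel_cnt`: `L a` continuous and measure preserving, `M a` continuous, `K a` closed, the complements of the `K a` of total
measure below `1`. There is a real `t` such that for every `z ≥_T t` there is some `x ≤_T z` with `L a x + M a z ∈ K a`
for all `a`.
-/

set_option autoImplicit false

open MeasureTheory Set Topology
open scoped symmDiff ENNReal NNReal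

namespace Pool.Agent.Lib.MP_1a0a6e_lc

theorem sel_cnt (K : ℕ → Set Gp) (hK : ∀ a, IsClosed (K a)) (L M : ℕ → Gp → Gp)
    (hL : ∀ a, MeasurePreserving (L a) mu mu) (hLc : ∀ a, Continuous (L a)) (hM : ∀ a, Continuous (M a))
    (hmu : ∑' a, mu (K a)ᶜ < 1) :
    ∃ t : ℕ → Bool, ∀ z, Rd t z → ∃ x, Rd x z ∧ ∀ a, L a (en x) + M a (en z) ∈ K a := by
  have hmp : ∀ a v, MeasurePreserving (fun w => L a w + v) mu mu := fun a v =>
    (measurePreserving_add_right mu v).comp (hL a)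
  have hstart : ∀ z : ℕ → Bool, 0 < mu {w | Cy 0 (tb 0) (dec w) ∧ w ∈ {w | ∀ a, L a w + M a (en z) ∈ K a}} := by
    intro z
    by_contra h
    have h1 := le_antisymm (not_lt.1 h) bot_le
    have hsub : (univ : Set Gp) ⊆ {w | Cy 0 (tb 0) (dec w) ∧ w ∈ {w | ∀ a, L a w + M a (en z) ∈ K a}} ∪
        ⋃ a, (fun w => L a w + M a (en z)) ⁻¹' (K a)ᶜ := by
      intro w _
      by_cases h2 : ∀ a, L a w + M a (en z) ∈ K a
      · exact Or.inl ⟨fun n hn => absurd hn (by omega), h2⟩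
      · push Not at h2
        obtain ⟨a, ha⟩ := h2
        exact Or.inr (Set.mem_iUnion.2 ⟨a, ha⟩)
    have h2 := le_trans (measure_mono (μ := mu) hsub) (measure_union_le _ _)
    have h4 : mu (⋃ a, (fun w => L a w + M a (en z)) ⁻¹' (K a)ᶜ) ≤
        ∑' a, mu ((fun w => L a w + M a (en z)) ⁻¹' (K a)ᶜ) := measure_iUnion_le _
    have h5 : ∀ a, mu ((fun w => L a w + M a (en z)) ⁻¹' (K a)ᶜ) = mu (K a)ᶜ := fun a =>
      (hmp a _).measure_preimage (hK a).measurableSet.compl.nullMeasurableSet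
    simp only [h5] at h4
    rw [h1, zero_add, measure_univ] at h2
    exact absurd (lt_of_le_of_lt (h2.trans h4) hmu) (lt_irrefl _)
  have hop : ∀ (i c : ℕ) (z : ℕ → Bool), 0 < mu {w | Cy i (tb c) (dec w) ∧ w ∈ {w | ∀ a, L a w + M a (en z) ∈ K a}} →
      ∃ N, ∀ z', Cy N z z' → 0 < mu {w | Cy i (tb c) (dec w) ∧ w ∈ {w | ∀ a, L a w + M a (en z') ∈ K a}} := by
    intro i c z h
    set δ := mu {w | Cy i (tb c) (dec w) ∧ w ∈ {w | ∀ a, L a w + M a (en z) ∈ K a}} with hδ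
    have hδ2 : 0 < δ / 2 := ENNReal.div_pos h.ne' (by norm_num)
    obtain ⟨ε, hε0, hε⟩ := ENNReal.exists_pos_sum_of_countable hδ2.ne' ℕ
    have hj : ∀ a, ∃ j, mu (nb (K a) j \ K a) < ε a := fun a =>
      nb_small (K a) (hK a) (ε a) (by exact_mod_cast hε0 a)
    choose j hj using hj
    have htail := (ENNReal.tendsto_tsum_compl_atTop_zero (f := fun a => mu (K a)ᶜ)
      (ne_of_lt (lt_trans hmu ENNReal.one_lt_top))).eventually (gt_mem_nhds hδ2)
    obtain ⟨s, hs⟩ := htail.exists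
    have hev : ∀ᶠ z' in 𝓝 z, ∀ a ∈ s, ∀ l ∈ Finset.range (j a), M a (en z') l = M a (en z) l := by
      rw [Filter.eventually_all_finset]
      intro a _
      rw [Filter.eventually_all_finset]
      intro l _
      have hcont : Continuous fun z' : ℕ → Bool => M a (en z') l :=
        (continuous_apply l).comp ((hM a).comp en_cont)
      exact hcont.continuousAt.eventually ((isOpen_discrete {M a (en z) l}).mem_nhds rfl)
    obtain ⟨N, hN⟩ := cyl_nhds z _ hev
    refine ⟨N, fun z' hz' => ?_⟩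
    have hM' : ∀ a ∈ s, ∀ l ∈ Finset.range (j a), M a (en z') l = M a (en z) l := hN z' hz'
    by_contra hcon
    have h1 := le_antisymm (not_lt.1 hcon) bot_le
    have hsub : {w | Cy i (tb c) (dec w) ∧ w ∈ {w | ∀ a, L a w + M a (en z) ∈ K a}} ⊆
        ({w | Cy i (tb c) (dec w) ∧ w ∈ {w | ∀ a, L a w + M a (en z') ∈ K a}} ∪
        ⋃ a, (fun w => L a w + M a (en z')) ⁻¹' (nb (K a) (j a) \ K a)) ∪
        ⋃ a : {x // x ∉ s}, (fun w => L a w + M a (en z')) ⁻¹' (K a)ᶜ := by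
      rintro w ⟨hw1, hw2⟩
      by_cases h3 : ∀ a, L a w + M a (en z') ∈ K a
      · exact Or.inl (Or.inl ⟨hw1, h3⟩)
      · push Not at h3
        obtain ⟨a, ha⟩ := h3
        by_cases has : a ∈ s
        · refine Or.inl (Or.inr (Set.mem_iUnion.2 ⟨a, ⟨L a w + M a (en z), hw2 a, fun l hl => ?_⟩, ha⟩))
          show L a w l + M a (en z') l = L a w l + M a (en z) l
          rw [hM' a has l (Finset.mem_range.2 hl)]
        · exact Or.inr (Set.mem_iUnion.2 ⟨⟨a, has⟩, ha⟩)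
    have h2 : δ ≤ _ := le_trans (measure_mono (μ := mu) hsub) (measure_union_le _ _)
    have h3 := measure_union_le (μ := mu) {w | Cy i (tb c) (dec w) ∧ w ∈ {w | ∀ a, L a w + M a (en z') ∈ K a}}
      (⋃ a, (fun w => L a w + M a (en z')) ⁻¹' (nb (K a) (j a) \ K a))
    rw [h1, zero_add] at h3
    have h4 : mu (⋃ a, (fun w => L a w + M a (en z')) ⁻¹' (nb (K a) (j a) \ K a)) < δ / 2 := by
      refine lt_of_le_of_lt (measure_iUnion_le _) (lt_of_le_of_lt (ENNReal.tsum_le_tsum fun a => ?_) hε)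
      rw [(hmp a _).measure_preimage ((nb_open (K a) (j a)).measurableSet.diff (hK a).measurableSet).nullMeasurableSet]
      exact (hj a).le
    have h5 : mu (⋃ a : {x // x ∉ s}, (fun w => L a w + M a (en z')) ⁻¹' (K a)ᶜ) < δ / 2 := by
      refine lt_of_le_of_lt (measure_iUnion_le _) (lt_of_le_of_lt (ENNReal.tsum_le_tsum fun a => ?_) hs)
      rw [(hmp a _).measure_preimage (hK a).measurableSet.compl.nullMeasurableSet]
    have h6 : δ < δ / 2 + δ / 2 := lt_of_le_of_lt (h2.trans (add_le_add_left h3 _)) (ENNReal.add_lt_add h4 h5)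
    rw [ENNReal.add_halves] at h6
    exact lt_irrefl _ h6
  obtain ⟨t, ht⟩ := search (fun i c z => 0 < mu {w | Cy i (tb c) (dec w) ∧ w ∈ {w | ∀ a, L a w + M a (en z) ∈ K a}})
    hstart (fun i c z h => pos_ext _ i c h) hop
  refine ⟨t, fun z hz => ?_⟩
  obtain ⟨x, hx, hxc⟩ := ht z hz
  refine ⟨x, hx, fun a => ?_⟩
  by_contra h
  have hcl : IsClosed {w | L a w + M a (en z) ∈ K a} := by
    have h1 : Continuous fun w => L a w + M a (en z) := by
      have h2 : Continuous fun p : Gp × Gp => p.1 + p.2 := continuous_add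
      exact h2.comp ((hLc a).prodMk continuous_const)
    exact (hK a).preimage h1
  obtain ⟨k, hk⟩ := cyl_nhds (en x) {w | L a w + M a (en z) ∈ K a}ᶜ (hcl.isOpen_compl.mem_nhds h)
  obtain ⟨c, hc1, hc2⟩ := hxc k
  have h1 : ({w | Cy k (tb c) (dec w) ∧ w ∈ {w | ∀ a, L a w + M a (en z) ∈ K a}} : Set Gp).Nonempty := by
    by_contra h2
    rw [Set.not_nonempty_iff_eq_empty] at h2
    rw [h2, measure_empty] at hc1
    exact lt_irrefl _ hc1
  obtain ⟨w, hw1, hw2⟩ := h1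
  refine hk w (fun l hl => en_of_dec ?_) (hw2 a)
  rw [hw1 l hl, hc2 l hl]

theorem main_inf (f : (ℕ → Bool) → ℕ → Bool) (hf : Measurable f) (hom : ∀ x y, Rd x y → Rd y x → Ev (f x) (f y)) :
    ∃ c : ℕ → Bool, ∀ (L M : ℕ → Gp → Gp), (∀ a, MeasurePreserving (L a) mu mu) →
      (∀ a, Continuous (L a)) → (∀ a, Continuous (M a)) →
      ∃ t : ℕ → Bool, ∀ z, Rd t z → ∃ x, Rd x z ∧ ∀ a, Ev (f (dec (L a (en x) + M a (en z)))) c := by
  obtain ⟨c, hc⟩ := hom_ae f hf hom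
  refine ⟨c, fun L M hL hLc hM => ?_⟩
  rw [ae_iff] at hc
  obtain ⟨ε, hε0, hε⟩ := ENNReal.exists_pos_sum_of_countable (one_ne_zero (α := ℝ≥0∞)) ℕ
  have hU : ∀ a, ∃ U, {w | ¬ Ev (f (dec w)) c} ⊆ U ∧ IsOpen U ∧ mu U < ε a := fun a =>
    Set.exists_isOpen_lt_of_lt {w | ¬ Ev (f (dec w)) c} (ε a) (by
      rw [hc]
      exact_mod_cast hε0 a)
  choose U hU1 hU2 hU3 using hU
  have hmu : ∑' a, mu ((U a)ᶜ)ᶜ < 1 := by
    refine lt_of_le_of_lt (ENNReal.tsum_le_tsum fun a => ?_) hε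
    rw [compl_compl]
    exact (hU3 a).le
  have hK : ∀ a, ∀ w ∈ (U a)ᶜ, Ev (f (dec w)) c := fun a w hw => by
    by_contra h
    exact hw (hU1 a h)
  obtain ⟨t, ht⟩ := sel_cnt (fun a => (U a)ᶜ) (fun a => (hU2 a).isClosed_compl) L M hL hLc hM hmu
  refine ⟨t, fun z hz => ?_⟩
  obtain ⟨x, hxz, hx⟩ := ht z hz
  exact ⟨x, hxz, fun a => hK a _ (hx a)⟩

end Pool.Agent.Lib.MP_1a0a6e_lc
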