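import Pool.Agent.Lib.MP_1a0a6e_lc.Inf

/-!
# MP_1a0a6e_lc: every real of a cone is a join of infinitely many reals, with countably many subjoins in one fibre
-/

set_option autoImplicit false

open MeasureTheory Set Topology
open scoped symmDiff ENNReal

namespace Pool.Agent.Lib.MP_1a0a6e_lc

/-! ### counting the cells of the columns in `S` -/

/-- the cell `m` is in a column of `S` -/
def ps (S : ℕ → Bool) (m : ℕ) : Prop := S m.unpair.1 = true

instance (S : ℕ → Bool) : DecidablePred (ps S) := fun m => inferInstanceAs (Decidable (S m.unpair.1 = true))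

/-- the number of cells before `m` -/
def ct (S : ℕ → Bool) (m : ℕ) : ℕ := Nat.count (ps S) m

/-- the `k`-th cell -/
noncomputable def nt (S : ℕ → Bool) (k : ℕ) : ℕ := Nat.nth (ps S) k

theorem ps_inf {S : ℕ → Bool} {i : ℕ} (h : S i = true) : (Set.ofPred (ps S)).Infinite :=
  Set.infinite_of_injective_forall_mem (f := fun n => Nat.pair i n) (fun _ _ hab => (Nat.pair_eq_pair.1 hab).2)
    fun n => by
      show S (Nat.pair i n).unpair.1 = true
      rw [Nat.unpair_pair]
      exact h

theorem nt_mem {S : ℕ → Bool} {i : ℕ} (h : S i = true) (k : ℕ) : ps S (nt S k) :=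
  Nat.nth_mem_of_infinite (ps_inf h) k

theorem ct_nt {S : ℕ → Bool} {i : ℕ} (h : S i = true) (k : ℕ) : ct S (nt S k) = k :=
  Nat.count_nth_of_infinite (ps_inf h) k

theorem nt_ct {S : ℕ → Bool} {m : ℕ} (h : ps S m) : nt S (ct S m) = m := Nat.nth_count h

theorem le_nt {S : ℕ → Bool} {i : ℕ} (h : S i = true) (k : ℕ) : k ≤ nt S k :=
  (Nat.nth_strictMono (ps_inf h)).le_apply

/-! ### the coding -/

/-- diagonal cells above `j` -/
def dg (j m : ℕ) : Prop := m.unpair.1 = m.unpair.2 ∧ j < m.unpair.2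

instance (j : ℕ) : DecidablePred (dg j) := fun m =>
  inferInstanceAs (Decidable (m.unpair.1 = m.unpair.2 ∧ j < m.unpair.2))

/-- the sum of the cells of row `n` in columns below `n` -/
def sm (x : Gp) (n : ℕ) : ZMod 2 := ∑ l ∈ Finset.range n, x (Nat.pair l n)

/-- the part of `x` in the compressed join -/
noncomputable def Li (S : ℕ → Bool) (j : ℕ) (x : Gp) : Gp :=
  fun k => if dg j (nt S k) then sm x (nt S k).unpair.2 else x (nt S k)

/-- the part of `z` in the compressed join -/
noncomputable def Mi (S : ℕ → Bool) (j : ℕ) (z : Gp) : Gp :=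
  fun k => if dg j (nt S k) then z (nt S k).unpair.2 else 0

/-- the family -/
def Yi (x z : Gp) (i : ℕ) : Gp := fun n => if i = n then z n + sm x n else x (Nat.pair i n)

theorem Li_cont (S : ℕ → Bool) (j : ℕ) : Continuous (Li S j) := by
  refine continuous_pi fun k => ?_
  unfold Li sm
  by_cases h : dg j (nt S k)
  · simp only [h, if_true]
    exact continuous_finsetSum _ fun l _ => continuous_apply _
  · simp only [h, if_false]
    exact continuous_apply _

theorem Mi_cont (S : ℕ → Bool) (j : ℕ) : Continuous (Mi S j) := by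
  refine continuous_pi fun k => ?_
  unfold Mi
  by_cases h : dg j (nt S k)
  · simp only [h, if_true]
    exact continuous_apply _
  · simp only [h, if_false]
    exact continuous_const

theorem Li_add (S : ℕ → Bool) (j : ℕ) (x y : Gp) : Li S j (x + y) = Li S j x + Li S j y := by
  funext k
  show (if dg j (nt S k) then sm (x + y) (nt S k).unpair.2 else (x + y) (nt S k)) =
    (if dg j (nt S k) then sm x (nt S k).unpair.2 else x (nt S k)) +
      (if dg j (nt S k) then sm y (nt S k).unpair.2 else y (nt S k))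
  by_cases h : dg j (nt S k)
  · rw [if_pos h, if_pos h, if_pos h]
    unfold sm
    rw [← Finset.sum_add_distrib]
    rfl
  · rw [if_neg h, if_neg h, if_neg h]
    rfl

/-- `Li` as a homomorphism -/
noncomputable def LiH (S : ℕ → Bool) (j : ℕ) : Gp →+ Gp where
  toFun := Li S j
  map_zero' := by
    have h := Li_add S j 0 0
    rw [add_zero, gp_add_self] at h
    exact h
  map_add' := Li_add S j

theorem Li_surj (S : ℕ → Bool) (j i : ℕ) (h0 : S i = true) (hj : S j = false) : Function.Surjective (Li S j) := by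
  intro v
  let a : ℕ → ℕ → ZMod 2 := fun i n => if S i = true then v (ct S (Nat.pair i n)) else 0
  let x : Gp := fun m => if m.unpair.1 = j ∧ j < m.unpair.2 then
    a m.unpair.2 m.unpair.2 + ∑ l ∈ (Finset.range m.unpair.2).erase j, a l m.unpair.2 else a m.unpair.1 m.unpair.2
  have hx : ∀ i n, x (Nat.pair i n) = if i = j ∧ j < n then
      a n n + ∑ l ∈ (Finset.range n).erase j, a l n else a i n := by
    intro i n
    show (if (Nat.pair i n).unpair.1 = j ∧ j < (Nat.pair i n).unpair.2 then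
      a (Nat.pair i n).unpair.2 (Nat.pair i n).unpair.2 +
        ∑ l ∈ (Finset.range (Nat.pair i n).unpair.2).erase j, a l (Nat.pair i n).unpair.2
      else a (Nat.pair i n).unpair.1 (Nat.pair i n).unpair.2) = _
    simp only [Nat.unpair_pair]
  have hsm : ∀ n, j < n → sm x n = a n n := by
    intro n hn
    unfold sm
    rw [← Finset.add_sum_erase (Finset.range n) (fun l => x (Nat.pair l n)) (Finset.mem_range.2 hn)]
    have h1 : ∑ l ∈ (Finset.range n).erase j, x (Nat.pair l n) = ∑ l ∈ (Finset.range n).erase j, a l n :=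
      Finset.sum_congr rfl fun l hl => by
        rw [hx, if_neg]
        exact fun h => (Finset.mem_erase.1 hl).1 h.1
    rw [h1, hx, if_pos ⟨rfl, hn⟩, add_assoc, CharTwo.add_self_eq_zero, add_zero]
  refine ⟨x, funext fun k => ?_⟩
  have hk : S (nt S k).unpair.1 = true := nt_mem h0 k
  have hv : a (nt S k).unpair.1 (nt S k).unpair.2 = v k := by
    show (if S (nt S k).unpair.1 = true then v (ct S (Nat.pair (nt S k).unpair.1 (nt S k).unpair.2)) else 0) = v k
    rw [if_pos hk, Nat.pair_unpair, ct_nt h0]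
  show (if dg j (nt S k) then sm x (nt S k).unpair.2 else x (nt S k)) = v k
  by_cases h : dg j (nt S k)
  · rw [if_pos h, hsm _ h.2, ← hv, h.1]
  · rw [if_neg h, ← hv]
    refine if_neg fun h2 => ?_
    rw [h2.1, hj] at hk
    exact Bool.false_ne_true hk

theorem Li_mp (S : ℕ → Bool) (j i : ℕ) (h0 : S i = true) (hj : S j = false) : MeasurePreserving (Li S j) mu mu :=
  AddMonoidHom.measurePreserving (f := LiH S j) (Li_cont S j) (Li_surj S j i h0 hj) rfl

/-- the join over `S` -/
def Ji (S : ℕ → Bool) (X : ℕ → ℕ → Bool) : ℕ → Bool :=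
  fun m => if S m.unpair.1 = true then X m.unpair.1 m.unpair.2 else false

theorem comp_ev (S : ℕ → Bool) (j i : ℕ) (h0 : S i = true) (x z : Gp) :
    Ev (dec (Li S j x + Mi S j z)) fun k => Ji S (fun i => dec (Yi x z i)) (nt S k) := by
  refine ⟨Nat.pair j j + 1, fun k hk => ?_⟩
  have hm : S (nt S k).unpair.1 = true := nt_mem h0 k
  have hle := le_nt h0 k
  show decide ((if dg j (nt S k) then sm x (nt S k).unpair.2 else x (nt S k)) +
      (if dg j (nt S k) then z (nt S k).unpair.2 else 0) = 1) =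
    if S (nt S k).unpair.1 = true then
      decide ((if (nt S k).unpair.1 = (nt S k).unpair.2 then z (nt S k).unpair.2 + sm x (nt S k).unpair.2
        else x (Nat.pair (nt S k).unpair.1 (nt S k).unpair.2)) = 1) else false
  rw [if_pos hm, Nat.pair_unpair]
  by_cases h : (nt S k).unpair.1 = (nt S k).unpair.2
  · have h2 : j < (nt S k).unpair.2 := by
      by_contra hcon
      have h3 : nt S k ≤ Nat.pair j j := by
        rw [← Nat.pair_unpair (nt S k), h]
        rcases (not_lt.1 hcon).lt_or_eq with h5 | h5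
        · exact ((Nat.pair_lt_pair_left _ h5).trans (Nat.pair_lt_pair_right _ h5)).le
        · rw [h5]
      omega
    have h3 : dg j (nt S k) := ⟨h, h2⟩
    rw [if_pos h3, if_pos h3, if_pos h, add_comm]
  · have h3 : ¬ dg j (nt S k) := fun h4 => h h4.1
    rw [if_neg h3, if_neg h3, if_neg h, add_zero]

/-! ### computability -/

theorem ev_rd {a b : ℕ → Bool} (h : Ev a b) : Rd a b := by
  obtain ⟨N, hN⟩ := h
  have e1 : a = pre N a fun n => b (n + N) := by
    funext n
    unfold pre
    by_cases hn : n < N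
    · rw [if_pos hn]
    · rw [if_neg hn, hN n (by omega)]
      exact congrArg b (by omega)
  have e2 : b = pre N b fun n => b (n + N) := by
    funext n
    unfold pre
    by_cases hn : n < N
    · rw [if_pos hn]
    · rw [if_neg hn]
      exact congrArg b (by omega)
  have h1 := (pre_rd N a fun n => b (n + N)).1
  have h2 := (pre_rd N b fun n => b (n + N)).2
  rw [← e1] at h1
  rw [← e2] at h2
  exact h1.trans h2

theorem p1 : Primrec fun q : ℕ => q.unpair.1 := Primrec.fst.comp Primrec.unpair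

theorem p2 : Primrec fun q : ℕ => q.unpair.2 := Primrec.snd.comp Primrec.unpair

theorem ct_cp (S : ℕ → Bool) : Cp S (ct S) := by
  have h1 : Cp S (fun q => q.unpair.2.unpair.2 + (S q.unpair.2.unpair.1.unpair.1).toNat) := by
    have a3 := (Cp.of_prim (x := S) (p2.comp p2)).pair ((Cp.self S).comp (Cp.of_prim (p1.comp (p1.comp p2))))
    have a4 : Primrec fun q : ℕ => q.unpair.1 + q.unpair.2 := Primrec.nat_add.comp p1 p2
    have a5 := (Cp.of_prim (x := S) a4).comp a3
    simpa only [Nat.unpair_pair] using a5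
  have h2 := Cp.prec (Cp.of_prim (x := S) (Primrec.const 0)) h1
  have h3 : Primrec fun N : ℕ => Nat.pair 0 N := Primrec₂.natPair.comp (Primrec.const 0) Primrec.id
  have h4 := h2.comp (Cp.of_prim h3)
  have e : ct S = fun N => Nat.rec 0 (fun n c => c + (S n.unpair.1).toNat) N := by
    funext N
    induction N with
    | zero => exact Nat.count_zero _
    | succ N ih =>
      show Nat.count (ps S) (N + 1) = (Nat.rec 0 (fun n c => c + (S n.unpair.1).toNat) N : ℕ) + (S N.unpair.1).toNat
      rw [Nat.count_succ, ← ih]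
      by_cases h : ps S N
      · have h' : S N.unpair.1 = true := h
        rw [if_pos h, h']
        rfl
      · have h' : S N.unpair.1 = false := Bool.eq_false_iff.2 h
        rw [if_neg h, h']
        rfl
  rw [e]
  simpa only [Nat.unpair_pair] using h4

theorem nt_cp {S : ℕ → Bool} {i : ℕ} (h0 : S i = true) : Cp S (nt S) := by
  have a1 : Cp S fun q => Nat.pair q.unpair.1 (Nat.pair (S q.unpair.2.unpair.1).toNat (ct S q.unpair.2)) :=
    (Cp.of_prim p1).pair (((Cp.self S).comp (Cp.of_prim (p1.comp p2))).pair ((ct_cp S).comp (Cp.of_prim p2)))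
  have a2 : Primrec fun q : ℕ => if q.unpair.2.unpair.1 = 1 ∧ q.unpair.2.unpair.2 = q.unpair.1 then 0 else 1 :=
    Primrec.ite ((Primrec.eq.comp (p1.comp p2) (Primrec.const 1)).and (Primrec.eq.comp (p2.comp p2) p1))
      (Primrec.const 0) (Primrec.const 1)
  have a3 : Cp S fun q => if (S q.unpair.2.unpair.1).toNat = 1 ∧ ct S q.unpair.2 = q.unpair.1 then 0 else 1 := by
    have a4 := (Cp.of_prim (x := S) a2).comp a1
    simpa only [Nat.unpair_pair] using a4
  refine Cp.rfind a3 (fun k => ?_) fun k m hm => ?_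
  · have hk : S (nt S k).unpair.1 = true := nt_mem h0 k
    simp only [Nat.unpair_pair]
    rw [if_pos ⟨by rw [hk]; rfl, ct_nt h0 k⟩]
  · simp only [Nat.unpair_pair]
    rw [if_neg]
    · exact one_ne_zero
    · rintro ⟨h1, h2⟩
      have h3 : S m.unpair.1 = true := by
        revert h1
        cases S m.unpair.1 <;> simp
      have h4 : nt S (ct S m) = m := nt_ct h3
      rw [h2] at h4
      omega

/-- parities of rows -/
def pr (w : ℕ → Bool) (n e : ℕ) : ℕ := Nat.rec 0 (fun l c => (c + (w (Nat.pair l n)).toNat) % 2) e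

theorem pr_cp (w : ℕ → Bool) : Cp w fun q => pr w q.unpair.1 q.unpair.2 := by
  have h1 : Cp w (fun q => (q.unpair.2.unpair.2 + (w (Nat.pair q.unpair.2.unpair.1 q.unpair.1)).toNat) % 2) := by
    have a3 := (Cp.of_prim (x := w) (p2.comp p2)).pair
      ((Cp.self w).comp (Cp.of_prim (Primrec₂.natPair.comp (p1.comp p2) p1)))
    have a4 : Primrec fun q : ℕ => (q.unpair.1 + q.unpair.2) % 2 :=
      Primrec.nat_mod.comp (Primrec.nat_add.comp p1 p2) (Primrec.const 2)
    have a5 := (Cp.of_prim (x := w) a4).comp a3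
    simpa only [Nat.unpair_pair] using a5
  have h2 := Cp.prec (Cp.of_prim (x := w) (Primrec.const 0)) h1
  show Cp w fun q => Nat.rec 0 (fun l c => (c + (w (Nat.pair l q.unpair.1)).toNat) % 2) q.unpair.2
  simpa only [Nat.unpair_pair] using h2

theorem tz (c : ℕ) (a : ZMod 2) (b : Bool) (h : (c : ZMod 2) = a) : (((c + b.toNat) % 2 : ℕ) : ZMod 2) = a + if b then 1 else 0 := by
  rw [ZMod.natCast_mod, Nat.cast_add, h]
  cases b <;> simp

theorem pr_sum (w : ℕ → Bool) (n e : ℕ) : (pr w n e : ZMod 2) = ∑ l ∈ Finset.range e, en w (Nat.pair l n) := by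
  induction e with
  | zero => rw [Finset.range_zero, Finset.sum_empty]; exact Nat.cast_zero
  | succ e ih =>
    rw [Finset.sum_range_succ]
    exact tz (pr w n e) _ _ ih

theorem pr_lt (w : ℕ → Bool) (n e : ℕ) : pr w n e < 2 := by
  cases e with
  | zero => exact Nat.zero_lt_two
  | succ e => exact Nat.mod_lt _ Nat.zero_lt_two

theorem tz2 (c : ℕ) (hc : c < 2) : (decide ((c : ZMod 2) = 1)).toNat = c := by
  interval_cases c
  · rfl
  · rfl

theorem dec_sum (w : ℕ → Bool) (n e : ℕ) : (decide (∑ l ∈ Finset.range e, en w (Nat.pair l n) = 1)).toNat = pr w n e := by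
  rw [← pr_sum]
  exact tz2 _ (pr_lt w n e)

/-- the members of the family -/
def Xi (x z : ℕ → Bool) (i : ℕ) : ℕ → Bool := dec (Yi (en x) (en z) i)

/-- all columns -/
def al : ℕ → Bool := fun _ => true

theorem Xi_diag (x z : ℕ → Bool) (n : ℕ) : (Xi x z n n).toNat = (pr x n n + (z n).toNat) % 2 := by
  have h1 : Yi (en x) (en z) n n = (((pr x n n + (z n).toNat) % 2 : ℕ) : ZMod 2) := by
    rw [tz (pr x n n) _ (z n) rfl, pr_sum]
    show (if n = n then en z n + sm (en x) n else _) = _
    rw [if_pos rfl, add_comm]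
    rfl
  show (decide (Yi (en x) (en z) n n = 1)).toNat = _
  rw [h1]
  exact tz2 _ (Nat.mod_lt _ Nat.zero_lt_two)

theorem Xi_off (x z : ℕ → Bool) (i n : ℕ) (h : i ≠ n) : Xi x z i n = x (Nat.pair i n) := by
  show decide ((if i = n then _ else en x (Nat.pair i n)) = 1) = _
  rw [if_neg h]
  show decide ((if x (Nat.pair i n) then (1 : ZMod 2) else 0) = 1) = _
  cases x (Nat.pair i n)
  · rfl
  · rfl

theorem full_le (x z : ℕ → Bool) (h : Rd x z) : Rd (Ji al (Xi x z)) z := by
  have a0 : Cp z fun m => pr x m.unpair.2 m.unpair.2 := by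
    have a1 := (Cp.trans (pr_cp x) h).comp (Cp.of_prim (Primrec₂.natPair.comp p2 p2))
    simpa only [Nat.unpair_pair] using a1
  have a1 : Cp z fun m => (z m.unpair.2).toNat := (Cp.self z).comp (Cp.of_prim p2)
  have a2 : Cp z fun m => Nat.pair m (Nat.pair (x m).toNat (Nat.pair (pr x m.unpair.2 m.unpair.2) (z m.unpair.2).toNat)) :=
    (Cp.of_prim Primrec.id).pair (Cp.pair h (a0.pair a1))
  have a3 : Primrec fun q : ℕ => if q.unpair.1.unpair.1 = q.unpair.1.unpair.2 then
      (q.unpair.2.unpair.2.unpair.1 + q.unpair.2.unpair.2.unpair.2) % 2 else q.unpair.2.unpair.1 :=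
    Primrec.ite (Primrec.eq.comp (p1.comp p1) (p2.comp p1))
      (Primrec.nat_mod.comp (Primrec.nat_add.comp (p1.comp (p2.comp p2)) (p2.comp (p2.comp p2))) (Primrec.const 2))
      (p1.comp p2)
  have a4 := (Cp.of_prim (x := z) a3).comp a2
  simp only [Nat.unpair_pair] at a4
  unfold Rd
  have e : (fun m => (Ji al (Xi x z) m).toNat) = fun m : ℕ => if m.unpair.1 = m.unpair.2 then
      (pr x m.unpair.2 m.unpair.2 + (z m.unpair.2).toNat) % 2 else (x m).toNat := by
    funext m
    show (if al m.unpair.1 = true then Xi x z m.unpair.1 m.unpair.2 else false).toNat = _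
    rw [if_pos (show al m.unpair.1 = true from rfl)]
    by_cases h1 : m.unpair.1 = m.unpair.2
    · rw [if_pos h1, h1]
      exact Xi_diag x z _
    · rw [if_neg h1, Xi_off x z _ _ h1, Nat.pair_unpair]
  rw [e]
  exact a4

theorem le_full (x z : ℕ → Bool) : Rd z (Ji al (Xi x z)) := by
  have a0 : Cp (Ji al (Xi x z)) fun n => pr (Ji al (Xi x z)) n (n + 1) := by
    have a1 := (pr_cp (Ji al (Xi x z))).comp
      (Cp.of_prim (Primrec₂.natPair.comp (Primrec.id (α := ℕ)) (Primrec.succ.comp Primrec.id)))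
    simpa only [Nat.unpair_pair, id] using a1
  unfold Rd
  have e : (fun n => (z n).toNat) = fun n => pr (Ji al (Xi x z)) n (n + 1) := by
    funext n
    rw [← dec_sum]
    have h1 : ∀ l, en (Ji al (Xi x z)) (Nat.pair l n) = Yi (en x) (en z) l n := by
      intro l
      have h2 : Ji al (Xi x z) (Nat.pair l n) = Xi x z l n := by
        show (if al (Nat.pair l n).unpair.1 = true then Xi x z (Nat.pair l n).unpair.1 (Nat.pair l n).unpair.2
          else false) = _
        rw [if_pos (show al (Nat.pair l n).unpair.1 = true from rfl), Nat.unpair_pair]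
      show (if Ji al (Xi x z) (Nat.pair l n) then (1 : ZMod 2) else 0) = _
      rw [h2]
      exact congrFun (en_dec (Yi (en x) (en z) l)) n
    have h3 : ∑ l ∈ Finset.range (n + 1), en (Ji al (Xi x z)) (Nat.pair l n) = en z n := by
      rw [Finset.sum_range_succ, h1, Finset.sum_congr rfl fun l _ => h1 l]
      have h4 : ∑ l ∈ Finset.range n, Yi (en x) (en z) l n = sm (en x) n :=
        Finset.sum_congr rfl fun l hl => if_neg (ne_of_lt (Finset.mem_range.1 hl))
      have h5 : Yi (en x) (en z) n n = en z n + sm (en x) n := if_pos rfl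
      rw [h4, h5, add_comm (en z n), ← add_assoc, CharTwo.add_self_eq_zero, zero_add]
    rw [h3]
    show (z n).toNat = (decide ((if z n then (1 : ZMod 2) else 0) = 1)).toNat
    cases z n
    · rfl
    · rfl
  rw [e]
  exact a0

/-! ### compressed joins -/

theorem cmp_le {S y w : ℕ → Bool} {i : ℕ} (h0 : S i = true) (hS : Rd S y) (hw : Rd w y) :
    Rd (fun k => w (nt S k)) y :=
  Cp.comp hw (Cp.trans (nt_cp h0) hS)

theorem le_cmp {S y : ℕ → Bool} (X : ℕ → ℕ → Bool) (hS : Rd S y) (hw : Rd (fun k => Ji S X (nt S k)) y) :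
    Rd (Ji S X) y := by
  have a0 : Cp y fun m => (S m.unpair.1).toNat := Cp.comp hS (Cp.of_prim p1)
  have a1 : Cp y fun m => (Ji S X (nt S (ct S m))).toNat := Cp.comp hw (Cp.trans (ct_cp S) hS)
  have a2 : Primrec fun q : ℕ => q.unpair.1 * q.unpair.2 := Primrec.nat_mul.comp p1 p2
  have a3 := (Cp.of_prim (x := y) a2).comp (a0.pair a1)
  simp only [Nat.unpair_pair] at a3
  unfold Rd
  have e : (fun m => (Ji S X m).toNat) = fun m => (S m.unpair.1).toNat * (Ji S X (nt S (ct S m))).toNat := by
    funext m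
    by_cases h : S m.unpair.1 = true
    · have h' : ps S m := h
      rw [nt_ct h', h]
      exact (one_mul _).symm
    · have h1 : Ji S X m = false := if_neg h
      rw [h1, Bool.eq_false_iff.2 h]
      exact (zero_mul _).symm
  rw [e]
  exact a3

theorem ji_z0 {S : ℕ → Bool} {i : ℕ} (h0 : S i = true) (z0 : ℕ → Bool) (X : ℕ → ℕ → Bool) :
    Rd z0 (Ji S fun i => jn z0 (X i)) := by
  refine Rd.of_comp (fun t => Nat.pair i (2 * t))
    (Primrec₂.natPair.comp (Primrec.const i) (Primrec.nat_mul.comp (Primrec.const 2) Primrec.id)) fun t => ?_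
  show z0 t = if S (Nat.pair i (2 * t)).unpair.1 = true then
    jn z0 (X (Nat.pair i (2 * t)).unpair.1) (Nat.pair i (2 * t)).unpair.2 else false
  rw [Nat.unpair_pair, if_pos h0]
  unfold jn
  rw [if_pos (by omega)]
  exact congrArg z0 (by omega)

theorem ji_X (S z0 : ℕ → Bool) (X : ℕ → ℕ → Bool) : Rd (Ji S X) (Ji S fun i => jn z0 (X i)) := by
  refine Rd.of_comp (fun m => Nat.pair m.unpair.1 (2 * m.unpair.2 + 1))
    (Primrec₂.natPair.comp p1 (Primrec.succ.comp (Primrec.nat_mul.comp (Primrec.const 2) p2))) fun m => ?_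
  show (if S m.unpair.1 = true then X m.unpair.1 m.unpair.2 else false) =
    if S (Nat.pair m.unpair.1 (2 * m.unpair.2 + 1)).unpair.1 = true then
      jn z0 (X (Nat.pair m.unpair.1 (2 * m.unpair.2 + 1)).unpair.1) (Nat.pair m.unpair.1 (2 * m.unpair.2 + 1)).unpair.2
      else false
  rw [Nat.unpair_pair]
  by_cases h : S m.unpair.1 = true
  · rw [if_pos h, if_pos h]
    unfold jn
    rw [if_neg (by omega)]
    exact congrArg (X m.unpair.1) (by omega)
  · rw [if_neg h, if_neg h]

theorem ji_le {S z0 y : ℕ → Bool} (X : ℕ → ℕ → Bool) (hS : Rd S y) (hz : Rd z0 y) (hJ : Rd (Ji S X) y) :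
    Rd (Ji S fun i => jn z0 (X i)) y := by
  have hh : Primrec fun m : ℕ => m.unpair.2 / 2 := Primrec.nat_div.comp p2 (Primrec.const 2)
  have a0 : Cp y fun m => (S m.unpair.1).toNat := Cp.comp hS (Cp.of_prim p1)
  have a1 : Cp y fun m => (z0 (m.unpair.2 / 2)).toNat := Cp.comp hz (Cp.of_prim hh)
  have a2 : Cp y fun m => (Ji S X (Nat.pair m.unpair.1 (m.unpair.2 / 2))).toNat :=
    Cp.comp hJ (Cp.of_prim (Primrec₂.natPair.comp p1 hh))
  have a3 : Primrec fun q : ℕ => if q.unpair.1.unpair.2 % 2 = 0 then q.unpair.2.unpair.1 * q.unpair.2.unpair.2.unpair.1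
      else q.unpair.2.unpair.2.unpair.2 :=
    Primrec.ite (Primrec.eq.comp (Primrec.nat_mod.comp (p2.comp p1) (Primrec.const 2)) (Primrec.const 0))
      (Primrec.nat_mul.comp (p1.comp p2) (p1.comp (p2.comp p2))) (p2.comp (p2.comp p2))
  have a4 := (Cp.of_prim (x := y) a3).comp ((Cp.of_prim Primrec.id).pair (a0.pair (a1.pair a2)))
  simp only [Nat.unpair_pair, id] at a4
  unfold Rd
  have e : (fun m => (Ji S (fun i => jn z0 (X i)) m).toNat) = fun m : ℕ => if m.unpair.2 % 2 = 0 then
      (S m.unpair.1).toNat * (z0 (m.unpair.2 / 2)).toNat else (Ji S X (Nat.pair m.unpair.1 (m.unpair.2 / 2))).toNat := by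
    funext m
    show (if S m.unpair.1 = true then jn z0 (X m.unpair.1) m.unpair.2 else false).toNat = _
    unfold Ji jn
    rw [Nat.unpair_pair]
    by_cases h : S m.unpair.1 = true
    · rw [if_pos h, if_pos h, h]
      by_cases h2 : m.unpair.2 % 2 = 0
      · rw [if_pos h2, if_pos h2]
        exact (one_mul _).symm
      · rw [if_neg h2, if_neg h2]
    · rw [if_neg h, if_neg h, Bool.eq_false_iff.2 h]
      by_cases h2 : m.unpair.2 % 2 = 0
      · rw [if_pos h2]
        exact (zero_mul _).symm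
      · rw [if_neg h2]
  rw [e]
  exact a4

theorem main_inf_rel (f : (ℕ → Bool) → ℕ → Bool) (hf : Measurable f) (z0 : ℕ → Bool)
    (hom : ∀ x y, Rd z0 x → Rd x y → Rd y x → Ev (f x) (f y)) :
    ∃ c : ℕ → Bool, ∀ S : ℕ → ℕ → Bool, (∀ j, Rd (S j) z0 ∧ (∃ i, S j i = true) ∧ ∃ i, S j i = false) →
      ∃ k : ℕ → Bool, ∀ z, Rd k z → ∃ X : ℕ → ℕ → Bool, (∀ i, Rd z0 (X i)) ∧ (∀ j, Ev (f (Ji (S j) X)) c) ∧
        Rd (Ji al X) z ∧ Rd z (Ji al X) := by
  have hj : Measurable fun w : ℕ → Bool => jn z0 w := by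
    refine measurable_pi_lambda _ fun n => ?_
    unfold jn
    by_cases h : n % 2 = 0
    · simp only [h, if_true]
      exact measurable_const
    · simp only [h, if_false]
      exact measurable_pi_apply _
  have hmon : ∀ x y, Rd x y → Rd (jn z0 x) (jn z0 y) := fun x y h => jn_rd (jn_l z0 y) (h.trans (jn_r z0 y))
  obtain ⟨c, hc⟩ := main_inf (fun w => f (jn z0 w)) (hf.comp hj)
    (fun x y h1 h2 => hom _ _ (jn_l z0 x) (hmon x y h1) (hmon y x h2))
  refine ⟨c, fun S hS => ?_⟩
  have hS1 : ∀ a, Rd (S a) z0 := fun a => (hS a).1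
  choose i hi using fun a => (hS a).2.1
  choose j hj using fun a => (hS a).2.2
  obtain ⟨t, ht⟩ := hc (fun a => Li (S a) (j a)) (fun a => Mi (S a) (j a))
    (fun a => Li_mp (S a) (j a) (i a) (hi a) (hj a)) (fun a => Li_cont _ _) (fun a => Mi_cont _ _)
  refine ⟨jn t z0, fun z hz => ?_⟩
  have hz0 : Rd z0 z := (jn_r t z0).trans hz
  obtain ⟨x, hxz, hx⟩ := ht z ((jn_l t z0).trans hz)
  refine ⟨fun l => jn z0 (Xi x z l), fun l => jn_l z0 _, fun a => ?_, ?_, ?_⟩
  · have h1 := hx a
    have h2 := comp_ev (S a) (j a) (i a) (hi a) (en x) (en z)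
    have h3 := le_cmp (Xi x z) ((hS1 a).trans (jn_l z0 (dec (Li (S a) (j a) (en x) + Mi (S a) (j a) (en z)))))
      ((ev_rd h2.symm).trans (jn_r _ _))
    have h4 := ji_le (Xi x z) ((hS1 a).trans (jn_l z0 (dec (Li (S a) (j a) (en x) + Mi (S a) (j a) (en z)))))
      (jn_l _ _) h3
    have h5 := ji_z0 (hi a) z0 (Xi x z)
    have h6 := jn_rd h5 ((ev_rd h2).trans (cmp_le (hi a) ((hS1 a).trans h5) (ji_X (S a) z0 (Xi x z))))
    exact (hom _ _ h5 h4 h6).trans h1
  · exact ji_le _ (Cp.of_prim (Primrec.const 1)) hz0 (full_le x z hxz)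
  · exact (le_full x z).trans (ji_X al z0 _)

end Pool.Agent.Lib.MP_1a0a6e_lc
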