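import Pool.Agent.Lib.MP_1a0a6e_lc.Low

/-!
# MP_1a0a6e_lc: a generically non-constant limit of continuous maps takes infinitely many values at low extensions
-/

set_option autoImplicit false

open Topology

namespace Pool.Agent.Lib.MP_1a0a6e_lc

/-- the test of the difference steps: `j` codes `i`, `j'` and `e` codes `n`, `k'`, `c'`, `s` -/
def Ad2 (F : ℕ → (ℕ → Bool) → ℕ → Bool) (E : ℕ → ℕ → (ℕ → Bool) → ℕ → Bool) (T : ℕ) (w : ℕ → Bool) (j : ℕ)
    (st : ℕ × ℕ) (e : ℕ) : Prop :=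
  j.unpair.2 ≤ e.unpair.1.unpair.1 ∧ st.1 ≤ e.unpair.1.unpair.2 ∧ Cy st.1 (tb st.2) (tb e.unpair.2.unpair.1) ∧
    ∀ t, e.unpair.2.unpair.2 ≤ t → t ≤ T → ∀ g, Cy e.unpair.1.unpair.2 (tb e.unpair.2.unpair.1) g →
      F t (jn w g) e.unpair.1.unpair.1 ≠ E j.unpair.1 t w e.unpair.1.unpair.1

/-- the test -/
def At2 (F : ℕ → (ℕ → Bool) → ℕ → Bool) (E : ℕ → ℕ → (ℕ → Bool) → ℕ → Bool) (cd : ℕ → Cd) (T : ℕ) (w : ℕ → Bool) (i : ℕ) (st : ℕ × ℕ) (e : ℕ) : Prop :=
  (i % 2 = 0 → Ad2 F E T w (i / 2) st e) ∧ (i % 2 ≠ 0 → Ag cd T w (i / 2) st e)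

theorem at_loc2 (F : ℕ → (ℕ → Bool) → ℕ → Bool) (hF : ∀ s n, Continuous fun x => F s x n)
    (E : ℕ → ℕ → (ℕ → Bool) → ℕ → Bool) (hE : ∀ i s n, Continuous fun x => E i s x n) (cd : ℕ → Cd) (T : ℕ)
    (w : ℕ → Bool) (i : ℕ) (st : ℕ × ℕ) (e : ℕ) :
    ∃ N, ∀ w', Cy N w w' → (At2 F E cd T w' i st e ↔ At2 F E cd T w i st e) := by
  choose M hM using fun t => unif (fun x => F t x e.unpair.1.unpair.1) (hF t _)
  choose M' hM' using fun t => unif (fun x => E (i / 2).unpair.1 t x e.unpair.1.unpair.1) (hE _ t _)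
  obtain ⟨B1, hB1⟩ := sum_bd M T
  obtain ⟨B2, hB2⟩ := sum_bd M' T
  obtain ⟨B, hB1', hB2'⟩ : ∃ B, B1 ≤ B ∧ B2 ≤ B := ⟨max B1 B2, le_max_left _ _, le_max_right _ _⟩
  have hB : ∀ t ≤ T, M t ≤ B := fun t ht => (hB1 t ht).trans hB1'
  have hB' : ∀ t ≤ T, M' t ≤ B := fun t ht => (hB2 t ht).trans hB2'
  obtain ⟨C, hC⟩ := sum_bd (fun e' => e'.unpair.2.unpair.2.unpair.2) (max T (e - 1))
  refine ⟨max B C, fun w' hw' => ?_⟩
  have h1 : Ad2 F E T w' (i / 2) st e ↔ Ad2 F E T w (i / 2) st e := by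
    have h2 : ∀ t ≤ T, ∀ g, F t (jn w' g) e.unpair.1.unpair.1 = F t (jn w g) e.unpair.1.unpair.1 := fun t ht g =>
      hM t _ _ (cy_jn (hw'.mono ((hB t ht).trans (le_max_left _ _))) (Cy.refl _ _))
    have h3 : ∀ t ≤ T, E (i / 2).unpair.1 t w' e.unpair.1.unpair.1 = E (i / 2).unpair.1 t w e.unpair.1.unpair.1 := fun t ht =>
      hM' t _ _ (hw'.mono ((hB' t ht).trans (le_max_left _ _)))
    unfold Ad2
    refine and_congr Iff.rfl (and_congr Iff.rfl (and_congr Iff.rfl ?_))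
    exact ⟨fun h t h4 h5 g hg => by rw [← h2 t h5, ← h3 t h5]; exact h t h4 h5 g hg,
      fun h t h4 h5 g hg => by rw [h2 t h5, h3 t h5]; exact h t h4 h5 g hg⟩
  have h2 : Ag cd T w' (i / 2) st e ↔ Ag cd T w (i / 2) st e := by
    have h3 : ∀ e' ≤ max T (e - 1), (Bd cd w' (i / 2) st e' ↔ Bd cd w (i / 2) st e') := fun e' he' =>
      bd_loc cd w w' _ st e' (hw'.mono ((hC e' he').trans (le_max_right _ _)))
    unfold Ag
    refine or_congr (and_congr Iff.rfl ?_) (and_congr Iff.rfl (h3 _ (le_max_right _ _)))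
    exact ⟨fun h e' he' h4 => h e' he' ((h3 e' (he'.le.trans (le_max_left _ _))).2 h4),
      fun h e' he' h4 => h e' he' ((h3 e' (he'.le.trans (le_max_left _ _))).1 h4)⟩
  unfold At2
  rw [h1, h2]

theorem at_mono2 (F : ℕ → (ℕ → Bool) → ℕ → Bool) (E : ℕ → ℕ → (ℕ → Bool) → ℕ → Bool) (cd : ℕ → Cd) (T : ℕ) (w : ℕ → Bool) (i : ℕ) (st : ℕ × ℕ) (e : ℕ)
    (h : At2 F E cd (T + 1) w i st e) : At2 F E cd T w i st e := by
  refine ⟨fun hi => ?_, fun hi => ?_⟩
  · obtain ⟨a1, a2, a3, a4⟩ := h.1 hi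
    exact ⟨a1, a2, a3, fun t h1 h2 => a4 t h1 (h2.trans (Nat.le_succ T))⟩
  · rcases h.2 hi with h1 | h1
    · exact Or.inl ⟨h1.1, fun e' he' => h1.2 e' (Nat.lt_succ_of_lt he')⟩
    · exact Or.inr h1

/-- the difference steps are possible if the fibre is meagre -/
theorem ad_ex2 (F : ℕ → (ℕ → Bool) → ℕ → Bool) (hF : ∀ s n, Continuous fun x => F s x n)
    (E : ℕ → ℕ → (ℕ → Bool) → ℕ → Bool) (f : (ℕ → Bool) → ℕ → Bool) (w : ℕ → Bool) (i0 : ℕ) (c : ℕ → Bool)
    (hlimw : ∀ n, ∃ s0, ∀ s ≥ s0, E i0 s w n = c n)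
    (hlim : ∀ g n, ∃ s0, ∀ s ≥ s0, F s (jn w g) n = f (jn w g) n)
    (hm : IsMeagre {g : ℕ → Bool | ∃ N, ∀ n ≥ N, f (jn w g) n = c n}) (j : ℕ) (st : ℕ × ℕ) :
    ∃ e, ∀ T, Ad2 F E T w (Nat.pair i0 j) st e := by
  by_contra hcon
  push Not at hcon
  have hjc : Continuous fun g : ℕ → Bool => jn w g := by
    refine continuous_pi fun n => ?_
    unfold jn
    by_cases h : n % 2 = 0
    · simp only [h, if_true]
      exact continuous_const
    · simp only [h, if_false]
      exact continuous_apply _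
  -- the value is right on a subcylinder of every cylinder
  have hsub : ∀ n ≥ j, ∀ K c1, st.1 ≤ K → Cy st.1 (tb st.2) (tb c1) →
      ∃ K2 c2, K ≤ K2 ∧ Cy K (tb c1) (tb c2) ∧ ∀ g, Cy K2 (tb c2) g → f (jn w g) n = c n := by
    intro n hn K c1 hK hc1
    have hpc : Continuous fun g : ℕ → Bool => pre K (tb c1) g := by
      refine continuous_pi fun i => ?_
      unfold pre
      by_cases h : i < K
      · simp only [h, if_true]
        exact continuous_const
      · simp only [h, if_false]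
        exact continuous_apply _
    have hcont : ∀ t, Continuous fun g : ℕ → Bool => F t (jn w (pre K (tb c1) g)) n := fun t =>
      (hF t n).comp (hjc.comp hpc)
    have hcl : ∀ s, IsClosed {g : ℕ → Bool | ∀ t, s ≤ t → F t (jn w (pre K (tb c1) g)) n = F s (jn w (pre K (tb c1) g)) n} := by
      intro s
      have e : {g : ℕ → Bool | ∀ t, s ≤ t → F t (jn w (pre K (tb c1) g)) n = F s (jn w (pre K (tb c1) g)) n} =
          ⋂ t, ⋂ _ : s ≤ t, {g : ℕ → Bool | F t (jn w (pre K (tb c1) g)) n = F s (jn w (pre K (tb c1) g)) n} := by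
        ext g
        simp only [Set.mem_ofPred_eq, Set.mem_iInter]
      rw [e]
      exact isClosed_iInter fun t => isClosed_iInter fun _ => isClosed_eq (hcont t) (hcont s)
    have huniv : ⋃ s, {g : ℕ → Bool | ∀ t, s ≤ t → F t (jn w (pre K (tb c1) g)) n = F s (jn w (pre K (tb c1) g)) n} =
        Set.univ := by
      refine Set.eq_univ_of_forall fun g => ?_
      obtain ⟨s0, hs0⟩ := hlim (pre K (tb c1) g) n
      exact Set.mem_iUnion.2 ⟨s0, fun t ht => by rw [hs0 t ht, hs0 s0 le_rfl]⟩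
    obtain ⟨s, hs⟩ := nonempty_interior_of_iUnion_of_closed hcl huniv
    obtain ⟨g1, hg1⟩ := hs
    obtain ⟨K1, hK1⟩ := cy_nhds g1 _ (isOpen_interior.mem_nhds hg1)
    obtain ⟨K3, hK3⟩ := cy_nhds g1 _ ((hcont s).continuousAt.preimage_mem_nhds
      ((isOpen_discrete {F s (jn w (pre K (tb c1) g1)) n}).mem_nhds rfl))
    obtain ⟨c2, hc2⟩ := exists_tb (K + max K1 K3) (pre K (tb c1) g1)
    have hsplit : ∀ g, Cy (K + max K1 K3) (tb c2) g → ∃ g', g = pre K (tb c1) g' ∧ Cy (max K1 K3) g1 g' := by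
      intro g hg
      have h1 : Cy (K + max K1 K3) (pre K (tb c1) g1) g := hc2.symm.trans hg
      refine ⟨fun i => g (i + K), funext fun i => ?_, fun i hi => ?_⟩
      · unfold pre
        by_cases h : i < K
        · rw [if_pos h, h1 i (by omega)]
          unfold pre
          rw [if_pos h]
        · rw [if_neg h]
          exact congrArg g (by omega)
      · show g (i + K) = g1 i
        rw [h1 (i + K) (by omega)]
        unfold pre
        rw [if_neg (by omega)]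
        exact congrArg g1 (by omega)
    have hval : ∀ g, Cy (K + max K1 K3) (tb c2) g → ∀ t, s ≤ t → F t (jn w g) n = F s (jn w (pre K (tb c1) g1)) n := by
      intro g hg t ht
      obtain ⟨g', rfl, hg'⟩ := hsplit g hg
      have h1 := interior_subset (hK1 g' (hg'.mono (le_max_left _ _)))
      have h2 := hK3 g' (hg'.mono (le_max_right _ _))
      exact (h1 t ht).trans h2
    have hlimv : ∀ g, Cy (K + max K1 K3) (tb c2) g → f (jn w g) n = F s (jn w (pre K (tb c1) g1)) n := by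
      intro g hg
      obtain ⟨s0, hs0⟩ := hlim g n
      rw [← hs0 (max s s0) (le_max_right _ _)]
      exact hval g hg _ (le_max_left _ _)
    have hKc : Cy K (tb c1) (tb c2) := by
      intro i hi
      rw [← hc2 i (by omega)]
      unfold pre
      rw [if_pos hi]
    refine ⟨K + max K1 K3, c2, Nat.le_add_right _ _, hKc, fun g hg => ?_⟩
    rw [hlimv g hg]
    by_contra hne
    obtain ⟨s0, hs0⟩ := hlimw n
    obtain ⟨T, hT⟩ := hcon (Nat.pair (Nat.pair n (K + max K1 K3)) (Nat.pair c2 (max s s0)))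
    refine hT ?_
    unfold Ad2
    simp only [Nat.unpair_pair]
    refine ⟨hn, hK.trans (Nat.le_add_right _ _), hc1.trans (hKc.mono hK), fun t ht _ g hg => ?_⟩
    rw [hval g hg t ((le_max_left _ _).trans ht), hs0 t ((le_max_right _ _).trans ht)]
    exact hne
  have hnd : ∀ n ≥ j, IsNowhereDense ({g : ℕ → Bool | Cy st.1 (tb st.2) g} \ {g | f (jn w g) n = c n}) := by
    intro n hn
    show interior (closure _) = ∅
    by_contra hne
    obtain ⟨g1, hg1⟩ := Set.nonempty_iff_ne_empty.2 hne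
    obtain ⟨K1, hK1⟩ := cy_nhds g1 _ (isOpen_interior.mem_nhds hg1)
    -- `g1` is in the cylinder
    obtain ⟨g2, hg2, hg2'⟩ := mem_closure_iff.1 (interior_subset hg1) _ (cy_open st.1 g1) (Cy.refl _ _)
    have h1 : Cy st.1 (tb st.2) g1 := Cy.trans hg2'.1 (Cy.symm hg2)
    obtain ⟨c1, hc1⟩ := exists_tb (max K1 st.1) g1
    obtain ⟨K2, c2, hK2, hc2, hgood⟩ := hsub n hn (max K1 st.1) c1 (le_max_right _ _)
      (h1.trans (hc1.symm.mono (le_max_right _ _)))
    have h2 : tb c2 ∈ closure ({g : ℕ → Bool | Cy st.1 (tb st.2) g} \ {g | f (jn w g) n = c n}) :=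
      interior_subset (hK1 _ ((hc1.symm.trans hc2).mono (le_max_left _ _)))
    obtain ⟨g3, hg3, hg3'⟩ := mem_closure_iff.1 h2 _ (cy_open K2 (tb c2)) (Cy.refl _ _)
    exact hg3'.2 (hgood g3 hg3)
  refine not_isMeagre_of_isOpen (cy_open st.1 (tb st.2)) ⟨tb st.2, Cy.refl _ _⟩ ?_
  have h1 : {x : ℕ → Bool | Cy st.1 (tb st.2) x} ⊆ {g : ℕ → Bool | ∃ N, ∀ n ≥ N, f (jn w g) n = c n} ∪
      ⋃ m : ℕ, ({g : ℕ → Bool | Cy st.1 (tb st.2) g} \ {g | f (jn w g) (j + m) = c (j + m)}) := by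
    intro g hg
    by_cases h : ∀ m, f (jn w g) (j + m) = c (j + m)
    · refine Or.inl ⟨j, fun n hn => ?_⟩
      obtain ⟨m, rfl⟩ := Nat.exists_eq_add_of_le hn
      exact h m
    · push Not at h
      obtain ⟨m, hm'⟩ := h
      exact Or.inr (Set.mem_iUnion.2 ⟨m, hg, hm'⟩)
  exact (hm.union (isMeagre_iUnion fun m => (hnd (j + m) (Nat.le_add_right _ _)).isMeagre)).mono h1

/-- a generically non-constant limit of continuous maps changes its value at a low extension -/
theorem low_core2 (F : ℕ → (ℕ → Bool) → ℕ → Bool) (hF : ∀ s n, Continuous fun x => F s x n)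
    (E : ℕ → ℕ → (ℕ → Bool) → ℕ → Bool) (hE : ∀ i s n, Continuous fun x => E i s x n)
    (f : (ℕ → Bool) → ℕ → Bool) : ∃ t : ℕ → Bool, ∀ (w : ℕ → Bool) (C : ℕ → ℕ → Bool), Rd t w →
      (∀ i n, ∃ s0, ∀ s ≥ s0, E i s w n = C i n) →
      (∀ g n, ∃ s0, ∀ s ≥ s0, F s (jn w g) n = f (jn w g) n) →
      (∀ i, IsMeagre {g : ℕ → Bool | ∃ N, ∀ n ≥ N, f (jn w g) n = C i n}) →
      ∃ G : ℕ → Bool, (∀ i j, ∃ n ≥ j, f (jn w G) n ≠ C i n) ∧ ∀ v, Lmc v (jn w G) → Lmc v w := by
  obtain ⟨cd, hcd⟩ := cd_surj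
  -- the guess at the limit at time `T`
  let Z : ℕ → (ℕ → Bool) → ℕ → ℕ → ℕ → Prop := fun T w a n p =>
    chT (At2 F E cd) Nx T w (2 * Nat.pair (Nat.pair a n) p + 1) = 0
  obtain ⟨t, ht⟩ := cont_red fun x q =>
    tb (fb q.unpair.2.unpair.2 fun p => Z q.unpair.2.unpair.2 x q.unpair.1 q.unpair.2.unpair.1 p).unpair.2 0
  refine ⟨t, fun w C htw hlimw hlim hm => ?_⟩
  have hloc := at_loc2 F hF E hE cd
  have hmono := at_mono2 F E cd
  have hex : ∀ i st, ∃ e, ∀ T, At2 F E cd T w i st e := by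
    intro i st
    by_cases h : i % 2 = 0
    · obtain ⟨e, he⟩ := ad_ex2 F hF E f w (i / 2).unpair.1 (C (i / 2).unpair.1) (hlimw _) hlim (hm _) (i / 2).unpair.2 st
      rw [Nat.pair_unpair] at he
      exact ⟨e, fun T => ⟨fun _ => he T, fun h' => absurd h h'⟩⟩
    · obtain ⟨e, he⟩ := ag_ex cd w (i / 2) st
      exact ⟨e, fun T => ⟨fun h' => absurd h' h, fun _ => he T⟩⟩
  set s : ℕ → ℕ × ℕ := fun i => stI (At2 F E cd) Nx w i with hs
  set e : ℕ → ℕ := fun i => chI (At2 F E cd) Nx w i with he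
  have hsn : ∀ i, s (i + 1) = Nx i (s i) (e i) := fun i => rfl
  have hA : ∀ i T, At2 F E cd T w i (s i) (e i) := fun i => fd_spec (hex i (s i))
  have hstep : ∀ i, (s i).1 ≤ (s (i + 1)).1 ∧ Cy (s i).1 (tb (s i).2) (tb (s (i + 1)).2) := by
    intro i
    rw [hsn]
    unfold Nx
    by_cases h : i % 2 = 0
    · rw [if_pos h]
      obtain ⟨_, a2, a3, _⟩ := (hA i 0).1 h
      exact ⟨a2.trans (Nat.le_succ _), a3⟩
    · rw [if_neg h]
      by_cases h0 : e i = 0
      · rw [if_pos h0]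
        exact ⟨le_rfl, Cy.refl _ _⟩
      · rw [if_neg h0]
        rcases (hA i 0).2 h with h1 | h1
        · exact absurd h1.1 h0
        · exact ⟨h1.2.1, h1.2.2.1⟩
  have hmono2 : ∀ i j, i ≤ j → (s i).1 ≤ (s j).1 ∧ Cy (s i).1 (tb (s i).2) (tb (s j).2) := by
    intro i j hij
    induction j, hij using Nat.le_induction with
    | base => exact ⟨le_rfl, Cy.refl _ _⟩
    | succ j _ ih => exact ⟨ih.1.trans (hstep j).1, ih.2.trans ((hstep j).2.mono ih.1)⟩
  have hlen : ∀ i, i ≤ (s (2 * i)).1 := by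
    intro i
    induction i with
    | zero => exact Nat.zero_le _
    | succ i ih =>
      have h1 : (s (2 * i)).1 < (s (2 * i + 1)).1 := by
        rw [hsn]
        unfold Nx
        rw [if_pos (by omega)]
        obtain ⟨_, a2, _, _⟩ := (hA (2 * i) 0).1 (by omega)
        exact Nat.lt_succ_of_le a2
      have h2 := (hstep (2 * i + 1)).1
      have h3 : (s (2 * i + 1 + 1)).1 = (s (2 * (i + 1))).1 := rfl
      omega
  set G : ℕ → Bool := fun n => tb (s (2 * (n + 1))).2 n with hG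
  have hGcy : ∀ i, Cy (s i).1 (tb (s i).2) G := by
    intro i l hl
    show tb (s (2 * (l + 1))).2 l = tb (s i).2 l
    rcases le_total i (2 * (l + 1)) with h | h
    · exact (hmono2 i _ h).2 l hl
    · exact ((hmono2 _ i h).2 l (hlen (l + 1))).symm
  refine ⟨G, fun i0 j0 => ?_, fun v hv => ?_⟩
  · -- the difference steps
    obtain ⟨j, hj⟩ : ∃ j, j = Nat.pair i0 j0 := ⟨_, rfl⟩
    have hj1 : j.unpair.1 = i0 := by rw [hj, Nat.unpair_pair]
    have hj2 : j.unpair.2 = j0 := by rw [hj, Nat.unpair_pair]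
    have h0 : (2 * j) % 2 = 0 := by omega
    have h1 : (2 * j) / 2 = j := by omega
    have h2 : Cy (e (2 * j)).unpair.1.unpair.2 (tb (e (2 * j)).unpair.2.unpair.1) G := by
      have h3 := hGcy (2 * j + 1)
      rw [hsn] at h3
      unfold Nx at h3
      rw [if_pos h0] at h3
      exact h3.mono (Nat.le_succ _)
    have h4 : ∀ T, Ad2 F E T w j (s (2 * j)) (e (2 * j)) := fun T => by
      have := (hA (2 * j) T).1 h0
      rw [h1] at this
      exact this
    refine ⟨(e (2 * j)).unpair.1.unpair.1, hj2 ▸ (h4 0).1, ?_⟩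
    obtain ⟨s1, hs1⟩ := hlimw i0 (e (2 * j)).unpair.1.unpair.1
    obtain ⟨s2, hs2⟩ := hlim G (e (2 * j)).unpair.1.unpair.1
    have h5 := (h4 (max (e (2 * j)).unpair.2.unpair.2 (max s1 s2))).2.2.2 _ (le_max_left _ _) le_rfl G h2
    rw [hj1] at h5
    rw [hs1 _ ((le_max_left _ _).trans (le_max_right _ _)), hs2 _ ((le_max_right _ _).trans (le_max_right _ _))] at h5
    exact h5
  · -- lowness
    obtain ⟨h, hh, hv⟩ := hv
    obtain ⟨c, hc⟩ := Cd.surj (orc (jn w G)) (orc h) hh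
    obtain ⟨a, ha⟩ := hcd c
    have hodd : ∀ m : ℕ, (2 * m + 1) % 2 ≠ 0 ∧ (2 * m + 1) / 2 = m := fun m => ⟨by omega, by omega⟩
    have hval : ∀ n p, e (2 * Nat.pair (Nat.pair a n) p + 1) = 0 → tb p.unpair.2 0 = v n := by
      intro n p hp
      by_contra hne
      have h1 : ∀ e', ¬ Bd cd w (Nat.pair (Nat.pair a n) p) (s (2 * Nat.pair (Nat.pair a n) p + 1)) e' := by
        intro e' hB
        have h2 := (hA (2 * Nat.pair (Nat.pair a n) p + 1) (e' + 1)).2 (hodd _).1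
        rw [(hodd _).2] at h2
        rcases h2 with h3 | h3
        · exact h3.2 e' (Nat.lt_succ_self e') hB
        · exact h3.1 hp
      obtain ⟨s0, hs0⟩ := hv n
      have h2 : h (Nat.pair n (max p.unpair.1 s0)) = v n := hs0 _ (le_max_right _ _)
      have h3 : (v n).toNat ∈ c.ev (orc (jn w G)) (Nat.pair n (max p.unpair.1 s0)) := by
        rw [hc]
        show (v n).toNat ∈ Part.some (h (Nat.pair n (max p.unpair.1 s0))).toNat
        rw [h2]
        exact Part.mem_some _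
      obtain ⟨K, hK⟩ := Cd.use c _ _ _ h3
      obtain ⟨c', hc'⟩ := exists_tb (max K (s (2 * Nat.pair (Nat.pair a n) p + 1)).1) G
      refine h1 (Nat.pair (Nat.pair (max K (s (2 * Nat.pair (Nat.pair a n) p + 1)).1) c')
        (Nat.pair (max p.unpair.1 s0) (Nat.pair (v n).toNat K))) ?_
      unfold Bd
      simp only [Nat.unpair_pair]
      refine ⟨le_max_right _ _, (hGcy _).trans (hc'.symm.mono (le_max_right _ _)), le_max_left _ _, ?_, fun w' g' hw' hg' => ?_⟩
      · intro h4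
        refine hne ?_
        revert h4
        cases v n <;> cases tb p.unpair.2 0 <;> simp
      · rw [ha]
        exact hK _ (cy_jn hw' ((hc'.symm.trans hg').mono (le_max_left _ _)))
    have hzero : ∀ n, ∃ p, e (2 * Nat.pair (Nat.pair a n) p + 1) = 0 := by
      intro n
      obtain ⟨s0, hs0⟩ := hv n
      refine ⟨Nat.pair s0 (v n).toNat, ?_⟩
      by_contra hne
      have hodd2 := hodd (Nat.pair (Nat.pair a n) (Nat.pair s0 (v n).toNat))
      have h2 := (hA (2 * Nat.pair (Nat.pair a n) (Nat.pair s0 (v n).toNat) + 1) 0).2 hodd2.1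
      rw [hodd2.2] at h2
      rcases h2 with h3 | h3
      · exact hne h3.1
      · have h4 := h3.2
        unfold Bd at h4
        simp only [Nat.unpair_pair] at h4
        obtain ⟨_, _, b3, b4, b5⟩ := h4
        have h5 : Cy (e (2 * Nat.pair (Nat.pair a n) (Nat.pair s0 (v n).toNat) + 1) - 1).unpair.1.unpair.1
            (tb (e (2 * Nat.pair (Nat.pair a n) (Nat.pair s0 (v n).toNat) + 1) - 1).unpair.1.unpair.2) G := by
          have h6 := hGcy (2 * Nat.pair (Nat.pair a n) (Nat.pair s0 (v n).toNat) + 1 + 1)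
          rw [hsn] at h6
          unfold Nx at h6
          rw [if_neg hodd2.1, if_neg hne] at h6
          exact h6
        have h6 := b5 w G (Cy.refl _ _) h5
        rw [ha, hc] at h6
        have h7 := Part.mem_some_iff.1 h6
        rw [hs0 _ b3] at h7
        refine b4 ?_
        rw [h7]
        cases v n
        · rfl
        · rfl
    refine ⟨fun q => tb (fb q.unpair.2 fun p => Z q.unpair.2 w a q.unpair.1 p).unpair.2 0, ?_, fun n => ?_⟩
    · have h1 := ht w htw fun q => by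
        have h2 : ∀ p, ∃ N, ∀ w', Cy N w w' →
            (Z q.unpair.2.unpair.2 w' q.unpair.1 q.unpair.2.unpair.1 p ↔ Z q.unpair.2.unpair.2 w q.unpair.1 q.unpair.2.unpair.1 p) :=
          fun p => by
            obtain ⟨N, hN⟩ := st_loc (At2 F E cd) Nx hloc q.unpair.2.unpair.2 w
              (2 * Nat.pair (Nat.pair q.unpair.1 q.unpair.2.unpair.1) p + 1)
            refine ⟨N, fun w' hw' => ?_⟩
            show chT _ _ _ _ _ = 0 ↔ chT _ _ _ _ _ = 0
            rw [(hN w' hw').2]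
        choose N hN using h2
        obtain ⟨B, hB⟩ := sum_bd N q.unpair.2.unpair.2
        refine ⟨B, fun x' hx' => ?_⟩
        have h3 : fb q.unpair.2.unpair.2 (fun p => Z q.unpair.2.unpair.2 x' q.unpair.1 q.unpair.2.unpair.1 p) =
            fb q.unpair.2.unpair.2 (fun p => Z q.unpair.2.unpair.2 w q.unpair.1 q.unpair.2.unpair.1 p) :=
          fb_congr fun p hp => hN p x' (Cy.mono (hB p hp) hx')
        show tb (fb _ _).unpair.2 0 = tb (fb _ _).unpair.2 0
        rw [h3]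
      refine Rd.trans ?_ h1
      refine Rd.of_comp (fun q => Nat.pair a q) (Primrec₂.natPair.comp (Primrec.const a) Primrec.id) fun q => ?_
      simp only [Nat.unpair_pair]
    · obtain ⟨p1, hp1⟩ := hzero n
      set p0 := fd fun p => e (2 * Nat.pair (Nat.pair a n) p + 1) = 0 with hp0
      have h1 : e (2 * Nat.pair (Nat.pair a n) p0 + 1) = 0 :=
        fd_spec (P := fun p => e (2 * Nat.pair (Nat.pair a n) p + 1) = 0) ⟨p1, hp1⟩
      have h2 : ∀ p < p0, ¬ e (2 * Nat.pair (Nat.pair a n) p + 1) = 0 := fun p hp =>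
        fd_min (P := fun p => e (2 * Nat.pair (Nat.pair a n) p + 1) = 0) hp
      choose T1 hT1 using fun p => st_lim (At2 F E cd) Nx hmono w hex (2 * Nat.pair (Nat.pair a n) p + 1)
      obtain ⟨B, hB⟩ := sum_bd T1 p0
      refine ⟨max B p0, fun T hT => ?_⟩
      simp only [Nat.unpair_pair]
      have h3 : ∀ p ≤ p0, (Z T w a n p ↔ e (2 * Nat.pair (Nat.pair a n) p + 1) = 0) := fun p hp => by
        show chT _ _ _ _ _ = 0 ↔ _
        rw [(hT1 p T ((hB p hp).trans ((le_max_left _ _).trans hT))).2]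
      have h4 : (fb T fun p => Z T w a n p) = p0 := fd_eq ⟨(le_max_right _ _).trans hT, (h3 p0 le_rfl).2 h1⟩
        fun p hp h5 => h2 p hp ((h3 p hp.le).1 h5.2)
      rw [h4]
      exact hval n p0 h1

end Pool.Agent.Lib.MP_1a0a6e_lc
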