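import Pool.Agent.Lib.MP_1a0a6e_lc.Lof

/-!
# MP_1a0a6e_lc: limits of continuous maps which take few values at the low extensions of one real
-/

set_option autoImplicit false

open Topology

namespace Pool.Agent.Lib.MP_1a0a6e_lc

theorem jn_ev (x y : ℕ → Bool) (m : ℕ) : jn x y (2 * m) = x m := by
  unfold jn
  rw [if_pos (by omega)]
  congr 1
  omega

theorem jn_od (x y : ℕ → Bool) (m : ℕ) : jn x y (2 * m + 1) = y m := by
  unfold jn
  rw [if_neg (by omega)]
  congr 1
  omega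

theorem rd_ite {a b z : ℕ → Bool} (p u v : ℕ → ℕ) (hp : Primrec p) (hu : Primrec u) (hv : Primrec v)
    (ha : Rd a z) (hb : Rd b z) : Rd (fun m => if p m = 0 then a (u m) else b (v m)) z := by
  have h3 : Cp z (fun n => Nat.pair (p n) (Nat.pair ((a (u n)).toNat) ((b (v n)).toNat))) :=
    (Cp.of_prim hp).pair ((Cp.comp ha (Cp.of_prim hu)).pair (Cp.comp hb (Cp.of_prim hv)))
  have h4 : Primrec fun q : ℕ => if q.unpair.1 = 0 then q.unpair.2.unpair.1 else q.unpair.2.unpair.2 := by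
    refine Primrec.ite ?_ ?_ ?_
    · exact Primrec.eq.comp (Primrec.fst.comp Primrec.unpair) (Primrec.const 0)
    · exact Primrec.fst.comp (Primrec.unpair.comp (Primrec.snd.comp Primrec.unpair))
    · exact Primrec.snd.comp (Primrec.unpair.comp (Primrec.snd.comp Primrec.unpair))
  have h5 := (Cp.of_prim (x := z) h4).comp h3
  unfold Rd
  have e : (fun n => ((if p n = 0 then a (u n) else b (v n)) : Bool).toNat) = fun n =>
      (if (Nat.pair (p n) (Nat.pair ((a (u n)).toNat) ((b (v n)).toNat))).unpair.1 = 0 then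
        (Nat.pair (p n) (Nat.pair ((a (u n)).toNat) ((b (v n)).toNat))).unpair.2.unpair.1 else
        (Nat.pair (p n) (Nat.pair ((a (u n)).toNat) ((b (v n)).toNat))).unpair.2.unpair.2) := by
    funext n
    simp only [Nat.unpair_pair]
    split_ifs <;> rfl
  rw [e]
  exact h5

/-- the columns of `C` are uniformly limit computable from `w` -/
def Ulc (C : ℕ → ℕ → Bool) (w : ℕ → Bool) : Prop :=
  ∃ h : ℕ → Bool, Rd h w ∧ ∀ i n, ∃ s0, ∀ s ≥ s0, h (Nat.pair (Nat.pair i n) s) = C i n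

/-- finitely many reals which are limit computable from `w` are uniformly so -/
theorem ulc_list (w : ℕ → Bool) (c0 : ℕ → Bool) (hc0 : Lmc c0 w) (l : List (ℕ → Bool)) (hl : ∀ c ∈ l, Lmc c w) :
    ∃ C : ℕ → ℕ → Bool, Ulc C w ∧ (∀ i, C i = c0 ∨ C i ∈ l) ∧ ∀ c ∈ l, ∃ i, C i = c := by
  induction l with
  | nil =>
    obtain ⟨h, hh, hlim⟩ := hc0
    refine ⟨fun _ => c0, ⟨fun m => h (Nat.pair m.unpair.1.unpair.2 m.unpair.2), hh.comp ?_, fun i n => ?_⟩,
      fun i => Or.inl rfl, fun c hc => absurd hc (by simp)⟩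
    · exact Cp.of_prim (Primrec₂.natPair.comp
        (Primrec.snd.comp (Primrec.unpair.comp (Primrec.fst.comp Primrec.unpair)))
        (Primrec.snd.comp Primrec.unpair))
    · simp only [Nat.unpair_pair]
      exact hlim n
  | cons c l ih =>
    obtain ⟨C, ⟨h, hh, hlim⟩, h1, h2⟩ := ih fun c' hc' => hl c' (List.mem_cons_of_mem _ hc')
    obtain ⟨h', hh', hlim'⟩ := hl c List.mem_cons_self
    refine ⟨fun i => if i = 0 then c else C (i - 1), ⟨fun m => if m.unpair.1.unpair.1 = 0 then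
      h' (Nat.pair m.unpair.1.unpair.2 m.unpair.2) else
      h (Nat.pair (Nat.pair (m.unpair.1.unpair.1 - 1) m.unpair.1.unpair.2) m.unpair.2), ?_, fun i n => ?_⟩, fun i => ?_,
      fun c' hc' => ?_⟩
    · have g1 : Primrec fun m : ℕ => m.unpair.1.unpair.1 :=
        Primrec.fst.comp (Primrec.unpair.comp (Primrec.fst.comp Primrec.unpair))
      have g2 : Primrec fun m : ℕ => m.unpair.1.unpair.2 :=
        Primrec.snd.comp (Primrec.unpair.comp (Primrec.fst.comp Primrec.unpair))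
      have g3 : Primrec fun m : ℕ => m.unpair.2 := Primrec.snd.comp Primrec.unpair
      exact rd_ite _ (fun m => Nat.pair m.unpair.1.unpair.2 m.unpair.2)
        (fun m => Nat.pair (Nat.pair (m.unpair.1.unpair.1 - 1) m.unpair.1.unpair.2) m.unpair.2) g1
        (Primrec₂.natPair.comp g2 g3)
        (Primrec₂.natPair.comp (Primrec₂.natPair.comp (Primrec.nat_sub.comp g1 (Primrec.const 1)) g2) g3) hh' hh
    · simp only [Nat.unpair_pair]
      by_cases hi : i = 0
      · simp only [if_pos hi]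
        exact hlim' n
      · simp only [if_neg hi]
        exact hlim (i - 1) n
    · by_cases hi : i = 0
      · right
        simp only [if_pos hi]
        exact List.mem_cons_self
      · simp only [if_neg hi]
        rcases h1 (i - 1) with h3 | h3
        · exact Or.inl h3
        · exact Or.inr (List.mem_cons_of_mem _ h3)
    · rcases List.mem_cons.1 hc' with h3 | h3
      · exact ⟨0, by simp only [if_true]; exact h3.symm⟩
      · obtain ⟨i, hi⟩ := h2 c' h3
        refine ⟨i + 1, ?_⟩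
        simp only [Nat.add_sub_cancel, if_neg (Nat.succ_ne_zero i)]
        exact hi

theorem lmc_trans {v x y : ℕ → Bool} (h : Lmc v x) (hxy : Rd x y) : Lmc v y := lmc_mono h hxy

/-- a generically non-constant limit of continuous maps avoids any uniformly limit computable sequence of values at
some low extension -/
theorem lof_core (F : ℕ → (ℕ → Bool) → ℕ → Bool) (hF : ∀ s n, Continuous fun x => F s x n)
    (f : (ℕ → Bool) → ℕ → Bool) : ∃ t : ℕ → Bool, ∀ (w : ℕ → Bool) (C : ℕ → ℕ → Bool), Rd t w → Ulc C w →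
      (∀ g n, ∃ s0, ∀ s ≥ s0, F s (jn w g) n = f (jn w g) n) →
      (∀ i, IsMeagre {g : ℕ → Bool | ∃ N, ∀ n ≥ N, f (jn w g) n = C i n}) →
      ∃ G : ℕ → Bool, (∀ i j, ∃ n ≥ j, f (jn w G) n ≠ C i n) ∧ ∀ v, Lmc v (jn w G) → Lmc v w := by
  have hdc : Continuous fun x : ℕ → Bool => jn (fun m => x (4 * m)) fun m => x (2 * m + 1) := by
    refine continuous_pi fun n => ?_
    unfold jn
    by_cases h : n % 2 = 0
    · simp only [h, if_true]
      exact continuous_apply _
    · simp only [h, if_false]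
      exact continuous_apply _
  have hd : ∀ w h g : ℕ → Bool, (jn (fun m => jn (jn w h) g (4 * m)) fun m => jn (jn w h) g (2 * m + 1)) = jn w g := by
    intro w h g
    have h1 : (fun m => jn (jn w h) g (4 * m)) = w := funext fun m => by
      rw [show 4 * m = 2 * (2 * m) by ring, jn_ev, jn_ev]
    have h2 : (fun m => jn (jn w h) g (2 * m + 1)) = g := funext fun m => jn_od _ _ _
    rw [h1, h2]
  obtain ⟨t, ht⟩ := low_core2 (fun s x => F s (jn (fun m => x (4 * m)) fun m => x (2 * m + 1)))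
    (fun s n => (hF s n).comp hdc) (fun i s x n => x (2 * Nat.pair (Nat.pair i n) s + 1)) (fun i s n => continuous_apply _)
    (fun x => f (jn (fun m => x (4 * m)) fun m => x (2 * m + 1)))
  refine ⟨t, fun w C htw hC hlim hm => ?_⟩
  obtain ⟨h, hh, hl⟩ := hC
  have h3 := ht (jn w h) C (htw.trans (jn_l w h)) (fun i n => by
    simp only [jn_od]
    exact hl i n)
  simp only [hd] at h3
  obtain ⟨G, hG1, hG2⟩ := h3 hlim hm
  refine ⟨G, hG1, fun v hv => ?_⟩
  exact lmc_mono (hG2 v (lmc_mono hv (jn_rd ((jn_l w h).trans (jn_l _ G)) (jn_r _ G)))) (jn_rd (Rd.refl w) hh)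

theorem lof_main (F : ℕ → (ℕ → Bool) → ℕ → Bool) (hF : ∀ s n, Continuous fun x => F s x n)
    (f : (ℕ → Bool) → ℕ → Bool) (z0 : ℕ → Bool) (q : (ℕ → Bool) → ℕ → Bool)
    (hq : ∀ u, Rd z0 u → Rd (q u) u ∧ Rd u (q u))
    (hlim : ∀ x, Rd z0 x → ∀ n, ∃ s0, ∀ s ≥ s0, F s x n = f (q x) n) (hf : Hm z0 f) :
    ∃ k : ℕ → Bool, ∀ (w : ℕ → Bool) (C : ℕ → ℕ → Bool), Rd k w →
      (¬ IsMeagre {g : ℕ → Bool | ∃ i N, ∀ n ≥ N, f (jn w g) n = C i n} ∨
        (((Set.range C).Finite ∨ Ulc C w) ∧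
          ∀ g, (∀ v, Lmc v (jn w g) → Lmc v w) → ∃ i N, ∀ n ≥ N, f (jn w g) n = C i n)) →
      ∃ i, ∀ y, Rd w y → Rd (C i) y → ∃ N, ∀ n ≥ N, f y n = C i n := by
  classical
  obtain ⟨k, hk⟩ := bc_sel F hF f z0 q hq hlim hf
  obtain ⟨t, ht⟩ := lof_core F hF fun x => f (q x)
  obtain ⟨t', ht'⟩ := cont_red fun x p => F p.unpair.2 x p.unpair.1
  refine ⟨jn (jn (jn k t) t') z0, fun w C hkw hor => ?_⟩
  have hkw1 : Rd k w := (((jn_l k t).trans (jn_l _ _)).trans (jn_l _ _)).trans hkw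
  have htw : Rd t w := (((jn_r k t).trans (jn_l _ _)).trans (jn_l _ _)).trans hkw
  have htw' : Rd t' w := ((jn_r _ t').trans (jn_l _ _)).trans hkw
  have hz0 : Rd z0 w := (jn_r _ _).trans hkw
  by_cases hm : ∀ i, IsMeagre {g : ℕ → Bool | ∃ N, ∀ n ≥ N, f (jn w g) n = C i n}
  swap
  · push Not at hm
    obtain ⟨i, hi⟩ := hm
    exact ⟨i, fun y hwy hcy => hk w (C i) hkw1 hi y hwy hcy⟩
  exfalso
  rcases hor with hor | ⟨hC, hor⟩
  · refine hor ?_
    have e : {g : ℕ → Bool | ∃ i N, ∀ n ≥ N, f (jn w g) n = C i n} =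
        ⋃ i, {g : ℕ → Bool | ∃ N, ∀ n ≥ N, f (jn w g) n = C i n} := by
      ext g
      simp only [Set.mem_ofPred_eq, Set.mem_iUnion]
    rw [e]
    exact isMeagre_iUnion hm
  -- `f` and `f ∘ q`
  have h2 : ∀ x, Rd z0 x → ∃ N, ∀ n ≥ N, f x n = f (q x) n := fun x h0 => hf x (q x) h0 (hq x h0).2 (hq x h0).1
  -- values are limit computable
  have hval : ∀ x, Rd w x → Lmc (f (q x)) x := by
    intro x hx
    refine ⟨fun p => F p.unpair.2 x p.unpair.1, ht' x (htw'.trans hx) fun p => ?_, fun n => ?_⟩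
    · obtain ⟨M, hM⟩ := unif (fun x => F p.unpair.2 x p.unpair.1) (hF _ _)
      exact ⟨M, fun x' hx' => hM x x' hx'⟩
    · simp only [Nat.unpair_pair]
      exact hlim x (hz0.trans hx) n
  -- a uniformly limit computable sequence of values
  obtain ⟨C', hC', hm', hor'⟩ : ∃ C' : ℕ → ℕ → Bool, Ulc C' w ∧
      (∀ i, IsMeagre {g : ℕ → Bool | ∃ N, ∀ n ≥ N, f (q (jn w g)) n = C' i n}) ∧
      ∀ g, (∀ v, Lmc v (jn w g) → Lmc v w) → ∃ i N, ∀ n ≥ N, f (q (jn w g)) n = C' i n := by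
    have hmq : ∀ (c : ℕ → Bool) (i : ℕ), (∃ N, ∀ n ≥ N, c n = C i n) →
        IsMeagre {g : ℕ → Bool | ∃ N, ∀ n ≥ N, f (q (jn w g)) n = c n} := by
      intro c i hc
      obtain ⟨N1, hN1⟩ := hc
      refine (hm i).mono fun g hg => ?_
      obtain ⟨N, hN⟩ := hg
      obtain ⟨M, hM⟩ := h2 (jn w g) (hz0.trans (jn_l w g))
      exact ⟨max (max N M) N1, fun n hn => by
        rw [hM n ((le_max_right _ _).trans ((le_max_left _ _).trans hn)),
          hN n ((le_max_left _ _).trans ((le_max_left _ _).trans hn)), hN1 n ((le_max_right _ _).trans hn)]⟩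
    rcases hC with hC | hC
    · -- finitely many values
      have hjw : Rd (jn w fun _ => false) w := jn_rd (Rd.refl w) (Cp.of_prim (Primrec.const 0))
      have hat : ∀ c ∈ Set.range C, ∃ c' : ℕ → Bool, Lmc c' w ∧ (∃ i N, ∀ n ≥ N, c' n = C i n) ∧
          ∀ g, (∀ v, Lmc v (jn w g) → Lmc v w) → (∃ N, ∀ n ≥ N, f (jn w g) n = c n) →
            ∃ N, ∀ n ≥ N, f (q (jn w g)) n = c' n := by
        intro c hc
        by_cases hex : ∃ g, (∀ v, Lmc v (jn w g) → Lmc v w) ∧ ∃ N, ∀ n ≥ N, f (jn w g) n = c n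
        · obtain ⟨g, hg, N, hN⟩ := hex
          obtain ⟨M, hM⟩ := h2 (jn w g) (hz0.trans (jn_l w g))
          obtain ⟨i, rfl⟩ := hc
          refine ⟨f (q (jn w g)), hg _ (hval _ (jn_l w g)), ⟨i, max N M, fun n hn => ?_⟩, fun g' _ hg' => ?_⟩
          · rw [← hM n ((le_max_right _ _).trans hn), hN n ((le_max_left _ _).trans hn)]
          · obtain ⟨N', hN'⟩ := hg'
            obtain ⟨M', hM'⟩ := h2 (jn w g') (hz0.trans (jn_l w g'))
            exact ⟨max (max N M) (max N' M'), fun n hn => by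
              rw [← hM' n ((le_max_right _ _).trans ((le_max_right _ _).trans hn)),
                hN' n ((le_max_left _ _).trans ((le_max_right _ _).trans hn)),
                ← hM n ((le_max_right _ _).trans ((le_max_left _ _).trans hn)),
                hN n ((le_max_left _ _).trans ((le_max_left _ _).trans hn))]⟩
        · push Not at hex
          have hlow : ∀ v, Lmc v (jn w fun _ => false) → Lmc v w := fun v hv => lmc_mono hv hjw
          obtain ⟨i, N, hN⟩ := hor (fun _ => false) hlow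
          obtain ⟨M, hM⟩ := h2 (jn w fun _ => false) (hz0.trans (jn_l w _))
          refine ⟨f (q (jn w fun _ => false)), hlow _ (hval _ (jn_l w _)), ⟨i, max N M, fun n hn => ?_⟩,
            fun g' hg' hg'' => ?_⟩
          · rw [← hM n ((le_max_right _ _).trans hn), hN n ((le_max_left _ _).trans hn)]
          · obtain ⟨N', hN'⟩ := hg''
            obtain ⟨n, hn, hne⟩ := hex g' hg' N'
            exact absurd (hN' n hn) hne
      choose! φ hφ1 hφ2 hφ3 using hat
      have hl : ∀ c ∈ hC.toFinset.toList.map φ, Lmc c w := by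
        intro c hc
        obtain ⟨c1, hc1, rfl⟩ := List.mem_map.1 hc
        exact hφ1 c1 (by simpa using hc1)
      obtain ⟨C', h3, h4, h5⟩ := ulc_list w (φ (C 0)) (hφ1 _ ⟨0, rfl⟩) _ hl
      refine ⟨C', h3, fun i => ?_, fun g hg => ?_⟩
      · have h6 : ∃ c ∈ Set.range C, C' i = φ c := by
          rcases h4 i with h7 | h7
          · exact ⟨C 0, ⟨0, rfl⟩, h7⟩
          · obtain ⟨c1, hc1, hc2⟩ := List.mem_map.1 h7
            exact ⟨c1, by simpa using hc1, hc2.symm⟩
        obtain ⟨c, hc, hc'⟩ := h6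
        obtain ⟨j, hj⟩ := hφ2 c hc
        rw [hc']
        exact hmq _ j hj
      · obtain ⟨i, hi⟩ := hor g hg
        obtain ⟨j, hj⟩ := h5 (φ (C i)) (List.mem_map.2 ⟨C i, by simp, rfl⟩)
        obtain ⟨N, hN⟩ := hφ3 (C i) ⟨i, rfl⟩ g hg hi
        exact ⟨j, N, fun n hn => by rw [hj]; exact hN n hn⟩
    · refine ⟨C, hC, fun i => hmq (C i) i ⟨0, fun _ _ => rfl⟩, fun g hg => ?_⟩
      obtain ⟨i, N, hN⟩ := hor g hg
      obtain ⟨M, hM⟩ := h2 (jn w g) (hz0.trans (jn_l w g))
      exact ⟨i, max N M, fun n hn => by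
        rw [← hM n ((le_max_right _ _).trans hn), hN n ((le_max_left _ _).trans hn)]⟩
  obtain ⟨G, hG1, hG2⟩ := ht w C' htw hC' (fun g n => hlim (jn w g) (hz0.trans (jn_l w g)) n) hm'
  obtain ⟨i, N, hN⟩ := hor' G hG2
  obtain ⟨n, hn, hne⟩ := hG1 i N
  exact hne (hN n hn)

end Pool.Agent.Lib.MP_1a0a6e_lc
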