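import Pool.Agent.Lib.MP_1a0a6e_lc.Comp

/-!
# MP_1a0a6e_lc: homomorphisms from Turing equivalence to eventual equality that are continuous at sufficiently many points
-/

set_option autoImplicit false

open Topology

namespace Pool.Agent.Lib.MP_1a0a6e_lc

/-- on the cone of `z0`, `f` sends Turing equivalent reals to eventually equal sequences -/
def Hm {X : Type} (z0 : ℕ → Bool) (f : (ℕ → Bool) → ℕ → X) : Prop :=
  ∀ x y : ℕ → Bool, Rd z0 x → Rd x y → Rd y x → ∃ N : ℕ, ∀ n ≥ N, f x n = f y n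

/-- `f` is eventually constant on a cone -/
def Cst {X : Type} (f : (ℕ → Bool) → ℕ → X) : Prop :=
  ∃ z : ℕ → Bool, ∃ c : ℕ → X, ∀ x : ℕ → Bool, Rd z x → ∃ N : ℕ, ∀ n ≥ N, f x n = c n

/-- all but finitely many coordinates of `f` are continuous at `x` -/
def Ct {X : Type} [TopologicalSpace X] (f : (ℕ → Bool) → ℕ → X) (x : ℕ → Bool) : Prop :=
  ∃ N : ℕ, ∀ n ≥ N, ContinuousAt (fun w => f w n) x

/-- `f` is continuous modulo finite at `x` and at all joins of `x` -/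
def Gd {X : Type} [TopologicalSpace X] (f : (ℕ → Bool) → ℕ → X) (x : ℕ → Bool) : Prop :=
  Ct f x ∧ ∀ y, Ct f (jn x y)

/-- the cylinder given by the first `k` bits of `y` -/
def Cy (k : ℕ) (y w : ℕ → Bool) : Prop := ∀ i < k, w i = y i

theorem Cy.refl (k : ℕ) (y : ℕ → Bool) : Cy k y y := fun _ _ => rfl

theorem cy_nhds (x : ℕ → Bool) (s : Set (ℕ → Bool)) (hs : s ∈ 𝓝 x) : ∃ k, ∀ w, Cy k x w → w ∈ s := by
  rw [nhds_pi, Filter.mem_pi] at hs
  obtain ⟨I, hI, t, ht, hts⟩ := hs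
  obtain ⟨k, hk⟩ := hI.bddAbove
  refine ⟨k + 1, fun w hw => hts ?_⟩
  intro i hi
  rw [hw i (Nat.lt_succ_of_le (hk hi))]
  exact mem_of_mem_nhds (ht i)

theorem cy_jn {k : ℕ} {x y x' y' : ℕ → Bool} (hx : Cy k x x') (hy : Cy k y y') : Cy k (jn x y) (jn x' y') := by
  intro i hi
  unfold jn
  split_ifs
  · exact hx _ (by omega)
  · exact hy _ (by omega)

theorem lem_a {X : Type} (f : (ℕ → Bool) → ℕ → X) (z0 : ℕ → Bool) (hf : Hm z0 f) (hc : ¬ Cst f) (x y0 : ℕ → Bool)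
    (hx0 : Rd z0 x) (k : ℕ) :
    ∃ y, Cy k y0 y ∧ ¬ ∃ N : ℕ, ∀ n ≥ N, f (jn x y) n = f x n := by
  by_contra h
  push Not at h
  refine hc ⟨x, f x, fun w hw => ?_⟩
  have h1 : Rd (jn x (pre k y0 w)) w := jn_rd hw (pre_rd k y0 w).1
  have h2 : Rd w (jn x (pre k y0 w)) := (pre_rd k y0 w).2.trans (jn_r _ _)
  obtain ⟨N, hN⟩ := hf w (jn x (pre k y0 w)) (hx0.trans hw) h2 h1
  have h3 : Cy k y0 (pre k y0 w) := by
    intro i hi
    unfold pre
    rw [if_pos hi]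
  obtain ⟨M, hM⟩ := h _ h3
  exact ⟨max N M, fun n hn => by
    rw [hN n (le_trans (le_max_left _ _) hn), hM n (le_trans (le_max_right _ _) hn)]⟩

/-- the real with the binary digits of `c` -/
def tb (c : ℕ) : ℕ → Bool := fun i => c.testBit i

theorem exists_tb (k : ℕ) (y : ℕ → Bool) : ∃ c, Cy k (tb c) y := by
  induction k with
  | zero => exact ⟨0, fun i hi => absurd hi (by omega)⟩
  | succ k ih =>
    refine ⟨Nat.ofBits fun i : Fin (k + 1) => y i, fun i hi => ?_⟩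
    unfold tb
    rw [Nat.testBit_ofBits_lt _ _ hi]

/-- the test of the search: `e` codes `m`, `k'`, `c'`, `N` -/
def Ps {X : Type} (f : (ℕ → Bool) → ℕ → X) (x : ℕ → Bool) (i k c e : ℕ) : Prop :=
  i ≤ e.unpair.1.unpair.1 ∧ k < e.unpair.1.unpair.2 ∧ Cy k (tb c) (tb e.unpair.2.unpair.1) ∧
    ∀ x' y', Cy e.unpair.2.unpair.2 x x' → Cy e.unpair.1.unpair.2 (tb e.unpair.2.unpair.1) y' →
      f (jn x' y') e.unpair.1.unpair.1 ≠ f x' e.unpair.1.unpair.1

theorem lem_b {X : Type} [TopologicalSpace X] [T2Space X] (f : (ℕ → Bool) → ℕ → X) (z0 : ℕ → Bool) (hf : Hm z0 f)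
    (hc : ¬ Cst f) (x : ℕ → Bool) (hx0 : Rd z0 x) (hx : Gd f x) (i k c : ℕ) : ∃ e, Ps f x i k c e := by
  obtain ⟨y, hy, hyn⟩ := lem_a f z0 hf hc x (tb c) hx0 k
  obtain ⟨Nx, hNx⟩ := hx.1
  obtain ⟨Ny, hNy⟩ := hx.2 y
  obtain ⟨m, hm', hne⟩ : ∃ m ≥ max i (max Nx Ny), f (jn x y) m ≠ f x m := by
    by_contra hcon
    push Not at hcon
    exact hyn ⟨_, hcon⟩
  have hm : i ≤ m := le_trans (le_max_left _ _) hm'
  obtain ⟨U, V, hU, hV, hxU, hxV, hUV⟩ := t2_separation hne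
  have h1 := hNy m (le_trans (le_trans (le_max_right _ _) (le_max_right _ _)) hm')
  have h2 := hNx m (le_trans (le_trans (le_max_left _ _) (le_max_right _ _)) hm')
  obtain ⟨K, hK⟩ := cy_nhds _ _ (h1 (hU.mem_nhds hxU))
  obtain ⟨N, hN⟩ := cy_nhds _ _ (h2 (hV.mem_nhds hxV))
  obtain ⟨c', hc'⟩ := exists_tb (max K (k + 1)) y
  refine ⟨Nat.pair (Nat.pair m (max K (k + 1))) (Nat.pair c' (max K N)), ?_⟩
  unfold Ps
  simp only [Nat.unpair_pair]
  refine ⟨hm, ?_, ?_, ?_⟩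
  · exact lt_of_lt_of_le (Nat.lt_succ_self k) (le_max_right _ _)
  · intro j hj
    rw [← hc' j (lt_of_lt_of_le hj (le_trans (Nat.le_succ k) (le_max_right _ _))), hy j hj]
  · intro x' y' hx' hy'
    have h3 : f (jn x' y') m ∈ U := hK _ (cy_jn (fun j hj => hx' j (lt_of_lt_of_le hj (le_max_left _ _)))
      fun j hj => by
        rw [hy' j (lt_of_lt_of_le hj (le_max_left _ _)), hc' j (lt_of_lt_of_le hj (le_max_left _ _))])
    have h4 : f x' m ∈ V := hN _ fun j hj => hx' j (lt_of_lt_of_le hj (le_max_right _ _))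
    intro h5
    rw [h5] at h3
    exact Set.disjoint_left.1 hUV h3 h4

theorem ps_congr {X : Type} (f : (ℕ → Bool) → ℕ → X) {x x' : ℕ → Bool} (i k c e : ℕ) (h : Cy e.unpair.2.unpair.2 x x') :
    Ps f x i k c e ↔ Ps f x' i k c e := by
  have h1 : ∀ w, Cy e.unpair.2.unpair.2 x w ↔ Cy e.unpair.2.unpair.2 x' w := fun w =>
    ⟨fun h2 j hj => by rw [h2 j hj, h j hj], fun h2 j hj => by rw [h2 j hj, h j hj]⟩
  unfold Ps
  simp only [h1]

open Classical in
/-- one step of the construction -/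
noncomputable def stp {X : Type} (f : (ℕ → Bool) → ℕ → X) (x : ℕ → Bool) (i : ℕ) (τ : ℕ × ℕ) : ℕ × ℕ :=
  if h : ∃ e, Ps f x i τ.1 τ.2 e then ((Nat.find h).unpair.1.unpair.2, (Nat.find h).unpair.2.unpair.1) else τ

/-- the construction -/
noncomputable def cns {X : Type} (f : (ℕ → Bool) → ℕ → X) (x : ℕ → Bool) : ℕ → ℕ × ℕ
  | 0 => (0, 0)
  | i + 1 => stp f x i (cns f x i)

theorem stp_loc {X : Type} (f : (ℕ → Bool) → ℕ → X) (x : ℕ → Bool) (i : ℕ) (τ : ℕ × ℕ) (h : ∃ e, Ps f x i τ.1 τ.2 e) :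
    ∃ N, ∀ x', Cy N x x' → stp f x' i τ = stp f x i τ := by
  classical
  have hb : ∃ N, ∀ e ≤ Nat.find h, e.unpair.2.unpair.2 ≤ N :=
    ⟨∑ e ∈ Finset.range (Nat.find h + 1), e.unpair.2.unpair.2, fun e he =>
      Finset.single_le_sum (f := fun e : ℕ => e.unpair.2.unpair.2) (fun _ _ => Nat.zero_le _)
        (Finset.mem_range.2 (Nat.lt_succ_of_le he))⟩
  obtain ⟨N, hN⟩ := hb
  refine ⟨N, fun x' hx' => ?_⟩
  have hcong : ∀ e ≤ Nat.find h, (Ps f x i τ.1 τ.2 e ↔ Ps f x' i τ.1 τ.2 e) := fun e he =>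
    ps_congr f i τ.1 τ.2 e fun j hj => hx' j (lt_of_lt_of_le hj (hN e he))
  have h' : ∃ e, Ps f x' i τ.1 τ.2 e := ⟨Nat.find h, (hcong _ le_rfl).1 (Nat.find_spec h)⟩
  have e1 : Nat.find h' = Nat.find h := by
    rw [Nat.find_eq_iff]
    refine ⟨(hcong _ le_rfl).1 (Nat.find_spec h), fun e he he' => ?_⟩
    exact Nat.find_min h he ((hcong e he.le).2 he')
  unfold stp
  rw [dif_pos h, dif_pos h', e1]

theorem main_good {X : Type} [TopologicalSpace X] [T2Space X] (f : (ℕ → Bool) → ℕ → X) (z0 : ℕ → Bool)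
    (hf : Hm z0 f) (hg : ∀ z, ∃ x, Rd z x ∧ Gd f x) : Cst f := by
  classical
  by_contra hc
  obtain ⟨t, ht⟩ := cont_red fun x n => (cns f x (n + 1)).2.testBit n
  obtain ⟨x, hx', hxg⟩ := hg (jn t z0)
  have hx : Rd t x := (jn_l t z0).trans hx'
  have hx0 : Rd z0 x := (jn_r t z0).trans hx'
  have hex : ∀ i (τ : ℕ × ℕ), ∃ e, Ps f x i τ.1 τ.2 e := fun i τ => lem_b f z0 hf hc x hx0 hxg i τ.1 τ.2
  -- the construction is locally constant at `x`
  have hloc : ∀ i, ∃ N, ∀ x', Cy N x x' → cns f x' i = cns f x i := by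
    intro i
    induction i with
    | zero => exact ⟨0, fun _ _ => rfl⟩
    | succ i ih =>
      obtain ⟨N1, hN1⟩ := ih
      obtain ⟨N2, hN2⟩ := stp_loc f x i (cns f x i) (hex i _)
      refine ⟨max N1 N2, fun x' hx' => ?_⟩
      show stp f x' i (cns f x' i) = stp f x i (cns f x i)
      rw [hN1 x' fun j hj => hx' j (lt_of_lt_of_le hj (le_max_left _ _)),
        hN2 x' fun j hj => hx' j (lt_of_lt_of_le hj (le_max_right _ _))]
  set y : ℕ → Bool := fun n => (cns f x (n + 1)).2.testBit n with hy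
  have hyx : Rd y x := ht x hx fun n => by
    obtain ⟨N, hN⟩ := hloc (n + 1)
    exact ⟨N, fun x' hx' => by rw [hN x' hx']⟩
  -- the steps
  have hstep : ∀ i, ∃ e, Ps f x i (cns f x i).1 (cns f x i).2 e ∧ (cns f x (i + 1)).1 = e.unpair.1.unpair.2 ∧
      (cns f x (i + 1)).2 = e.unpair.2.unpair.1 := by
    intro i
    refine ⟨Nat.find (hex i (cns f x i)), Nat.find_spec (hex i (cns f x i)), ?_, ?_⟩
    · show (stp f x i (cns f x i)).1 = _
      unfold stp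
      rw [dif_pos (hex i (cns f x i))]
    · show (stp f x i (cns f x i)).2 = _
      unfold stp
      rw [dif_pos (hex i (cns f x i))]
  have hmono : ∀ i, (cns f x i).1 < (cns f x (i + 1)).1 ∧ Cy (cns f x i).1 (tb (cns f x i).2) (tb (cns f x (i + 1)).2) := by
    intro i
    obtain ⟨e, he, e1, e2⟩ := hstep i
    rw [e1, e2]
    exact ⟨he.2.1, he.2.2.1⟩
  have hge : ∀ i, i ≤ (cns f x i).1 := by
    intro i
    induction i with
    | zero => exact Nat.zero_le _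
    | succ i ih => exact lt_of_le_of_lt ih (hmono i).1
  have hmono2 : ∀ i j, i ≤ j → (cns f x i).1 ≤ (cns f x j).1 ∧ Cy (cns f x i).1 (tb (cns f x i).2) (tb (cns f x j).2) := by
    intro i j hij
    induction j, hij using Nat.le_induction with
    | base => exact ⟨le_rfl, Cy.refl _ _⟩
    | succ j _ ih =>
      refine ⟨ih.1.trans (hmono j).1.le, fun l hl => ?_⟩
      rw [(hmono j).2 l (lt_of_lt_of_le hl ih.1), ih.2 l hl]
  have hycy : ∀ i, Cy (cns f x i).1 (tb (cns f x i).2) y := by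
    intro i l hl
    show tb (cns f x (l + 1)).2 l = tb (cns f x i).2 l
    rcases le_total i (l + 1) with h | h
    · exact (hmono2 i (l + 1) h).2 l hl
    · exact ((hmono2 (l + 1) i h).2 l (hge (l + 1))).symm
  obtain ⟨N, hN⟩ := hf (jn x y) x (hx0.trans (jn_l x y)) (jn_rd (Rd.refl x) hyx) (jn_l x y)
  obtain ⟨e, he, e1, e2⟩ := hstep N
  have h1 := hycy (N + 1)
  rw [e1, e2] at h1
  exact he.2.2.2 x y (Cy.refl _ _) h1 (hN _ he.1)

theorem main_sel {X : Type} [TopologicalSpace X] [T2Space X] (f : (ℕ → Bool) → ℕ → X) (z0 : ℕ → Bool)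
    (hf : Hm z0 f) (q : (ℕ → Bool) → ℕ → Bool) (hq : ∀ u, Rd z0 u → Rd (q u) u ∧ Rd u (q u))
    (hg : ∀ z, ∃ u, Rd z u ∧ Gd (fun u => f (q u)) u) : Cst f := by
  have h1 : Hm z0 fun u => f (q u) := fun x y h0 hxy hyx =>
    hf _ _ (h0.trans (hq x h0).2) (((hq x h0).1.trans hxy).trans (hq y (h0.trans hxy)).2)
      (((hq y (h0.trans hxy)).1.trans hyx).trans (hq x h0).2)
  obtain ⟨z, c, hz⟩ := main_good (fun u => f (q u)) z0 h1 hg
  refine ⟨jn z z0, c, fun x hx => ?_⟩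
  have hx0 : Rd z0 x := (jn_r z z0).trans hx
  obtain ⟨N1, hN1⟩ := hz x ((jn_l z z0).trans hx)
  obtain ⟨N2, hN2⟩ := hf x (q x) hx0 (hq x hx0).2 (hq x hx0).1
  exact ⟨max N1 N2, fun n hn => by
    rw [hN2 n (le_trans (le_max_right _ _) hn)]
    exact hN1 n (le_trans (le_max_left _ _) hn)⟩

end Pool.Agent.Lib.MP_1a0a6e_lc
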