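import Pool.Agent.Lib.MP_1a0a6e_lc.Main
import Pool.Agent.Lib.MP_1a0a6e_lc.Dir

/-!
# MP_1a0a6e_lc: a computable choice of two points of a large closed set with given sum

`K` is closed of measure above `1/2`. There is a real `t` such that for every `z ≥_T t` there is some `x ≤_T z` with `x ∈ K` and `x + z ∈ K`. The bits of `x` are found by a search through finite parts of `z` (positivity of the measure of the set of such `x` in a cylinder is an open condition on `z`), so `x` depends continuously on `z`.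
-/

set_option autoImplicit false

open MeasureTheory Set Topology
open scoped symmDiff ENNReal

namespace Pool.Agent.Lib.MP_1a0a6e_lc

theorem cyl_nhds {α : Type} [TopologicalSpace α] (x : ℕ → α) (s : Set (ℕ → α)) (hs : s ∈ 𝓝 x) :
    ∃ k, ∀ w : ℕ → α, (∀ i < k, w i = x i) → w ∈ s := by
  rw [nhds_pi, Filter.mem_pi] at hs
  obtain ⟨I, hI, t, ht, hts⟩ := hs
  obtain ⟨k, hk⟩ := hI.bddAbove
  refine ⟨k + 1, fun w hw => hts ?_⟩
  intro i hi
  rw [hw i (Nat.lt_succ_of_le (hk hi))]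
  exact mem_of_mem_nhds (ht i)

/-- encoding -/
def en (x : ℕ → Bool) : Gp := fun n => if x n then 1 else 0

theorem dec_en (x : ℕ → Bool) : dec (en x) = x := by
  funext n
  show decide ((if x n then (1 : ZMod 2) else 0) = 1) = x n
  cases x n <;> decide

theorem en_dec (w : Gp) : en (dec w) = w := by
  funext n
  show (if decide (w n = 1) then (1 : ZMod 2) else 0) = w n
  rcases z2_cases (w n) with h | h
  · rw [h]; decide
  · rw [h]; decide

theorem en_of_dec {w : Gp} {x : ℕ → Bool} {n : ℕ} (h : dec w n = x n) : w n = en x n := by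
  have h1 : en (dec w) n = w n := by rw [en_dec]
  rw [← h1]
  show (if dec w n then (1 : ZMod 2) else 0) = if x n then 1 else 0
  rw [h]

/-- the neighbourhoods of `K` given by the first `j` coordinates -/
def nb (K : Set Gp) (j : ℕ) : Set Gp := {w | ∃ v ∈ K, ∀ i < j, w i = v i}

theorem nb_open (K : Set Gp) (j : ℕ) : IsOpen (nb K j) := by
  rw [isOpen_iff_mem_nhds]
  rintro w ⟨v, hv, hw⟩
  have h : {w' : Gp | ∀ i < j, w' i = w i} ∈ 𝓝 w := by
    have e : {w' : Gp | ∀ i < j, w' i = w i} = Set.pi (Set.Iio j) fun i => {w i} := by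
      ext w'
      simp [Set.mem_pi]
    rw [e]
    exact set_pi_mem_nhds (Set.finite_Iio j) fun i _ => (isOpen_discrete _).mem_nhds rfl
  refine Filter.mem_of_superset h fun w' hw' => ⟨v, hv, fun i hi => ?_⟩
  rw [hw' i hi, hw i hi]

theorem nb_small (K : Set Gp) (hK : IsClosed K) (a : ℝ≥0∞) (ha : 0 < a) : ∃ j, mu (nb K j \ K) < a := by
  have h1 : Filter.Tendsto (fun j => mu (nb K j \ K)) Filter.atTop (𝓝 (mu (⋂ j : ℕ, nb K j \ K))) := by
    refine tendsto_measure_iInter_atTop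
      (fun j => ((nb_open K j).measurableSet.diff hK.measurableSet).nullMeasurableSet) ?_ ⟨0, measure_ne_top _ _⟩
    rintro i j hij w ⟨⟨v, hv, hw⟩, hwK⟩
    exact ⟨⟨v, hv, fun l hl => hw l (lt_of_lt_of_le hl hij)⟩, hwK⟩
  have h2 : (⋂ j : ℕ, nb K j \ K) = ∅ := by
    ext w
    simp only [mem_iInter, mem_sdiff, mem_empty_iff_false, iff_false]
    intro h
    have hwK : w ∉ K := (h 0).2
    obtain ⟨k, hk⟩ := cyl_nhds w Kᶜ (hK.isOpen_compl.mem_nhds hwK)
    obtain ⟨⟨v, hv, hw⟩, -⟩ := h k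
    exact hk v (fun i hi => (hw i hi).symm) hv
  rw [h2, measure_empty] at h1
  obtain ⟨j, hj⟩ := (h1.eventually (gt_mem_nhds ha)).exists
  exact ⟨j, hj⟩

/-- the points `x` of `K` with `x + z` in `K` whose first `i` bits are those of `c` form a set of positive measure -/
def Pz (K : Set Gp) (i c : ℕ) (z : ℕ → Bool) : Prop := 0 < mu {w | (w ∈ K ∧ Cy i (tb c) (dec w)) ∧ w + en z ∈ K}

theorem pz_open (K : Set Gp) (hK : IsClosed K) (i c : ℕ) (z : ℕ → Bool) (h : Pz K i c z) :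
    ∃ N, ∀ z', Cy N z z' → Pz K i c z' := by
  obtain ⟨j, hj⟩ := nb_small K hK _ h
  refine ⟨j, fun z' hz' => ?_⟩
  have hen : ∀ l < j, en z' l = en z l := fun l hl => by
    show (if z' l then (1 : ZMod 2) else 0) = if z l then 1 else 0
    rw [hz' l hl]
  have hsub : {w | (w ∈ K ∧ Cy i (tb c) (dec w)) ∧ w + en z ∈ K} ⊆
      {w | (w ∈ K ∧ Cy i (tb c) (dec w)) ∧ w + en z' ∈ K} ∪ (fun w => w + en z') ⁻¹' (nb K j \ K) := by
    rintro w ⟨hw1, hw2⟩
    by_cases h3 : w + en z' ∈ K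
    · exact Or.inl ⟨hw1, h3⟩
    · refine Or.inr ⟨⟨w + en z, hw2, fun l hl => ?_⟩, h3⟩
      show w l + en z' l = w l + en z l
      rw [hen l hl]
  have h4 := le_trans (measure_mono hsub) (measure_union_le (μ := mu) _ _)
  rw [(measurePreserving_add_right mu (en z')).measure_preimage
    ((nb_open K j).measurableSet.diff hK.measurableSet).nullMeasurableSet] at h4
  unfold Pz
  by_contra h5
  have h6 : mu {w | (w ∈ K ∧ Cy i (tb c) (dec w)) ∧ w + en z' ∈ K} = 0 := le_antisymm (not_lt.1 h5) bot_le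
  rw [h6, zero_add] at h4
  exact lt_irrefl _ (lt_of_le_of_lt h4 hj)

theorem pz_ext (K : Set Gp) (i c : ℕ) (z : ℕ → Bool) (h : Pz K i c z) :
    ∃ c', Cy i (tb c) (tb c') ∧ Pz K (i + 1) c' z := by
  have hsub : {w | (w ∈ K ∧ Cy i (tb c) (dec w)) ∧ w + en z ∈ K} ⊆
      {w | ((w ∈ K ∧ Cy i (tb c) (dec w)) ∧ w + en z ∈ K) ∧ dec w i = true} ∪
      {w | ((w ∈ K ∧ Cy i (tb c) (dec w)) ∧ w + en z ∈ K) ∧ dec w i = false} := by
    intro w hw
    cases hb : dec w i
    · exact Or.inr ⟨hw, hb⟩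
    · exact Or.inl ⟨hw, hb⟩
  have h1 : ∃ b, 0 < mu {w | ((w ∈ K ∧ Cy i (tb c) (dec w)) ∧ w + en z ∈ K) ∧ dec w i = b} := by
    by_contra hcon
    push Not at hcon
    have h2 := le_trans (measure_mono hsub) (measure_union_le (μ := mu) _ _)
    have h3 := le_antisymm (hcon true) bot_le
    have h4 := le_antisymm (hcon false) bot_le
    rw [h3, h4, add_zero] at h2
    exact absurd (lt_of_lt_of_le h h2) (lt_irrefl _)
  obtain ⟨b, hb⟩ := h1
  obtain ⟨c', hc'⟩ := exists_tb (i + 1) fun n => if n < i then tb c n else b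
  have hc1 : ∀ n < i, tb c' n = tb c n := fun n hn => by
    have h2 := hc' n (by omega)
    exact h2.symm.trans (if_pos hn)
  have hc2 : tb c' i = b := by
    have h2 := hc' i (by omega)
    exact h2.symm.trans (if_neg (lt_irrefl i))
  refine ⟨c', fun n hn => hc1 n hn, lt_of_lt_of_le hb (measure_mono ?_)⟩
  rintro w ⟨⟨⟨hw1, hw2⟩, hw3⟩, hw4⟩
  refine ⟨⟨hw1, fun n hn => ?_⟩, hw3⟩
  rcases Nat.lt_succ_iff_lt_or_eq.1 hn with h5 | h5
  · rw [hc1 n h5]
    exact hw2 n h5
  · rw [h5, hc2]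
    exact hw4

theorem pz_zero (K : Set Gp) (hK : IsClosed K) (hmu : 1 / 2 < mu.real K) (z : ℕ → Bool) : Pz K 0 0 z := by
  have h1 : mu.real ((fun w => w + en z) ⁻¹' K) = mu.real K := by
    unfold Measure.real
    rw [(measurePreserving_add_right mu (en z)).measure_preimage hK.measurableSet.nullMeasurableSet]
  by_contra h
  have h2 : mu (K ∩ (fun w => w + en z) ⁻¹' K) = 0 := by
    refine le_antisymm (le_trans (measure_mono ?_) (not_lt.1 h)) bot_le
    rintro w ⟨hw1, hw2⟩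
    exact ⟨⟨hw1, fun n hn => absurd hn (by omega)⟩, hw2⟩
  have h3 := measureReal_union_add_inter (μ := mu) (s := K)
    (t := (fun w => w + en z) ⁻¹' K) ((measurePreserving_add_right mu (en z)).measurable hK.measurableSet)
  have h4 : mu.real (K ∩ (fun w => w + en z) ⁻¹' K) = 0 := by
    unfold Measure.real
    rw [h2]
    rfl
  have h5 : mu.real (K ∪ (fun w => w + en z) ⁻¹' K) ≤ 1 := measureReal_le_one
  rw [h4, h1] at h3
  linarith

/-- the test of the search -/
def Pq (K : Set Gp) (z : ℕ → Bool) (i c e : ℕ) : Prop :=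
  Cy i (tb c) (tb e.unpair.2) ∧ ∀ z', Cy e.unpair.1 z z' → Pz K (i + 1) e.unpair.2 z'

theorem pq_ex (K : Set Gp) (hK : IsClosed K) (z : ℕ → Bool) (i c : ℕ) (h : Pz K i c z) : ∃ e, Pq K z i c e := by
  obtain ⟨c', h1, h2⟩ := pz_ext K i c z h
  obtain ⟨N, hN⟩ := pz_open K hK (i + 1) c' z h2
  refine ⟨Nat.pair N c', ?_⟩
  unfold Pq
  rw [Nat.unpair_pair]
  exact ⟨h1, hN⟩

theorem pq_congr (K : Set Gp) {z z' : ℕ → Bool} (i c e : ℕ) (h : Cy e.unpair.1 z z') : Pq K z i c e ↔ Pq K z' i c e := by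
  have h1 : ∀ w, Cy e.unpair.1 z w ↔ Cy e.unpair.1 z' w := fun w =>
    ⟨fun h2 j hj => by rw [h2 j hj, h j hj], fun h2 j hj => by rw [h2 j hj, h j hj]⟩
  unfold Pq
  simp only [h1]

open Classical in
/-- one step of the search -/
noncomputable def stq (K : Set Gp) (z : ℕ → Bool) (i c : ℕ) : ℕ :=
  if h : ∃ e, Pq K z i c e then (Nat.find h).unpair.2 else c

/-- the search -/
noncomputable def cnq (K : Set Gp) (z : ℕ → Bool) : ℕ → ℕ
  | 0 => 0
  | i + 1 => stq K z i (cnq K z i)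

theorem stq_loc (K : Set Gp) (z : ℕ → Bool) (i c : ℕ) (h : ∃ e, Pq K z i c e) :
    ∃ N, ∀ z', Cy N z z' → stq K z' i c = stq K z i c := by
  classical
  have hb : ∃ N, ∀ e ≤ Nat.find h, e.unpair.1 ≤ N :=
    ⟨∑ e ∈ Finset.range (Nat.find h + 1), e.unpair.1, fun e he =>
      Finset.single_le_sum (f := fun e : ℕ => e.unpair.1) (fun _ _ => Nat.zero_le _)
        (Finset.mem_range.2 (Nat.lt_succ_of_le he))⟩
  obtain ⟨N, hN⟩ := hb
  refine ⟨N, fun z' hz' => ?_⟩
  have hcong : ∀ e ≤ Nat.find h, (Pq K z i c e ↔ Pq K z' i c e) := fun e he =>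
    pq_congr K i c e fun j hj => hz' j (lt_of_lt_of_le hj (hN e he))
  have h' : ∃ e, Pq K z' i c e := ⟨Nat.find h, (hcong _ le_rfl).1 (Nat.find_spec h)⟩
  have e1 : Nat.find h' = Nat.find h := by
    rw [Nat.find_eq_iff]
    refine ⟨(hcong _ le_rfl).1 (Nat.find_spec h), fun e he he' => ?_⟩
    exact Nat.find_min h he ((hcong e he.le).2 he')
  unfold stq
  rw [dif_pos h, dif_pos h', e1]

theorem cnq_spec (K : Set Gp) (hK : IsClosed K) (hmu : 1 / 2 < mu.real K) (z : ℕ → Bool) (i : ℕ) :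
    Pz K i (cnq K z i) z ∧ Cy i (tb (cnq K z i)) (tb (cnq K z (i + 1))) := by
  have hst : ∀ i, Pz K i (cnq K z i) z →
      Pz K (i + 1) (cnq K z (i + 1)) z ∧ Cy i (tb (cnq K z i)) (tb (cnq K z (i + 1))) := by
    intro i hi
    classical
    have h := pq_ex K hK z i (cnq K z i) hi
    have e : cnq K z (i + 1) = (Nat.find h).unpair.2 := by
      show stq K z i (cnq K z i) = _
      unfold stq
      rw [dif_pos h]
    have h1 := Nat.find_spec h
    rw [e]
    exact ⟨h1.2 z (Cy.refl _ _), h1.1⟩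
  have hall : ∀ i, Pz K i (cnq K z i) z := by
    intro i
    induction i with
    | zero => exact pz_zero K hK hmu z
    | succ i ih => exact (hst i ih).1
  exact ⟨hall i, (hst i (hall i)).2⟩

/-- a computable choice of two points of `K` with sum `z` -/
theorem sel (K : Set Gp) (hK : IsClosed K) (hmu : 1 / 2 < mu.real K) :
    ∃ t : ℕ → Bool, ∀ z, Rd t z → ∃ x, Rd x z ∧ en x ∈ K ∧ en x + en z ∈ K := by
  obtain ⟨t, ht⟩ := cont_red fun z n => tb (cnq K z (n + 1)) n
  refine ⟨t, fun z hz => ⟨fun n => tb (cnq K z (n + 1)) n, ht z hz fun n => ?_, ?_⟩⟩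
  · have hloc : ∀ i, ∃ N, ∀ z', Cy N z z' → cnq K z' i = cnq K z i := by
      intro i
      induction i with
      | zero => exact ⟨0, fun _ _ => rfl⟩
      | succ i ih =>
        obtain ⟨N1, hN1⟩ := ih
        obtain ⟨N2, hN2⟩ := stq_loc K z i (cnq K z i) (pq_ex K hK z i _ (cnq_spec K hK hmu z i).1)
        refine ⟨max N1 N2, fun z' hz' => ?_⟩
        show stq K z' i (cnq K z' i) = stq K z i (cnq K z i)
        rw [hN1 z' fun j hj => hz' j (lt_of_lt_of_le hj (le_max_left _ _)),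
          hN2 z' fun j hj => hz' j (lt_of_lt_of_le hj (le_max_right _ _))]
    obtain ⟨N, hN⟩ := hloc (n + 1)
    exact ⟨N, fun z' hz' => by rw [hN z' hz']⟩
  · have hmono : ∀ i j, i ≤ j → Cy i (tb (cnq K z i)) (tb (cnq K z j)) := by
      intro i j hij
      induction j, hij using Nat.le_induction with
      | base => exact Cy.refl _ _
      | succ j hij ih =>
        intro l hl
        rw [(cnq_spec K hK hmu z j).2 l (lt_of_lt_of_le hl hij), ih l hl]
    have hlim : ∀ i, ∃ w : Gp, w ∈ K ∧ w + en z ∈ K ∧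
        ∀ l < i, w l = en (fun n => tb (cnq K z (n + 1)) n) l := by
      intro i
      have h1 : ({w | (w ∈ K ∧ Cy i (tb (cnq K z i)) (dec w)) ∧ w + en z ∈ K} : Set Gp).Nonempty := by
        by_contra h2
        rw [Set.not_nonempty_iff_eq_empty] at h2
        have h3 := (cnq_spec K hK hmu z i).1
        unfold Pz at h3
        rw [h2, measure_empty] at h3
        exact lt_irrefl _ h3
      obtain ⟨w, ⟨hw1, hw2⟩, hw3⟩ := h1
      refine ⟨w, hw1, hw3, fun l hl => en_of_dec ?_⟩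
      rw [hw2 l hl]
      exact hmono (l + 1) i hl l (Nat.lt_succ_self l)
    constructor
    · by_contra h
      obtain ⟨k, hk⟩ := cyl_nhds _ Kᶜ (hK.isOpen_compl.mem_nhds h)
      obtain ⟨w, hw1, -, hw3⟩ := hlim k
      exact hk w hw3 hw1
    · by_contra h
      obtain ⟨k, hk⟩ := cyl_nhds _ Kᶜ (hK.isOpen_compl.mem_nhds h)
      obtain ⟨w, -, hw2, hw3⟩ := hlim k
      refine hk (w + en z) (fun l hl => ?_) hw2
      show w l + en z l = en (fun n => tb (cnq K z (n + 1)) n) l + en z l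
      rw [hw3 l hl]

theorem main_two (f : (ℕ → Bool) → ℕ → Bool) (hf : Measurable f) (hom : ∀ x y, Rd x y → Rd y x → Ev (f x) (f y)) :
    ∃ k c : ℕ → Bool, ∀ z, Rd k z → ∃ x y, Ev (f x) c ∧ Ev (f y) c ∧ Rd x z ∧ Rd y z ∧ Rd z (jn x y) := by
  obtain ⟨c, hc⟩ := hom_ae f hf hom
  rw [ae_iff] at hc
  obtain ⟨U, hU1, hU2, hU3⟩ := Set.exists_isOpen_lt_of_lt {w | ¬ Ev (f (dec w)) c} (1 / 4) (by
    rw [hc]
    norm_num)
  have hmu : 1 / 2 < mu.real Uᶜ := by
    rw [probReal_compl_eq_one_sub hU2.measurableSet]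
    have h1 : mu.real U < 1 / 4 := by
      have h2 := ENNReal.toReal_strict_mono (by norm_num) hU3
      have h3 : ((1 : ℝ≥0∞) / 4).toReal = 1 / 4 := by norm_num
      rw [h3] at h2
      exact h2
    linarith
  have hK : ∀ w ∈ Uᶜ, Ev (f (dec w)) c := fun w hw => by
    by_contra h
    exact hw (hU1 h)
  obtain ⟨t, ht⟩ := sel Uᶜ hU2.isClosed_compl hmu
  refine ⟨t, c, fun z hz => ?_⟩
  obtain ⟨x, hxz, hx1, hx2⟩ := ht z hz
  have h1 := hK _ hx1
  have h2 := hK _ hx2
  rw [dec_en] at h1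
  refine ⟨x, dec (en x + en z), h1, h2, hxz, ?_, ?_⟩
  · have p1 : Primrec fun n : ℕ => 2 * n + 1 := Primrec.succ.comp (Primrec.nat_mul.comp (Primrec.const 2) Primrec.id)
    have p0 : Primrec fun n : ℕ => 2 * n := Primrec.nat_mul.comp (Primrec.const 2) Primrec.id
    have h3 : Rd (dec (en x + en z)) (jn x z) := by
      refine rd_xor _ _ 1 0 (fun n => 2 * n) (fun n => 2 * n + 1) p0 p1 fun n => ?_
      rw [if_pos (Nat.mod_one n)]
      have e1 : jn x z (2 * n) = x n := by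
        unfold jn
        rw [if_pos (by omega)]
        exact congrArg x (by omega)
      have e2 : jn x z (2 * n + 1) = z n := by
        unfold jn
        rw [if_neg (by omega)]
        exact congrArg z (by omega)
      have e3 : dec (en x + en z) n = xor (dec (en x) n) (dec (en z) n) := dec_add _ _
      rw [e1, e2, e3, dec_en, dec_en]
    exact h3.trans (jn_rd hxz (Rd.refl z))
  · have h3 := rd_sum z (en x) (en z) rfl
    rwa [dec_en] at h3

/-- the same above one real `z0` -/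
theorem main_two_rel (f : (ℕ → Bool) → ℕ → Bool) (hf : Measurable f) (z0 : ℕ → Bool)
    (hom : ∀ x y, Rd z0 x → Rd x y → Rd y x → Ev (f x) (f y)) :
    ∃ k c : ℕ → Bool, ∀ z, Rd k z → ∃ x y, Rd z0 x ∧ Rd z0 y ∧ Ev (f x) c ∧ Ev (f y) c ∧
      Rd (jn x y) z ∧ Rd z (jn x y) := by
  have hj : Measurable fun w : ℕ → Bool => jn z0 w := by
    refine measurable_pi_lambda _ fun n => ?_
    unfold jn
    by_cases h : n % 2 = 0
    · simp only [h, if_true]
      exact measurable_const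
    · simp only [h, if_false]
      exact measurable_pi_apply _
  have hmon : ∀ x y, Rd x y → Rd (jn z0 x) (jn z0 y) := fun x y h => jn_rd (jn_l z0 y) (h.trans (jn_r z0 y))
  obtain ⟨k, c, h⟩ := main_two (fun w => f (jn z0 w)) (hf.comp hj)
    (fun x y h1 h2 => hom _ _ (jn_l z0 x) (hmon x y h1) (hmon y x h2))
  refine ⟨jn k z0, c, fun z hz => ?_⟩
  have hz0 : Rd z0 z := (jn_r k z0).trans hz
  obtain ⟨x, y, hx, hy, hxz, hyz, hzxy⟩ := h z ((jn_l k z0).trans hz)
  refine ⟨jn z0 x, jn z0 y, jn_l z0 x, jn_l z0 y, hx, hy, jn_rd (jn_rd hz0 hxz) (jn_rd hz0 hyz), ?_⟩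
  exact hzxy.trans (jn_rd ((jn_r z0 x).trans (jn_l _ _)) ((jn_r z0 y).trans (jn_r _ _)))

end Pool.Agent.Lib.MP_1a0a6e_lc
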