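import Pool.Agent.Lib.MP_1a0a6e_lc.Sel

/-!
# MP_1a0a6e_lc: computable choice with finitely many constraints

`sel_fin`: `L a` continuous and measure preserving, `M a` continuous, `K` closed of measure close to `1`. There is a real `t` such that for every `z ≥_T t` there is some `x ≤_T z` with `L a x + M a z ∈ K` for all `a`.
-/

set_option autoImplicit false

open MeasureTheory Set Topology
open scoped symmDiff ENNReal

namespace Pool.Agent.Lib.MP_1a0a6e_lc

/-! ### an abstract search -/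

/-- the test of the search -/
def Sq (Q : ℕ → ℕ → (ℕ → Bool) → Prop) (z : ℕ → Bool) (i c e : ℕ) : Prop :=
  Cy i (tb c) (tb e.unpair.2) ∧ ∀ z', Cy e.unpair.1 z z' → Q (i + 1) e.unpair.2 z'

theorem sq_congr (Q : ℕ → ℕ → (ℕ → Bool) → Prop) {z z' : ℕ → Bool} (i c e : ℕ) (h : Cy e.unpair.1 z z') :
    Sq Q z i c e ↔ Sq Q z' i c e := by
  have h1 : ∀ w, Cy e.unpair.1 z w ↔ Cy e.unpair.1 z' w := fun w =>
    ⟨fun h2 j hj => by rw [h2 j hj, h j hj], fun h2 j hj => by rw [h2 j hj, h j hj]⟩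
  unfold Sq
  simp only [h1]

open Classical in
/-- one step of the search -/
noncomputable def sst (Q : ℕ → ℕ → (ℕ → Bool) → Prop) (z : ℕ → Bool) (i c : ℕ) : ℕ :=
  if h : ∃ e, Sq Q z i c e then (Nat.find h).unpair.2 else c

/-- the search -/
noncomputable def scn (Q : ℕ → ℕ → (ℕ → Bool) → Prop) (z : ℕ → Bool) : ℕ → ℕ
  | 0 => 0
  | i + 1 => sst Q z i (scn Q z i)

theorem sst_loc (Q : ℕ → ℕ → (ℕ → Bool) → Prop) (z : ℕ → Bool) (i c : ℕ) (h : ∃ e, Sq Q z i c e) :
    ∃ N, ∀ z', Cy N z z' → sst Q z' i c = sst Q z i c := by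
  classical
  have hb : ∃ N, ∀ e ≤ Nat.find h, e.unpair.1 ≤ N :=
    ⟨∑ e ∈ Finset.range (Nat.find h + 1), e.unpair.1, fun e he =>
      Finset.single_le_sum (f := fun e : ℕ => e.unpair.1) (fun _ _ => Nat.zero_le _)
        (Finset.mem_range.2 (Nat.lt_succ_of_le he))⟩
  obtain ⟨N, hN⟩ := hb
  refine ⟨N, fun z' hz' => ?_⟩
  have hcong : ∀ e ≤ Nat.find h, (Sq Q z i c e ↔ Sq Q z' i c e) := fun e he =>
    sq_congr Q i c e fun j hj => hz' j (lt_of_lt_of_le hj (hN e he))
  have h' : ∃ e, Sq Q z' i c e := ⟨Nat.find h, (hcong _ le_rfl).1 (Nat.find_spec h)⟩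
  have e1 : Nat.find h' = Nat.find h := by
    rw [Nat.find_eq_iff]
    refine ⟨(hcong _ le_rfl).1 (Nat.find_spec h), fun e he he' => ?_⟩
    exact Nat.find_min h he ((hcong e he.le).2 he')
  unfold sst
  rw [dif_pos h, dif_pos h', e1]

theorem search (Q : ℕ → ℕ → (ℕ → Bool) → Prop) (h0 : ∀ z, Q 0 0 z)
    (hext : ∀ i c z, Q i c z → ∃ c', Cy i (tb c) (tb c') ∧ Q (i + 1) c' z)
    (hopen : ∀ i c z, Q i c z → ∃ N, ∀ z', Cy N z z' → Q i c z') :
    ∃ t : ℕ → Bool, ∀ z, Rd t z → ∃ x, Rd x z ∧ ∀ i, ∃ c, Q i c z ∧ Cy i (tb c) x := by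
  obtain ⟨t, ht⟩ := cont_red fun z n => tb (scn Q z (n + 1)) n
  have hex : ∀ z i c, Q i c z → ∃ e, Sq Q z i c e := by
    intro z i c h
    obtain ⟨c', h1, h2⟩ := hext i c z h
    obtain ⟨N, hN⟩ := hopen (i + 1) c' z h2
    refine ⟨Nat.pair N c', ?_⟩
    unfold Sq
    rw [Nat.unpair_pair]
    exact ⟨h1, hN⟩
  have hst : ∀ z i, Q i (scn Q z i) z → Q (i + 1) (scn Q z (i + 1)) z ∧ Cy i (tb (scn Q z i)) (tb (scn Q z (i + 1))) := by
    intro z i hi
    classical
    have h := hex z i (scn Q z i) hi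
    have e : scn Q z (i + 1) = (Nat.find h).unpair.2 := by
      show sst Q z i (scn Q z i) = _
      unfold sst
      rw [dif_pos h]
    have h1 := Nat.find_spec h
    rw [e]
    exact ⟨h1.2 z (Cy.refl _ _), h1.1⟩
  have hall : ∀ z i, Q i (scn Q z i) z := by
    intro z i
    induction i with
    | zero => exact h0 z
    | succ i ih => exact (hst z i ih).1
  refine ⟨t, fun z hz => ⟨fun n => tb (scn Q z (n + 1)) n, ht z hz fun n => ?_, fun i => ?_⟩⟩
  · have hloc : ∀ i, ∃ N, ∀ z', Cy N z z' → scn Q z' i = scn Q z i := by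
      intro i
      induction i with
      | zero => exact ⟨0, fun _ _ => rfl⟩
      | succ i ih =>
        obtain ⟨N1, hN1⟩ := ih
        obtain ⟨N2, hN2⟩ := sst_loc Q z i (scn Q z i) (hex z i _ (hall z i))
        refine ⟨max N1 N2, fun z' hz' => ?_⟩
        show sst Q z' i (scn Q z' i) = sst Q z i (scn Q z i)
        rw [hN1 z' fun j hj => hz' j (lt_of_lt_of_le hj (le_max_left _ _)),
          hN2 z' fun j hj => hz' j (lt_of_lt_of_le hj (le_max_right _ _))]
    obtain ⟨N, hN⟩ := hloc (n + 1)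
    exact ⟨N, fun z' hz' => by rw [hN z' hz']⟩
  · have hmono : ∀ i j, i ≤ j → Cy i (tb (scn Q z i)) (tb (scn Q z j)) := by
      intro i j hij
      induction j, hij using Nat.le_induction with
      | base => exact Cy.refl _ _
      | succ j hij ih =>
        intro l hl
        rw [(hst z j (hall z j)).2 l (lt_of_lt_of_le hl hij), ih l hl]
    refine ⟨scn Q z i, hall z i, fun l hl => ?_⟩
    exact (hmono (l + 1) i hl l (Nat.lt_succ_self l)).symm

/-! ### the measure test -/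

theorem pos_ext (E : Set Gp) (i c : ℕ) (h : 0 < mu {w | Cy i (tb c) (dec w) ∧ w ∈ E}) :
    ∃ c', Cy i (tb c) (tb c') ∧ 0 < mu {w | Cy (i + 1) (tb c') (dec w) ∧ w ∈ E} := by
  have hsub : {w | Cy i (tb c) (dec w) ∧ w ∈ E} ⊆
      {w | (Cy i (tb c) (dec w) ∧ w ∈ E) ∧ dec w i = true} ∪
      {w | (Cy i (tb c) (dec w) ∧ w ∈ E) ∧ dec w i = false} := by
    intro w hw
    cases hb : dec w i
    · exact Or.inr ⟨hw, hb⟩
    · exact Or.inl ⟨hw, hb⟩
  have h1 : ∃ b, 0 < mu {w | (Cy i (tb c) (dec w) ∧ w ∈ E) ∧ dec w i = b} := by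
    by_contra hcon
    push Not at hcon
    have h2 := le_trans (measure_mono hsub) (measure_union_le (μ := mu) _ _)
    have h3 := le_antisymm (hcon true) bot_le
    have h4 := le_antisymm (hcon false) bot_le
    rw [h3, h4, add_zero] at h2
    exact absurd (lt_of_lt_of_le h h2) (lt_irrefl _)
  obtain ⟨b, hb⟩ := h1
  obtain ⟨c', hc'⟩ := exists_tb (i + 1) fun n => if n < i then tb c n else b
  have hc1 : ∀ n < i, tb c' n = tb c n := fun n hn => by
    have h2 := hc' n (by omega)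
    exact h2.symm.trans (if_pos hn)
  have hc2 : tb c' i = b := by
    have h2 := hc' i (by omega)
    exact h2.symm.trans (if_neg (lt_irrefl i))
  refine ⟨c', fun n hn => hc1 n hn, lt_of_lt_of_le hb (measure_mono ?_)⟩
  rintro w ⟨⟨hw1, hw2⟩, hw3⟩
  refine ⟨fun n hn => ?_, hw2⟩
  rcases Nat.lt_succ_iff_lt_or_eq.1 hn with h5 | h5
  · rw [hc1 n h5]
    exact hw1 n h5
  · rw [h5, hc2]
    exact hw3

theorem en_cont : Continuous en := by
  refine continuous_pi fun n => ?_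
  have h : Continuous fun b : Bool => if b then (1 : ZMod 2) else 0 := continuous_of_discreteTopology
  exact h.comp (continuous_apply n)

theorem sel_fin {ι : Type} [Fintype ι] (K : Set Gp) (hK : IsClosed K) (L M : ι → Gp → Gp)
    (hL : ∀ a, MeasurePreserving (L a) mu mu) (hLc : ∀ a, Continuous (L a)) (hM : ∀ a, Continuous (M a))
    (hmu : (Fintype.card ι : ℝ) * (1 - mu.real K) < 1) :
    ∃ t : ℕ → Bool, ∀ z, Rd t z → ∃ x, Rd x z ∧ ∀ a, L a (en x) + M a (en z) ∈ K := by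
  have hmp : ∀ a v, MeasurePreserving (fun w => L a w + v) mu mu := fun a v =>
    (measurePreserving_add_right mu v).comp (hL a)
  have hstart : ∀ z : ℕ → Bool, 0 < mu {w | Cy 0 (tb 0) (dec w) ∧ w ∈ {w | ∀ a, L a w + M a (en z) ∈ K}} := by
    intro z
    show 0 < mu {w | Cy 0 (tb 0) (dec w) ∧ w ∈ {w | ∀ a, L a w + M a (en z) ∈ K}}
    by_contra h
    have h1 := le_antisymm (not_lt.1 h) bot_le
    have hsub : (univ : Set Gp) ⊆ {w | Cy 0 (tb 0) (dec w) ∧ w ∈ {w | ∀ a, L a w + M a (en z) ∈ K}} ∪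
        ⋃ a ∈ (Finset.univ : Finset ι), (fun w => L a w + M a (en z)) ⁻¹' Kᶜ := by
      intro w _
      by_cases h2 : ∀ a, L a w + M a (en z) ∈ K
      · exact Or.inl ⟨fun n hn => absurd hn (by omega), h2⟩
      · push Not at h2
        obtain ⟨a, ha⟩ := h2
        exact Or.inr (Set.mem_biUnion (Finset.mem_coe.2 (Finset.mem_univ a)) ha)
    have h2 := le_trans (measureReal_mono (μ := mu) hsub) (measureReal_union_le _ _)
    have h3 : mu.real {w | Cy 0 (tb 0) (dec w) ∧ w ∈ {w | ∀ a, L a w + M a (en z) ∈ K}} = 0 := by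
      unfold Measure.real
      rw [h1]
      rfl
    have h4 : mu.real (⋃ a ∈ (Finset.univ : Finset ι), (fun w => L a w + M a (en z)) ⁻¹' Kᶜ) ≤
        ∑ a : ι, mu.real ((fun w => L a w + M a (en z)) ⁻¹' Kᶜ) := measureReal_biUnion_finset_le _ _
    have h5 : ∀ a : ι, mu.real ((fun w => L a w + M a (en z)) ⁻¹' Kᶜ) = 1 - mu.real K := by
      intro a
      rw [← probReal_compl_eq_one_sub hK.measurableSet]
      unfold Measure.real
      rw [(hmp a _).measure_preimage hK.measurableSet.compl.nullMeasurableSet]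
    rw [Finset.sum_congr rfl fun a _ => h5 a, Finset.sum_const, Finset.card_univ, nsmul_eq_mul] at h4
    rw [h3, probReal_univ] at h2
    linarith
  have hop : ∀ (i c : ℕ) (z : ℕ → Bool), 0 < mu {w | Cy i (tb c) (dec w) ∧ w ∈ {w | ∀ a, L a w + M a (en z) ∈ K}} →
      ∃ N, ∀ z', Cy N z z' → 0 < mu {w | Cy i (tb c) (dec w) ∧ w ∈ {w | ∀ a, L a w + M a (en z') ∈ K}} := by
    intro i c z h
    have hpos : 0 < mu.real {w | Cy i (tb c) (dec w) ∧ w ∈ {w | ∀ a, L a w + M a (en z) ∈ K}} :=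
      ENNReal.toReal_pos (ne_of_gt h) (measure_ne_top _ _)
    have hcard : (0 : ℝ) < (Fintype.card ι : ℝ) + 1 := by positivity
    obtain ⟨j, hj⟩ := nb_small K hK (ENNReal.ofReal
      (mu.real {w | Cy i (tb c) (dec w) ∧ w ∈ {w | ∀ a, L a w + M a (en z) ∈ K}} / ((Fintype.card ι : ℝ) + 1)))
      (ENNReal.ofReal_pos.2 (div_pos hpos hcard))
    have hj' : mu.real (nb K j \ K) <
        mu.real {w | Cy i (tb c) (dec w) ∧ w ∈ {w | ∀ a, L a w + M a (en z) ∈ K}} / ((Fintype.card ι : ℝ) + 1) := by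
      have h1 := (ENNReal.lt_ofReal_iff_toReal_lt (measure_ne_top mu (nb K j \ K))).1 hj
      exact h1
    have hev : ∀ᶠ z' in 𝓝 z, ∀ a : ι, ∀ l ∈ Finset.range j, M a (en z') l = M a (en z) l := by
      rw [Filter.eventually_all]
      intro a
      rw [Filter.eventually_all_finset]
      intro l _
      have hcont : Continuous fun z' : ℕ → Bool => M a (en z') l :=
        (continuous_apply l).comp ((hM a).comp en_cont)
      exact hcont.continuousAt.eventually ((isOpen_discrete {M a (en z) l}).mem_nhds rfl)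
    obtain ⟨N, hN⟩ := cyl_nhds z _ hev
    refine ⟨N, fun z' hz' => ?_⟩
    have hM' : ∀ a : ι, ∀ l ∈ Finset.range j, M a (en z') l = M a (en z) l := hN z' hz'
    show 0 < mu {w | Cy i (tb c) (dec w) ∧ w ∈ {w | ∀ a, L a w + M a (en z') ∈ K}}
    by_contra hcon
    have h1 := le_antisymm (not_lt.1 hcon) bot_le
    have hsub : {w | Cy i (tb c) (dec w) ∧ w ∈ {w | ∀ a, L a w + M a (en z) ∈ K}} ⊆
        {w | Cy i (tb c) (dec w) ∧ w ∈ {w | ∀ a, L a w + M a (en z') ∈ K}} ∪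
        ⋃ a ∈ (Finset.univ : Finset ι), (fun w => L a w + M a (en z')) ⁻¹' (nb K j \ K) := by
      rintro w ⟨hw1, hw2⟩
      by_cases h3 : ∀ a, L a w + M a (en z') ∈ K
      · exact Or.inl ⟨hw1, h3⟩
      · push Not at h3
        obtain ⟨a, ha⟩ := h3
        refine Or.inr (Set.mem_biUnion (Finset.mem_coe.2 (Finset.mem_univ a)) ⟨⟨L a w + M a (en z), hw2 a, fun l hl => ?_⟩, ha⟩)
        show L a w l + M a (en z') l = L a w l + M a (en z) l
        rw [hM' a l (Finset.mem_range.2 hl)]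
    have h2 := le_trans (measureReal_mono (μ := mu) hsub) (measureReal_union_le _ _)
    have h3 : mu.real {w | Cy i (tb c) (dec w) ∧ w ∈ {w | ∀ a, L a w + M a (en z') ∈ K}} = 0 := by
      unfold Measure.real
      rw [h1]
      rfl
    have h4 : mu.real (⋃ a ∈ (Finset.univ : Finset ι), (fun w => L a w + M a (en z')) ⁻¹' (nb K j \ K)) ≤
        ∑ a : ι, mu.real ((fun w => L a w + M a (en z')) ⁻¹' (nb K j \ K)) := measureReal_biUnion_finset_le _ _
    have h5 : ∀ a : ι, mu.real ((fun w => L a w + M a (en z')) ⁻¹' (nb K j \ K)) = mu.real (nb K j \ K) := by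
      intro a
      unfold Measure.real
      rw [(hmp a _).measure_preimage ((nb_open K j).measurableSet.diff hK.measurableSet).nullMeasurableSet]
    rw [Finset.sum_congr rfl fun a _ => h5 a, Finset.sum_const, Finset.card_univ, nsmul_eq_mul] at h4
    rw [h3] at h2
    rw [lt_div_iff₀ hcard] at hj'
    have h6 : 0 ≤ mu.real (nb K j \ K) := measureReal_nonneg
    nlinarith
  obtain ⟨t, ht⟩ := search (fun i c z => 0 < mu {w | Cy i (tb c) (dec w) ∧ w ∈ {w | ∀ a, L a w + M a (en z) ∈ K}})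
    hstart (fun i c z h => pos_ext _ i c h) hop
  refine ⟨t, fun z hz => ?_⟩
  obtain ⟨x, hx, hxc⟩ := ht z hz
  refine ⟨x, hx, fun a => ?_⟩
  by_contra h
  have hcl : IsClosed {w | L a w + M a (en z) ∈ K} := by
    have h1 : Continuous fun w => L a w + M a (en z) := by
      have h2 : Continuous fun p : Gp × Gp => p.1 + p.2 := continuous_add
      exact h2.comp ((hLc a).prodMk continuous_const)
    exact hK.preimage h1
  obtain ⟨k, hk⟩ := cyl_nhds (en x) {w | L a w + M a (en z) ∈ K}ᶜ (hcl.isOpen_compl.mem_nhds h)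
  obtain ⟨c, hc1, hc2⟩ := hxc k
  have h1 : ({w | Cy k (tb c) (dec w) ∧ w ∈ {w | ∀ a, L a w + M a (en z) ∈ K}} : Set Gp).Nonempty := by
    by_contra h2
    rw [Set.not_nonempty_iff_eq_empty] at h2
    rw [h2, measure_empty] at hc1
    exact lt_irrefl _ hc1
  obtain ⟨w, hw1, hw2⟩ := h1
  refine hk w (fun l hl => en_of_dec ?_) (hw2 a)
  rw [hw1 l hl, hc2 l hl]

theorem main_fin (f : (ℕ → Bool) → ℕ → Bool) (hf : Measurable f) (hom : ∀ x y, Rd x y → Rd y x → Ev (f x) (f y)) :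
    ∃ c : ℕ → Bool, ∀ {ι : Type} [Fintype ι] (L M : ι → Gp → Gp), (∀ a, MeasurePreserving (L a) mu mu) →
      (∀ a, Continuous (L a)) → (∀ a, Continuous (M a)) →
      ∃ t : ℕ → Bool, ∀ z, Rd t z → ∃ x, Rd x z ∧ ∀ a, Ev (f (dec (L a (en x) + M a (en z)))) c := by
  obtain ⟨c, hc⟩ := hom_ae f hf hom
  refine ⟨c, fun {ι} _ L M hL hLc hM => ?_⟩
  rw [ae_iff] at hc
  have hcard : (0 : ℝ) < (Fintype.card ι : ℝ) + 1 := by positivity
  obtain ⟨U, hU1, hU2, hU3⟩ := Set.exists_isOpen_lt_of_lt {w | ¬ Ev (f (dec w)) c}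
    (ENNReal.ofReal (1 / ((Fintype.card ι : ℝ) + 1))) (by
    rw [hc]
    exact ENNReal.ofReal_pos.2 (by positivity))
  have hmu : (Fintype.card ι : ℝ) * (1 - mu.real Uᶜ) < 1 := by
    rw [probReal_compl_eq_one_sub hU2.measurableSet]
    have h1 : mu.real U < 1 / ((Fintype.card ι : ℝ) + 1) :=
      (ENNReal.lt_ofReal_iff_toReal_lt (measure_ne_top mu U)).1 hU3
    rw [lt_div_iff₀ hcard] at h1
    have h6 : 0 ≤ mu.real U := measureReal_nonneg
    nlinarith
  have hK : ∀ w ∈ Uᶜ, Ev (f (dec w)) c := fun w hw => by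
    by_contra h
    exact hw (hU1 h)
  obtain ⟨t, ht⟩ := sel_fin Uᶜ hU2.isClosed_compl L M hL hLc hM hmu
  refine ⟨t, fun z hz => ?_⟩
  obtain ⟨x, hxz, hx⟩ := ht z hz
  exact ⟨x, hxz, fun a => hK _ (hx a)⟩

end Pool.Agent.Lib.MP_1a0a6e_lc
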