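import Pool.Agent.Lib.MP_1a0a6e_lc.Sim

/-!
# MP_1a0a6e_lc: every real of a cone is a join of `d + 1` reals all of whose proper subjoins lie in one fibre
-/

set_option autoImplicit false

open MeasureTheory Set Topology
open scoped symmDiff ENNReal

namespace Pool.Agent.Lib.MP_1a0a6e_lc

/-- column `i` of `x`, `d` columns -/
def co (d : ℕ) (x : Gp) (i : ℕ) : Gp := fun t => x (d * t + i)

/-- the columns and their sum -/
def cl (d : ℕ) (x : Gp) (i : ℕ) : Gp := if i < d then co d x i else ∑ l ∈ Finset.range d, co d x l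

/-- the columns and their sum plus `z` -/
def Yf (d : ℕ) (x z : Gp) (i : ℕ) : Gp := if i < d then co d x i else (∑ l ∈ Finset.range d, co d x l) + z

/-- the compressed join over a list of columns -/
def Lm (d : ℕ) (l : List ℕ) (x : Gp) : Gp := fun m => cl d x (l.getD (m % l.length) 0) (m / l.length)

/-- the part of `z` in it -/
def Mm (d : ℕ) (l : List ℕ) (z : Gp) : Gp := fun m => if l.getD (m % l.length) 0 < d then 0 else z (m / l.length)

theorem gp_add_self (a : Gp) : a + a = 0 := funext fun n => CharTwo.add_self_eq_zero (a n)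

theorem Lm_Mm (d : ℕ) (l : List ℕ) (x z : Gp) (m : ℕ) :
    (Lm d l x + Mm d l z) m = Yf d x z (l.getD (m % l.length) 0) (m / l.length) := by
  show Lm d l x m + Mm d l z m = _
  unfold Lm Mm cl Yf
  by_cases h : l.getD (m % l.length) 0 < d
  · rw [if_pos h, if_pos h, if_pos h, add_zero]
  · rw [if_neg h, if_neg h, if_neg h]
    rfl

theorem co_cont (d i : ℕ) : Continuous fun x : Gp => co d x i :=
  continuous_pi fun t => continuous_apply (d * t + i)

theorem co_add (d i : ℕ) (x y : Gp) : co d (x + y) i = co d x i + co d y i := rfl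

theorem cl_cont (d i : ℕ) : Continuous fun x : Gp => cl d x i := by
  unfold cl
  by_cases h : i < d
  · simp only [h, if_true]
    exact co_cont d i
  · simp only [h, if_false]
    exact continuous_finsetSum _ fun l _ => co_cont d l

theorem cl_add (d i : ℕ) (x y : Gp) : cl d (x + y) i = cl d x i + cl d y i := by
  unfold cl
  split_ifs
  · exact co_add d i x y
  · rw [← Finset.sum_add_distrib]
    exact Finset.sum_congr rfl fun l _ => co_add d l x y

theorem Lm_cont (d : ℕ) (l : List ℕ) : Continuous (Lm d l) :=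
  continuous_pi fun m => (continuous_apply (m / l.length)).comp (cl_cont d (l.getD (m % l.length) 0))

theorem Mm_cont (d : ℕ) (l : List ℕ) : Continuous (Mm d l) := by
  refine continuous_pi fun m => ?_
  unfold Mm
  by_cases h : l.getD (m % l.length) 0 < d
  · simp only [h, if_true]
    exact continuous_const
  · simp only [h, if_false]
    exact continuous_apply _

/-- `Lm` as a homomorphism -/
def LmH (d : ℕ) (l : List ℕ) : Gp →+ Gp where
  toFun := Lm d l
  map_zero' := by
    have h : Lm d l (0 + 0) = Lm d l 0 + Lm d l 0 := funext fun m => by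
      show cl d (0 + 0) _ _ = cl d 0 _ _ + cl d 0 _ _
      rw [cl_add]
      rfl
    rw [add_zero, gp_add_self] at h
    exact h
  map_add' x y := funext fun m => by
    show cl d (x + y) _ _ = cl d x _ _ + cl d y _ _
    rw [cl_add]
    rfl

theorem getD_mem' {l : List ℕ} {k : ℕ} (hk : k < l.length) : l.getD k 0 ∈ l := by
  rw [List.getD_eq_getElem _ _ hk]
  exact List.getElem_mem hk

theorem idx_getD {l : List ℕ} (hn : l.Nodup) {k : ℕ} (hk : k < l.length) : l.idxOf (l.getD k 0) = k := by
  rw [List.getD_eq_getElem _ _ hk]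
  exact List.Nodup.idxOf_getElem hn k hk

theorem getD_idx {l : List ℕ} {i : ℕ} (hi : i ∈ l) : l.getD (l.idxOf i) 0 = i := by
  have h := List.idxOf_lt_length_of_mem hi
  rw [List.getD_eq_getElem _ _ h]
  exact List.getElem_idxOf h

theorem Lm_surj (d : ℕ) (hd0 : 0 < d) (l : List ℕ) (hn : l.Nodup) (h0 : 0 < l.length) (hd : ∀ i ∈ l, i ≤ d) (j : ℕ)
    (hj : j ≤ d) (hjl : j ∉ l) : Function.Surjective (Lm d l) := by
  intro v
  let V : ℕ → Gp := fun i t => v (l.length * t + l.idxOf i)
  let C : Gp := V d + ∑ i ∈ Finset.range d, (if i ∈ l then V i else 0)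
  let W : ℕ → Gp := fun i => if i ∈ l then V i else if i = j then C else 0
  let x : Gp := fun s => W (s % d) (s / d)
  have hco : ∀ i < d, co d x i = W i := by
    intro i hi
    funext t
    show W ((d * t + i) % d) ((d * t + i) / d) = W i t
    rw [Nat.mul_add_mod, Nat.mod_eq_of_lt hi, Nat.mul_add_div hd0, Nat.div_eq_of_lt hi, add_zero]
  have hsum : d ∈ l → ∑ i ∈ Finset.range d, co d x i = V d := by
    intro hdl
    have hjd : j < d := lt_of_le_of_ne hj fun h => hjl (h ▸ hdl)
    have h1 : ∀ i ∈ Finset.range d, co d x i = (if i ∈ l then V i else 0) + (if i = j then C else 0) := by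
      intro i hi
      rw [hco i (Finset.mem_range.1 hi)]
      show (if i ∈ l then V i else if i = j then C else 0) = _
      by_cases h2 : i ∈ l
      · have h3 : i ≠ j := fun h => hjl (h ▸ h2)
        rw [if_pos h2, if_pos h2, if_neg h3, add_zero]
      · rw [if_neg h2, if_neg h2, zero_add]
    rw [Finset.sum_congr rfl h1, Finset.sum_add_distrib, Finset.sum_ite_eq' (Finset.range d) j fun _ => C,
      if_pos (Finset.mem_range.2 hjd)]
    show (∑ i ∈ Finset.range d, (if i ∈ l then V i else 0)) + (V d + ∑ i ∈ Finset.range d, (if i ∈ l then V i else 0)) = V d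
    rw [add_comm (V d), ← add_assoc, gp_add_self, zero_add]
  have hcl : ∀ i ∈ l, cl d x i = V i := by
    intro i hi
    unfold cl
    by_cases h : i < d
    · rw [if_pos h, hco i h]
      show (if i ∈ l then V i else if i = j then C else 0) = _
      rw [if_pos hi]
    · have h1 : i = d := le_antisymm (hd i hi) (not_lt.1 h)
      rw [if_neg h, hsum (h1 ▸ hi), h1]
  refine ⟨x, funext fun m => ?_⟩
  have hk := Nat.mod_lt m h0
  show cl d x (l.getD (m % l.length) 0) (m / l.length) = v m
  rw [hcl _ (getD_mem' hk)]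
  show v (l.length * (m / l.length) + l.idxOf (l.getD (m % l.length) 0)) = v m
  rw [idx_getD hn hk, Nat.div_add_mod]

theorem Lm_mp (d : ℕ) (hd0 : 0 < d) (l : List ℕ) (hn : l.Nodup) (h0 : 0 < l.length) (hd : ∀ i ∈ l, i ≤ d) (j : ℕ)
    (hj : j ≤ d) (hjl : j ∉ l) : MeasurePreserving (Lm d l) mu mu :=
  AddMonoidHom.measurePreserving (f := LmH d l) (Lm_cont d l) (Lm_surj d hd0 l hn h0 hd j hj hjl) rfl

/-! ### joins of families -/

/-- the join of the members `X i`, `i ∈ S`, of a family of `d + 1` reals -/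
def Jn (d : ℕ) (X : ℕ → ℕ → Bool) (S : Finset ℕ) : ℕ → Bool :=
  fun m => if m % (d + 1) ∈ S then X (m % (d + 1)) (m / (d + 1)) else false

theorem Rd.of_ite {x y : ℕ → Bool} (p u : ℕ → ℕ) (hp : Primrec p) (hu : Primrec u)
    (h : ∀ n, y n = if p n = 1 then x (u n) else false) : Rd y x := by
  have h3 : Cp x (fun n => Nat.pair (p n) ((x (u n)).toNat)) := (Cp.of_prim hp).pair ((Cp.self x).comp (Cp.of_prim hu))
  have h4 : Primrec fun q : ℕ => if q.unpair.1 = 1 then q.unpair.2 else 0 := by
    refine Primrec.ite ?_ ?_ ?_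
    · exact Primrec.eq.comp (Primrec.fst.comp Primrec.unpair) (Primrec.const 1)
    · exact Primrec.snd.comp Primrec.unpair
    · exact Primrec.const 0
  have h5 := (Cp.of_prim (x := x) h4).comp h3
  unfold Rd
  have e : (fun n => (y n).toNat) = fun n =>
      (if (Nat.pair (p n) ((x (u n)).toNat)).unpair.1 = 1 then (Nat.pair (p n) ((x (u n)).toNat)).unpair.2 else 0) := by
    funext n
    rw [h n]
    simp only [Nat.unpair_pair]
    split_ifs <;> rfl
  rw [e]
  exact h5

theorem prim_tab (l : List ℕ) (k : ℕ) : Primrec fun m : ℕ => l.getD (m % k) 0 :=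
  (Primrec.list_getD 0).comp (Primrec.const l) (Primrec.nat_mod.comp Primrec.id (Primrec.const k))

theorem prim_lin (a q : ℕ) {g : ℕ → ℕ} (hg : Primrec g) : Primrec fun m : ℕ => a * (m / q) + g m :=
  Primrec.nat_add.comp (Primrec.nat_mul.comp (Primrec.const a) (Primrec.nat_div.comp Primrec.id (Primrec.const q))) hg

/-- the table of membership in `S` -/
def tabS (d : ℕ) (S : Finset ℕ) : List ℕ := (List.range (d + 1)).map fun i => if i ∈ S then 1 else 0

theorem tabS_spec (d : ℕ) (S : Finset ℕ) (m : ℕ) : (tabS d S).getD (m % (d + 1)) 0 = 1 ↔ m % (d + 1) ∈ S := by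
  have hk : m % (d + 1) < ((List.range (d + 1)).map fun i => if i ∈ S then 1 else 0).length := by
    rw [List.length_map, List.length_range]
    exact Nat.mod_lt _ (Nat.succ_pos d)
  unfold tabS
  rw [List.getD_eq_getElem _ _ hk, List.getElem_map, List.getElem_range]
  split_ifs with h
  · exact ⟨fun _ => h, fun _ => rfl⟩
  · exact ⟨fun h2 => absurd h2 (by norm_num), fun h2 => absurd h2 h⟩

/-- the compressed join -/
def cmp (X : ℕ → ℕ → Bool) (l : List ℕ) : ℕ → Bool := fun m => X (l.getD (m % l.length) 0) (m / l.length)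

theorem cmp_rd (d : ℕ) (X : ℕ → ℕ → Bool) (S : Finset ℕ) (hS : S ⊆ Finset.range (d + 1)) (hne : S.Nonempty) :
    Rd (cmp X S.toList) (Jn d X S) := by
  have h0 : 0 < S.toList.length := by
    rw [Finset.length_toList]
    exact hne.card_pos
  refine Rd.of_comp (fun m => (d + 1) * (m / S.toList.length) + S.toList.getD (m % S.toList.length) 0)
    (prim_lin _ _ (prim_tab _ _)) fun m => ?_
  have hk := Nat.mod_lt m h0
  have h1 : S.toList.getD (m % S.toList.length) 0 ∈ S := Finset.mem_toList.1 (getD_mem' hk)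
  have h2 := Finset.mem_range.1 (hS h1)
  unfold cmp Jn
  rw [Nat.mul_add_mod, Nat.mod_eq_of_lt h2, if_pos h1, Nat.mul_add_div (Nat.succ_pos d), Nat.div_eq_of_lt h2, add_zero]

theorem rd_cmp (d : ℕ) (X : ℕ → ℕ → Bool) (S : Finset ℕ) (hne : S.Nonempty) :
    Rd (Jn d X S) (cmp X S.toList) := by
  have h0 : 0 < S.toList.length := by
    rw [Finset.length_toList]
    exact hne.card_pos
  refine Rd.of_ite (fun m => (tabS d S).getD (m % (d + 1)) 0)
    (fun m => S.toList.length * (m / (d + 1)) + ((List.range (d + 1)).map fun i => S.toList.idxOf i).getD (m % (d + 1)) 0)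
    (prim_tab _ _) (prim_lin _ _ (prim_tab _ _)) fun m => ?_
  have hm := Nat.mod_lt m (Nat.succ_pos d)
  have e : ((List.range (d + 1)).map fun i => S.toList.idxOf i).getD (m % (d + 1)) 0 = S.toList.idxOf (m % (d + 1)) := by
    have hk : m % (d + 1) < ((List.range (d + 1)).map fun i => S.toList.idxOf i).length := by
      rw [List.length_map, List.length_range]
      exact hm
    rw [List.getD_eq_getElem _ _ hk, List.getElem_map, List.getElem_range]
  unfold Jn
  by_cases h : m % (d + 1) ∈ S
  · rw [if_pos h, if_pos ((tabS_spec d S m).2 h), e]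
    have h1 := List.idxOf_lt_length_of_mem (Finset.mem_toList.2 h)
    unfold cmp
    rw [Nat.mul_add_mod, Nat.mod_eq_of_lt h1, Nat.mul_add_div h0, Nat.div_eq_of_lt h1, add_zero,
      getD_idx (Finset.mem_toList.2 h)]
  · rw [if_neg h, if_neg fun h2 => h ((tabS_spec d S m).1 h2)]

theorem rd_zero (w : ℕ → Bool) : Rd (fun _ => false) w := Cp.of_prim (Primrec.const 0)

theorem Jn_le (d : ℕ) (X : ℕ → ℕ → Bool) (w : ℕ → Bool) (h : ∀ i ≤ d, Rd (X i) w) : Rd (Jn d X (Finset.range (d + 1))) w := by
  have hall : ∀ e ≤ d + 1, Rd (fun m => if m % (d + 1) < e then X (m % (d + 1)) (m / (d + 1)) else false) w := by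
    intro e
    induction e with
    | zero =>
      intro _
      have h1 : (fun m => if m % (d + 1) < 0 then X (m % (d + 1)) (m / (d + 1)) else false) = fun _ => false :=
        funext fun m => if_neg (Nat.not_lt_zero _)
      rw [h1]
      exact rd_zero w
    | succ e ih =>
      intro he
      have h2 : Rd (fun m => if m % (d + 1) < e + 1 then X (m % (d + 1)) (m / (d + 1)) else false)
          (jn (fun m => if m % (d + 1) < e then X (m % (d + 1)) (m / (d + 1)) else false) (X e)) := by
        refine Rd.of_comp (fun m => if m % (d + 1) = e then 2 * (m / (d + 1)) + 1 else 2 * m) ?_ fun m => ?_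
        · refine Primrec.ite (Primrec.eq.comp (Primrec.nat_mod.comp Primrec.id (Primrec.const _)) (Primrec.const e)) ?_ ?_
          · exact Primrec.succ.comp (Primrec.nat_mul.comp (Primrec.const 2) (Primrec.nat_div.comp Primrec.id (Primrec.const _)))
          · exact Primrec.nat_mul.comp (Primrec.const 2) Primrec.id
        · by_cases h3 : m % (d + 1) = e
          · rw [if_pos h3]
            unfold jn
            rw [if_neg (show ¬ (2 * (m / (d + 1)) + 1) % 2 = 0 by omega), if_pos (show m % (d + 1) < e + 1 by omega), h3]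
            exact congrArg (X e) (by omega)
          · rw [if_neg h3]
            unfold jn
            rw [if_pos (show (2 * m) % 2 = 0 by omega)]
            have h4 : 2 * m / 2 = m := by omega
            rw [h4]
            show (if m % (d + 1) < e + 1 then X (m % (d + 1)) (m / (d + 1)) else false) =
              if m % (d + 1) < e then X (m % (d + 1)) (m / (d + 1)) else false
            by_cases h5 : m % (d + 1) < e
            · rw [if_pos h5, if_pos (show m % (d + 1) < e + 1 by omega)]
            · rw [if_neg h5, if_neg (show ¬ m % (d + 1) < e + 1 by omega)]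
      exact h2.trans (jn_rd (ih (by omega)) (h e (by omega)))
  have h1 := hall (d + 1) le_rfl
  have e : Jn d X (Finset.range (d + 1)) = fun m => if m % (d + 1) < d + 1 then X (m % (d + 1)) (m / (d + 1)) else false := by
    funext m
    unfold Jn
    by_cases h2 : m % (d + 1) < d + 1
    · rw [if_pos (Finset.mem_range.2 h2), if_pos h2]
    · exact absurd (Nat.mod_lt m (Nat.succ_pos d)) h2
  rw [e]
  exact h1

theorem le_Jn (d : ℕ) (X : ℕ → ℕ → Bool) (i : ℕ) (hi : i ≤ d) : Rd (X i) (Jn d X (Finset.range (d + 1))) := by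
  refine Rd.of_comp (fun t => (d + 1) * t + i)
    (Primrec.nat_add.comp (Primrec.nat_mul.comp (Primrec.const (d + 1)) Primrec.id) (Primrec.const i)) fun t => ?_
  have h : i < d + 1 := Nat.lt_succ_of_le hi
  unfold Jn
  rw [Nat.mul_add_mod, Nat.mod_eq_of_lt h, if_pos (Finset.mem_range.2 h), Nat.mul_add_div (Nat.succ_pos d),
    Nat.div_eq_of_lt h, add_zero]

theorem rd_add {a b : Gp} {w : ℕ → Bool} (ha : Rd (dec a) w) (hb : Rd (dec b) w) : Rd (dec (a + b)) w := by
  have p1 : Primrec fun n : ℕ => 2 * n + 1 := Primrec.succ.comp (Primrec.nat_mul.comp (Primrec.const 2) Primrec.id)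
  have p0 : Primrec fun n : ℕ => 2 * n := Primrec.nat_mul.comp (Primrec.const 2) Primrec.id
  have h3 : Rd (dec (a + b)) (jn (dec a) (dec b)) := by
    refine rd_xor _ _ 1 0 (fun n => 2 * n) (fun n => 2 * n + 1) p0 p1 fun n => ?_
    rw [if_pos (Nat.mod_one n)]
    have e1 : jn (dec a) (dec b) (2 * n) = dec a n := by
      unfold jn
      rw [if_pos (by omega)]
      exact congrArg (dec a) (by omega)
    have e2 : jn (dec a) (dec b) (2 * n + 1) = dec b n := by
      unfold jn
      rw [if_neg (by omega)]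
      exact congrArg (dec b) (by omega)
    rw [e1, e2]
    exact dec_add _ _
  exact h3.trans (jn_rd ha hb)

theorem rd_sums (a : ℕ → Gp) (w : ℕ → Bool) (e : ℕ) (h : ∀ l < e, Rd (dec (a l)) w) :
    Rd (dec (∑ l ∈ Finset.range e, a l)) w := by
  induction e with
  | zero =>
    have h1 : dec (∑ l ∈ Finset.range 0, a l) = fun _ => false := by
      funext n
      show decide ((∑ l ∈ Finset.range 0, a l : Gp) n = 1) = false
      rw [Finset.range_zero, Finset.sum_empty]
      show decide ((0 : ZMod 2) = 1) = false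
      decide
    rw [h1]
    exact rd_zero w
  | succ e ih =>
    rw [Finset.sum_range_succ]
    exact rd_add (ih fun l hl => h l (by omega)) (h e (by omega))

theorem main_spx (f : (ℕ → Bool) → ℕ → Bool) (hf : Measurable f) (hom : ∀ x y, Rd x y → Rd y x → Ev (f x) (f y)) :
    ∃ c : ℕ → Bool, ∀ d, 0 < d → ∃ k : ℕ → Bool, ∀ z, Rd k z → ∃ X : ℕ → ℕ → Bool,
      (∀ S ⊆ Finset.range (d + 1), S.Nonempty → S ≠ Finset.range (d + 1) → Ev (f (Jn d X S)) c) ∧
      Rd (Jn d X (Finset.range (d + 1))) z ∧ Rd z (Jn d X (Finset.range (d + 1))) := by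
  classical
  obtain ⟨c, hc⟩ := main_fin f hf hom
  refine ⟨c, fun d hd => ?_⟩
  let good : Finset ℕ → Prop := fun S => S.Nonempty ∧ S ≠ Finset.range (d + 1)
  obtain ⟨k, hk⟩ := hc (ι := (Finset.range (d + 1)).powerset)
    (fun S => if good S then Lm d (S : Finset ℕ).toList else id)
    (fun S => if good S then Mm d (S : Finset ℕ).toList else fun _ => 0)
    (fun S => by
      by_cases h : good S
      · rw [if_pos h]
        have hS := Finset.mem_powerset.1 S.2
        obtain ⟨j, hj1, hj2⟩ : ∃ j, j ∈ Finset.range (d + 1) ∧ j ∉ (S : Finset ℕ) := by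
          by_contra hcon
          push Not at hcon
          exact h.2 (Finset.Subset.antisymm hS hcon)
        refine Lm_mp d hd _ (Finset.nodup_toList _) ?_ (fun i hi => ?_) j
          (Nat.le_of_lt_succ (Finset.mem_range.1 hj1)) fun h2 => hj2 (Finset.mem_toList.1 h2)
        · rw [Finset.length_toList]
          exact h.1.card_pos
        · exact Nat.le_of_lt_succ (Finset.mem_range.1 (hS (Finset.mem_toList.1 hi)))
      · rw [if_neg h]
        exact MeasurePreserving.id mu)
    (fun S => by
      by_cases h : good S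
      · rw [if_pos h]
        exact Lm_cont d _
      · rw [if_neg h]
        exact continuous_id)
    (fun S => by
      by_cases h : good S
      · rw [if_pos h]
        exact Mm_cont d _
      · rw [if_neg h]
        exact continuous_const)
  refine ⟨k, fun z hz => ?_⟩
  obtain ⟨x, hxz, hx⟩ := hk z hz
  let X : ℕ → ℕ → Bool := fun i => dec (Yf d (en x) (en z) i)
  refine ⟨X, fun S hS hne hpr => ?_, ?_, ?_⟩
  · have h1 := hx ⟨S, Finset.mem_powerset.2 hS⟩
    have hg : good S := ⟨hne, hpr⟩
    rw [if_pos hg, if_pos hg] at h1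
    have e : dec (Lm d S.toList (en x) + Mm d S.toList (en z)) = cmp X S.toList := by
      funext m
      show decide ((Lm d S.toList (en x) + Mm d S.toList (en z)) m = 1) = _
      rw [Lm_Mm]
      rfl
    rw [e] at h1
    exact (hom _ _ (rd_cmp d X S hne) (cmp_rd d X S hS hne)).trans h1
  · refine Jn_le d X z fun i _ => ?_
    have hcoR : ∀ l, Rd (dec (co d (en x) l)) z := by
      intro l
      have h1 : Rd (dec (co d (en x) l)) x := by
        refine Rd.of_comp (fun t => d * t + l)
          (Primrec.nat_add.comp (Primrec.nat_mul.comp (Primrec.const d) Primrec.id) (Primrec.const l)) fun t => ?_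
        show dec (en x) (d * t + l) = x (d * t + l)
        rw [dec_en]
      exact h1.trans hxz
    show Rd (dec (Yf d (en x) (en z) i)) z
    unfold Yf
    by_cases h : i < d
    · rw [if_pos h]
      exact hcoR i
    · rw [if_neg h]
      refine rd_add (rd_sums _ z d fun l _ => hcoR l) ?_
      rw [dec_en]
      exact Rd.refl z
  · have h1 : ∑ i ∈ Finset.range (d + 1), Yf d (en x) (en z) i = en z := by
      rw [Finset.sum_range_succ]
      have h2 : ∀ i ∈ Finset.range d, Yf d (en x) (en z) i = co d (en x) i := fun i hi => if_pos (Finset.mem_range.1 hi)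
      have h3 : Yf d (en x) (en z) d = (∑ l ∈ Finset.range d, co d (en x) l) + en z := if_neg (lt_irrefl d)
      rw [Finset.sum_congr rfl h2, h3, ← add_assoc, gp_add_self, zero_add]
    have h2 := rd_sums (fun i => Yf d (en x) (en z) i) (Jn d X (Finset.range (d + 1))) (d + 1)
      fun l hl => le_Jn d X l (Nat.le_of_lt_succ hl)
    rw [h1, dec_en] at h2
    exact h2

/-- adding `z0` to every member of the family -/
theorem jn_Jn (d : ℕ) (z0 : ℕ → Bool) (Y : ℕ → ℕ → Bool) (S : Finset ℕ) (hS : S ⊆ Finset.range (d + 1)) (hne : S.Nonempty) :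
    Rd z0 (Jn d (fun i => jn z0 (Y i)) S) ∧ Rd (Jn d Y S) (Jn d (fun i => jn z0 (Y i)) S) ∧
      Rd (Jn d (fun i => jn z0 (Y i)) S) (jn z0 (Jn d Y S)) := by
  refine ⟨?_, ?_, ?_⟩
  · obtain ⟨i, hi⟩ := hne
    have h := Finset.mem_range.1 (hS hi)
    refine Rd.of_comp (fun t => (d + 1) * (2 * t) + i)
      (Primrec.nat_add.comp (Primrec.nat_mul.comp (Primrec.const (d + 1)) (Primrec.nat_mul.comp (Primrec.const 2) Primrec.id))
        (Primrec.const i)) fun t => ?_
    unfold Jn
    rw [Nat.mul_add_mod, Nat.mod_eq_of_lt h, if_pos hi, Nat.mul_add_div (Nat.succ_pos d), Nat.div_eq_of_lt h, add_zero]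
    show z0 t = if (2 * t) % 2 = 0 then z0 (2 * t / 2) else Y i (2 * t / 2)
    rw [if_pos (by omega)]
    exact congrArg z0 (by omega)
  · refine Rd.of_comp (fun m => (d + 1) * (2 * (m / (d + 1)) + 1) + m % (d + 1))
      (Primrec.nat_add.comp (Primrec.nat_mul.comp (Primrec.const (d + 1)) (Primrec.succ.comp (Primrec.nat_mul.comp
        (Primrec.const 2) (Primrec.nat_div.comp Primrec.id (Primrec.const (d + 1)))))) (Primrec.nat_mod.comp Primrec.id
        (Primrec.const (d + 1)))) fun m => ?_
    have h := Nat.mod_lt m (Nat.succ_pos d)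
    unfold Jn
    rw [Nat.mul_add_mod, Nat.mod_eq_of_lt h, Nat.mul_add_div (Nat.succ_pos d), Nat.div_eq_of_lt h, add_zero]
    by_cases h2 : m % (d + 1) ∈ S
    · rw [if_pos h2, if_pos h2]
      show Y (m % (d + 1)) (m / (d + 1)) = if (2 * (m / (d + 1)) + 1) % 2 = 0 then z0 ((2 * (m / (d + 1)) + 1) / 2)
        else Y (m % (d + 1)) ((2 * (m / (d + 1)) + 1) / 2)
      rw [if_neg (by omega)]
      exact congrArg (Y (m % (d + 1))) (by omega)
    · rw [if_neg h2, if_neg h2]
  · have hp : Primrec fun m : ℕ => m / (d + 1) := Primrec.nat_div.comp Primrec.id (Primrec.const (d + 1))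
    have hh : Primrec fun m : ℕ => m / (d + 1) / 2 := Primrec.nat_div.comp hp (Primrec.const 2)
    refine Rd.of_ite (fun m => (tabS d S).getD (m % (d + 1)) 0)
      (fun m => if m / (d + 1) % 2 = 0 then 2 * (m / (d + 1) / 2) else 2 * ((d + 1) * (m / (d + 1) / 2) + m % (d + 1)) + 1)
      (prim_tab _ _) ?_ fun m => ?_
    · refine Primrec.ite (Primrec.eq.comp (Primrec.nat_mod.comp hp (Primrec.const 2)) (Primrec.const 0)) ?_ ?_
      · exact Primrec.nat_mul.comp (Primrec.const 2) hh
      · exact Primrec.succ.comp (Primrec.nat_mul.comp (Primrec.const 2) (Primrec.nat_add.comp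
          (Primrec.nat_mul.comp (Primrec.const (d + 1)) hh) (Primrec.nat_mod.comp Primrec.id (Primrec.const (d + 1)))))
    · by_cases h : m % (d + 1) ∈ S
      · rw [if_pos ((tabS_spec d S m).2 h)]
        show (if m % (d + 1) ∈ S then jn z0 (Y (m % (d + 1))) (m / (d + 1)) else false) = _
        rw [if_pos h]
        by_cases h2 : m / (d + 1) % 2 = 0
        · rw [if_pos h2]
          unfold jn
          rw [if_pos h2, if_pos (show 2 * (m / (d + 1) / 2) % 2 = 0 by omega)]
          exact congrArg z0 (by omega)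
        · rw [if_neg h2]
          have hlt := Nat.mod_lt m (Nat.succ_pos d)
          have e1 : (2 * ((d + 1) * (m / (d + 1) / 2) + m % (d + 1)) + 1) / 2 = (d + 1) * (m / (d + 1) / 2) + m % (d + 1) := by
            omega
          unfold jn
          rw [if_neg h2, if_neg (show ¬ (2 * ((d + 1) * (m / (d + 1) / 2) + m % (d + 1)) + 1) % 2 = 0 by omega), e1]
          unfold Jn
          rw [Nat.mul_add_mod, Nat.mod_eq_of_lt hlt, if_pos h, Nat.mul_add_div (Nat.succ_pos d), Nat.div_eq_of_lt hlt,
            add_zero]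
      · rw [if_neg fun h2 => h ((tabS_spec d S m).1 h2)]
        show (if m % (d + 1) ∈ S then jn z0 (Y (m % (d + 1))) (m / (d + 1)) else false) = _
        rw [if_neg h]

theorem main_spx_rel (f : (ℕ → Bool) → ℕ → Bool) (hf : Measurable f) (z0 : ℕ → Bool)
    (hom : ∀ x y, Rd z0 x → Rd x y → Rd y x → Ev (f x) (f y)) :
    ∃ k c : ℕ → Bool, ∀ z, Rd k z → ∀ d, 0 < d → ∃ X : ℕ → ℕ → Bool, (∀ i, Rd z0 (X i)) ∧
      (∀ S ⊆ Finset.range (d + 1), S.Nonempty → S ≠ Finset.range (d + 1) → Ev (f (Jn d X S)) c) ∧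
      Rd (Jn d X (Finset.range (d + 1))) z ∧ Rd z (Jn d X (Finset.range (d + 1))) := by
  have hj : Measurable fun w : ℕ → Bool => jn z0 w := by
    refine measurable_pi_lambda _ fun n => ?_
    unfold jn
    by_cases h : n % 2 = 0
    · simp only [h, if_true]
      exact measurable_const
    · simp only [h, if_false]
      exact measurable_pi_apply _
  have hmon : ∀ x y, Rd x y → Rd (jn z0 x) (jn z0 y) := fun x y h => jn_rd (jn_l z0 y) (h.trans (jn_r z0 y))
  obtain ⟨c, hc⟩ := main_spx (fun w => f (jn z0 w)) (hf.comp hj)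
    (fun x y h1 h2 => hom _ _ (jn_l z0 x) (hmon x y h1) (hmon y x h2))
  have hc' : ∀ d, ∃ k : ℕ → Bool, 0 < d → ∀ z, Rd k z → ∃ X : ℕ → ℕ → Bool,
      (∀ S ⊆ Finset.range (d + 1), S.Nonempty → S ≠ Finset.range (d + 1) → Ev (f (jn z0 (Jn d X S))) c) ∧
      Rd (Jn d X (Finset.range (d + 1))) z ∧ Rd z (Jn d X (Finset.range (d + 1))) := by
    intro d
    by_cases hd : 0 < d
    · obtain ⟨k, hk⟩ := hc d hd
      exact ⟨k, fun _ => hk⟩
    · exact ⟨fun _ => false, fun h => absurd h hd⟩
  choose k hk using hc'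
  have hkd : ∀ d, Rd (k d) fun p => k p.unpair.1 p.unpair.2 := by
    intro d
    refine Rd.of_comp (fun n => Nat.pair d n) (Primrec₂.natPair.comp (Primrec.const d) Primrec.id) fun n => ?_
    show k d n = k (Nat.pair d n).unpair.1 (Nat.pair d n).unpair.2
    rw [Nat.unpair_pair]
  refine ⟨jn (fun p => k p.unpair.1 p.unpair.2) z0, c, fun z hz d hd => ?_⟩
  have hz0 : Rd z0 z := (jn_r _ z0).trans hz
  obtain ⟨Y, hY1, hY2, hY3⟩ := hk d hd z ((hkd d).trans ((jn_l _ z0).trans hz))
  have hR : (Finset.range (d + 1)).Nonempty := ⟨0, Finset.mem_range.2 (Nat.succ_pos d)⟩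
  refine ⟨fun i => jn z0 (Y i), fun i => jn_l z0 (Y i), fun S hS hne hpr => ?_, ?_, ?_⟩
  · obtain ⟨h1, h2, h3⟩ := jn_Jn d z0 Y S hS hne
    exact (hom _ _ h1 h3 (jn_rd h1 h2)).trans (hY1 S hS hne hpr)
  · exact Jn_le d _ z fun i hi => jn_rd hz0 ((le_Jn d Y i hi).trans hY2)
  · exact hY3.trans (jn_Jn d z0 Y _ (Finset.Subset.refl _) hR).2.1

end Pool.Agent.Lib.MP_1a0a6e_lc
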