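import Pool.Agent.Lib.MP_1a0a6e_lc.Cnt
import Pool.Agent.Lib.MP_1a0a6e_lc.Bc

/-!
# MP_1a0a6e_lc: use principle, uniform continuity, and constructions in the limit
-/

set_option autoImplicit false

open Topology

namespace Pool.Agent.Lib.MP_1a0a6e_lc

/-! ### the use principle -/

theorem seq_mem (p q : Part ℕ) (m : ℕ) : m ∈ (Nat.pair <$> p <*> q) ↔ ∃ a ∈ p, ∃ b ∈ q, Nat.pair a b = m := by
  simp [Seq.seq]

theorem use_rec (A B : (ℕ → Bool) → ℕ →. ℕ)
    (hA : ∀ (x : ℕ → Bool) (n m : ℕ), m ∈ A x n → ∃ K, ∀ x', Cy K x x' → m ∈ A x' n)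
    (hB : ∀ (x : ℕ → Bool) (n m : ℕ), m ∈ B x n → ∃ K, ∀ x', Cy K x x' → m ∈ B x' n) (x : ℕ → Bool) (c n : ℕ) :
    ∀ m, m ∈ (Nat.rec (A x c) (fun y IH => IH.bind fun i => B x (Nat.pair c (Nat.pair y i))) n : Part ℕ) →
      ∃ K, ∀ x', Cy K x x' →
        m ∈ (Nat.rec (A x' c) (fun y IH => IH.bind fun i => B x' (Nat.pair c (Nat.pair y i))) n : Part ℕ) := by
  induction n with
  | zero => exact fun m h => hA x c m h
  | succ n ih =>
    intro m h
    obtain ⟨i, hi, hm⟩ := Part.mem_bind_iff.1 h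
    obtain ⟨K1, hK1⟩ := ih i hi
    obtain ⟨K2, hK2⟩ := hB x _ m hm
    exact ⟨max K1 K2, fun x' hx' => Part.mem_bind_iff.2 ⟨i, hK1 x' (hx'.mono (le_max_left _ _)),
      hK2 x' (hx'.mono (le_max_right _ _))⟩⟩

theorem Cd.use (c : Cd) : ∀ (x : ℕ → Bool) (n m : ℕ), m ∈ c.ev (orc x) n →
    ∃ K, ∀ x', Cy K x x' → m ∈ c.ev (orc x') n := by
  induction c with
  | z => exact fun x n m h => ⟨0, fun x' _ => h⟩
  | s => exact fun x n m h => ⟨0, fun x' _ => h⟩
  | l => exact fun x n m h => ⟨0, fun x' _ => h⟩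
  | r => exact fun x n m h => ⟨0, fun x' _ => h⟩
  | o =>
    intro x n m h
    refine ⟨n + 1, fun x' hx' => ?_⟩
    have e : orc x' n = orc x n := by
      show Part.some (x' n).toNat = Part.some (x n).toNat
      rw [hx' n (Nat.lt_succ_self n)]
    show m ∈ orc x' n
    rw [e]
    exact h
  | pr a b iha ihb =>
    intro x n m h
    obtain ⟨u, hu, v, hv, hm⟩ := (seq_mem _ _ m).1 h
    obtain ⟨K1, hK1⟩ := iha x n u hu
    obtain ⟨K2, hK2⟩ := ihb x n v hv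
    exact ⟨max K1 K2, fun x' hx' => (seq_mem _ _ m).2 ⟨u, hK1 x' (hx'.mono (le_max_left _ _)), v,
      hK2 x' (hx'.mono (le_max_right _ _)), hm⟩⟩
  | cm a b iha ihb =>
    intro x n m h
    obtain ⟨i, hi, hm⟩ := Part.mem_bind_iff.1 h
    obtain ⟨K1, hK1⟩ := ihb x n i hi
    obtain ⟨K2, hK2⟩ := iha x i m hm
    exact ⟨max K1 K2, fun x' hx' => Part.mem_bind_iff.2 ⟨i, hK1 x' (hx'.mono (le_max_left _ _)),
      hK2 x' (hx'.mono (le_max_right _ _))⟩⟩
  | rc a b iha ihb =>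
    intro x n m h
    exact use_rec (fun x => a.ev (orc x)) (fun x => b.ev (orc x)) iha ihb x n.unpair.1 n.unpair.2 m h
  | rf a iha =>
    intro x n m h
    obtain ⟨h1, h2⟩ := Nat.mem_rfind.1 h
    have h3 : ∀ j ≤ m, ∃ K, ∀ x', Cy K x x' → ∀ b : Bool,
        b ∈ ((fun m => decide (m = 0)) <$> a.ev (orc x) (Nat.pair n j) : Part Bool) →
        b ∈ ((fun m => decide (m = 0)) <$> a.ev (orc x') (Nat.pair n j) : Part Bool) := by
      intro j hj
      have h4 : ∃ u, u ∈ a.ev (orc x) (Nat.pair n j) := by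
        rcases hj.lt_or_eq with h5 | h5
        · obtain ⟨u, hu, _⟩ := (Part.mem_map_iff _).1 (h2 h5)
          exact ⟨u, hu⟩
        · rw [h5]
          obtain ⟨u, hu, _⟩ := (Part.mem_map_iff _).1 h1
          exact ⟨u, hu⟩
      obtain ⟨u, hu⟩ := h4
      obtain ⟨K, hK⟩ := iha x _ u hu
      refine ⟨K, fun x' hx' b hb => ?_⟩
      obtain ⟨u', hu', hb'⟩ := (Part.mem_map_iff _).1 hb
      have e : u' = u := Part.mem_unique hu' hu
      rw [e] at hb'
      exact (Part.mem_map_iff _).2 ⟨u, hK x' hx', hb'⟩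
    choose! K hK using h3
    obtain ⟨B, hB⟩ := sum_bd K m
    refine ⟨B, fun x' hx' => Nat.mem_rfind.2 ⟨?_, fun {j} hj => ?_⟩⟩
    · exact hK m le_rfl x' (hx'.mono (hB m le_rfl)) _ h1
    · exact hK j hj.le x' (hx'.mono (hB j hj.le)) _ (h2 hj)

/-! ### uniform continuity -/

theorem unif (φ : (ℕ → Bool) → Bool) (hφ : Continuous φ) : ∃ M, ∀ x x', Cy M x x' → φ x' = φ x := by
  have h1 : ∀ x, ∃ K, ∀ x', Cy K x x' → φ x' = φ x := fun x => by
    obtain ⟨K, hK⟩ := cy_nhds x _ (hφ.continuousAt.preimage_mem_nhds ((isOpen_discrete {φ x}).mem_nhds rfl))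
    exact ⟨K, fun x' hx' => hK x' hx'⟩
  choose K hK using h1
  obtain ⟨t, ht⟩ := isCompact_univ.elim_finite_subcover (fun x : ℕ → Bool => {y | Cy (K x) x y})
    (fun x => cy_open (K x) x) fun x _ => Set.mem_iUnion.2 ⟨x, Cy.refl _ _⟩
  refine ⟨t.sup K, fun x x' hx => ?_⟩
  obtain ⟨y, hy⟩ := Set.mem_iUnion.1 (ht (Set.mem_univ x))
  obtain ⟨hyt, hy⟩ := Set.mem_iUnion.1 hy
  have h2 : Cy (K y) y x := hy
  have h3 : Cy (K y) y x' := h2.trans (hx.mono (Finset.le_sup hyt))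
  rw [hK y x' h3, hK y x h2]

/-! ### constructions in the limit -/

theorem fd_eq {P : ℕ → Prop} {e : ℕ} (h : P e) (h' : ∀ e' < e, ¬ P e') : fd P = e := by
  classical
  have h0 : ∃ e, P e := ⟨e, h⟩
  have e0 : fd P = Nat.find h0 := by unfold fd; rw [dif_pos h0]
  rw [e0, Nat.find_eq_iff]
  exact ⟨h, h'⟩

theorem fd_min {P : ℕ → Prop} {e : ℕ} (h : e < fd P) : ¬ P e := by
  classical
  intro he
  have h0 : ∃ e, P e := ⟨e, he⟩
  have e0 : fd P = Nat.find h0 := by unfold fd; rw [dif_pos h0]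
  rw [e0] at h
  exact Nat.find_min h0 h he

/-- the least `e ≤ T` with `P e` -/
noncomputable def fb (T : ℕ) (P : ℕ → Prop) : ℕ := fd fun e => e ≤ T ∧ P e

theorem fb_congr {T : ℕ} {P Q : ℕ → Prop} (h : ∀ e ≤ T, (P e ↔ Q e)) : fb T P = fb T Q := by
  unfold fb
  rw [show (fun e => e ≤ T ∧ P e) = fun e => e ≤ T ∧ Q e from funext fun e => propext
    ⟨fun h1 => ⟨h1.1, (h e h1.1).1 h1.2⟩, fun h1 => ⟨h1.1, (h e h1.1).2 h1.2⟩⟩]

theorem fb_lim (A : ℕ → ℕ → Prop) (hm : ∀ T e, A (T + 1) e → A T e) (hex : ∃ e, ∀ T, A T e) :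
    ∃ T0, ∀ T ≥ T0, fb T (A T) = fd fun e => ∀ T, A T e := by
  have hm2 : ∀ e T T', T ≤ T' → A T' e → A T e := by
    intro e T T' h
    induction T', h using Nat.le_induction with
    | base => exact id
    | succ T' _ ih => exact fun h => ih (hm T' e h)
  have h1 := fd_spec hex
  set e0 := fd fun e => ∀ T, A T e with he0
  have h2 : ∀ e < e0, ∃ T, ¬ A T e := fun e he => by
    have := fd_min he
    push Not at this
    exact this
  choose! T1 hT1 using h2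
  obtain ⟨B, hB⟩ := sum_bd T1 e0
  refine ⟨max B e0, fun T hT => fd_eq ⟨(le_max_right _ _).trans hT, h1 T⟩ fun e he h3 => ?_⟩
  exact hT1 e he (hm2 e _ T ((hB e he.le).trans ((le_max_left _ _).trans hT)) h3.2)

section
variable (A : ℕ → (ℕ → Bool) → ℕ → ℕ × ℕ → ℕ → Prop) (nx : ℕ → ℕ × ℕ → ℕ → ℕ × ℕ)

/-- the construction at time `T` -/
noncomputable def stT (T : ℕ) (w : ℕ → Bool) : ℕ → ℕ × ℕ
  | 0 => (0, 0)
  | i + 1 => nx i (stT T w i) (fb T fun e => A T w i (stT T w i) e)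

/-- the choice at time `T` -/
noncomputable def chT (T : ℕ) (w : ℕ → Bool) (i : ℕ) : ℕ := fb T fun e => A T w i (stT A nx T w i) e

/-- the construction in the limit -/
noncomputable def stI (w : ℕ → Bool) : ℕ → ℕ × ℕ
  | 0 => (0, 0)
  | i + 1 => nx i (stI w i) (fd fun e => ∀ T, A T w i (stI w i) e)

/-- the choice in the limit -/
noncomputable def chI (w : ℕ → Bool) (i : ℕ) : ℕ := fd fun e => ∀ T, A T w i (stI A nx w i) e

theorem st_loc (hc : ∀ T w i s e, ∃ N, ∀ w', Cy N w w' → (A T w' i s e ↔ A T w i s e)) (T : ℕ) (w : ℕ → Bool) (i : ℕ) :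
    ∃ N, ∀ w', Cy N w w' → stT A nx T w' i = stT A nx T w i ∧ chT A nx T w' i = chT A nx T w i := by
  have h1 : ∀ i, (∃ N, ∀ w', Cy N w w' → stT A nx T w' i = stT A nx T w i) →
      ∃ N, ∀ w', Cy N w w' → stT A nx T w' i = stT A nx T w i ∧ chT A nx T w' i = chT A nx T w i := by
    rintro i ⟨N, hN⟩
    choose M hM using fun e => hc T w i (stT A nx T w i) e
    obtain ⟨B, hB⟩ := sum_bd M T
    refine ⟨max N B, fun w' hw' => ?_⟩
    have h2 := hN w' (hw'.mono (le_max_left _ _))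
    refine ⟨h2, ?_⟩
    unfold chT
    rw [h2]
    exact fb_congr fun e he => hM e w' (hw'.mono ((hB e he).trans (le_max_right _ _)))
  induction i with
  | zero => exact h1 0 ⟨0, fun _ _ => rfl⟩
  | succ i ih =>
    obtain ⟨N, hN⟩ := ih
    refine h1 (i + 1) ⟨N, fun w' hw' => ?_⟩
    obtain ⟨h2, h3⟩ := hN w' hw'
    show nx i (stT A nx T w' i) (chT A nx T w' i) = nx i (stT A nx T w i) (chT A nx T w i)
    rw [h2, h3]

theorem st_lim (hm : ∀ T w i s e, A (T + 1) w i s e → A T w i s e) (w : ℕ → Bool)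
    (hex : ∀ i s, ∃ e, ∀ T, A T w i s e) (i : ℕ) :
    ∃ T0, ∀ T ≥ T0, stT A nx T w i = stI A nx w i ∧ chT A nx T w i = chI A nx w i := by
  have h1 : ∀ i, (∃ T0, ∀ T ≥ T0, stT A nx T w i = stI A nx w i) →
      ∃ T0, ∀ T ≥ T0, stT A nx T w i = stI A nx w i ∧ chT A nx T w i = chI A nx w i := by
    rintro i ⟨T0, hT0⟩
    obtain ⟨T1, hT1⟩ := fb_lim (fun T e => A T w i (stI A nx w i) e) (fun T e => hm T w i _ e) (hex i _)
    refine ⟨max T0 T1, fun T hT => ?_⟩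
    have h2 := hT0 T ((le_max_left _ _).trans hT)
    refine ⟨h2, ?_⟩
    unfold chT chI
    rw [h2]
    exact hT1 T ((le_max_right _ _).trans hT)
  induction i with
  | zero => exact h1 0 ⟨0, fun _ _ => rfl⟩
  | succ i ih =>
    obtain ⟨T0, hT0⟩ := ih
    refine h1 (i + 1) ⟨T0, fun T hT => ?_⟩
    obtain ⟨h2, h3⟩ := hT0 T hT
    show nx i (stT A nx T w i) (chT A nx T w i) = nx i (stI A nx w i) (chI A nx w i)
    rw [h2, h3]

end

end Pool.Agent.Lib.MP_1a0a6e_lc
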